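import Pool.Agent.N976.SC.Def

/-!
# SC/T1: explicit building blocks
-/

set_option autoImplicit false

namespace Pool.Agent.N976.SC.T1

open Set Filter Topology MeasureTheory
open scoped ContDiff

/-- the curl of a product stream function -/
noncomputable def H (a b c : ℝ → ℝ) (y : E3) : E3 :=
  WithLp.toLp 2 ![a (y 0) * deriv b (y 1) * c (y 2), -(deriv a (y 0) * b (y 1) * c (y 2)), 0]

theorem co (i : Fin 3) : ContDiff ℝ ∞ (fun y : E3 => y i) :=
  (EuclideanSpace.proj i : E3 →L[ℝ] ℝ).contDiff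

theorem sm_deriv {b : ℝ → ℝ} (hb : ContDiff ℝ ∞ b) : ContDiff ℝ ∞ (deriv b) :=
  (contDiff_infty_iff_deriv.1 hb).2

theorem H_smooth {a b c : ℝ → ℝ} (ha : ContDiff ℝ ∞ a) (hb : ContDiff ℝ ∞ b)
    (hc : ContDiff ℝ ∞ c) : ContDiff ℝ ∞ (H a b c) := by
  rw [contDiff_euclidean]
  intro i
  fin_cases i
  · exact ((ha.comp (co 0)).mul ((sm_deriv hb).comp (co 1))).mul (hc.comp (co 2))
  · exact ((((sm_deriv ha).comp (co 0)).mul (hb.comp (co 1))).mul (hc.comp (co 2))).neg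
  · exact contDiff_const

theorem comp_deriv {v : E3 → E3} {y w : E3} (hv : DifferentiableAt ℝ v y) (i : Fin 3) :
    HasDerivAt (fun t : ℝ => v (y + t • w) i) ((fderiv ℝ v y w) i) 0 := by
  have h1 : HasDerivAt (fun t : ℝ => v (y + t • w)) (fderiv ℝ v y w) 0 := by
    have h2 : HasDerivAt (fun t : ℝ => y + t • w) w 0 := by
      simpa using ((hasDerivAt_id (0 : ℝ)).smul_const w).const_add y
    have h3 : HasFDerivAt v (fderiv ℝ v y) (y + (0 : ℝ) • w) := by
      simpa using hv.hasFDerivAt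
    exact h3.comp_hasDerivAt 0 h2
  exact (EuclideanSpace.proj i : E3 →L[ℝ] ℝ).hasFDerivAt.comp_hasDerivAt 0 h1

theorem shift {a : ℝ → ℝ} (ha : ContDiff ℝ ∞ a) (x : ℝ) :
    HasDerivAt (fun t : ℝ => a (x + t)) (deriv a x) 0 := by
  have h1 : HasDerivAt a (deriv a x) (x + 0) := by
    rw [add_zero]
    exact (ha.differentiable (by simp) x).hasDerivAt
  exact HasDerivAt.comp_const_add x 0 h1

theorem H_div {a b c : ℝ → ℝ} (ha : ContDiff ℝ ∞ a) (hb : ContDiff ℝ ∞ b)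
    (hc : ContDiff ℝ ∞ c) (y : E3) : divg (H a b c) y = 0 := by
  have hd : DifferentiableAt ℝ (H a b c) y := (H_smooth ha hb hc).differentiable (by simp) y
  unfold divg
  rw [Fin.sum_univ_three]
  have e0 : (fderiv ℝ (H a b c) y (bv 0)) 0 = deriv a (y 0) * deriv b (y 1) * c (y 2) := by
    refine (comp_deriv hd 0).unique ?_
    have e : (fun t : ℝ => H a b c (y + t • bv 0) 0) =
        fun t => a (y 0 + t) * deriv b (y 1) * c (y 2) := by
      funext t
      simp [H, bv]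
    rw [e]
    exact ((shift ha (y 0)).mul_const _).mul_const _
  have e1 : (fderiv ℝ (H a b c) y (bv 1)) 1 = -(deriv a (y 0) * deriv b (y 1) * c (y 2)) := by
    refine (comp_deriv hd 1).unique ?_
    have e : (fun t : ℝ => H a b c (y + t • bv 1) 1) =
        fun t => -(deriv a (y 0) * b (y 1 + t) * c (y 2)) := by
      funext t
      simp [H, bv]
    rw [e]
    exact (((shift hb (y 1)).const_mul _).mul_const _).neg
  have e2 : (fderiv ℝ (H a b c) y (bv 2)) 2 = 0 := by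
    refine (comp_deriv hd 2).unique ?_
    have e : (fun t : ℝ => H a b c (y + t • bv 2) 2) = fun t => 0 := by
      funext t
      simp [H]
    rw [e]
    exact hasDerivAt_const _ _
  rw [e0, e1, e2]
  ring

/-- Fubini -/
theorem int_prod {f0 f1 f2 g0 g1 g2 : ℝ → ℝ} (hf0 : Integrable f0) (hf1 : Integrable f1)
    (hf2 : Integrable f2) (hg0 : Integrable g0) (hg1 : Integrable g1) (hg2 : Integrable g2) :
    ∫ y : E3, (f0 (y 0) * f1 (y 1) * f2 (y 2) - g0 (y 0) * g1 (y 1) * g2 (y 2)) =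
      (∫ s, f0 s) * (∫ s, f1 s) * (∫ s, f2 s) - (∫ s, g0 s) * (∫ s, g1 s) * (∫ s, g2 s) := by
  have e : ∀ f0 f1 f2 : ℝ → ℝ, (fun x : Fin 3 → ℝ => f0 (x 0) * f1 (x 1) * f2 (x 2)) =
      fun x => ∏ i, (![f0, f1, f2] i) (x i) := by
    intro f0 f1 f2
    funext x
    rw [Fin.prod_univ_three]
    rfl
  have hi : ∀ {f0 f1 f2 : ℝ → ℝ}, Integrable f0 → Integrable f1 → Integrable f2 →
      Integrable (fun x : Fin 3 → ℝ => f0 (x 0) * f1 (x 1) * f2 (x 2)) := by
    intro f0 f1 f2 h0 h1 h2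
    rw [e]
    refine Integrable.fintype_prod (f := ![f0, f1, f2]) (μ := fun _ => volume) fun i => ?_
    fin_cases i
    · exact h0
    · exact h1
    · exact h2
  have hv : ∀ f0 f1 f2 : ℝ → ℝ, ∫ x : Fin 3 → ℝ, f0 (x 0) * f1 (x 1) * f2 (x 2) =
      (∫ s, f0 s) * (∫ s, f1 s) * (∫ s, f2 s) := by
    intro f0 f1 f2
    rw [e, integral_fintype_prod_volume_eq_prod, Fin.prod_univ_three]
    rfl
  rw [← (PiLp.volume_preserving_toLp (Fin 3)).integral_comp
    (MeasurableEquiv.toLp 2 _).measurableEmbedding]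
  rw [← hv f0 f1 f2, ← hv g0 g1 g2, ← integral_sub (hi hf0 hf1 hf2) (hi hg0 hg1 hg2)]

theorem csq {q : ℝ → ℝ} (hc : HasCompactSupport q) : HasCompactSupport (fun s => q s ^ 2) := by
  have h := hc.mul_right (f' := q)
  have e : (fun s => q s ^ 2) = q * q := by
    funext s
    rw [Pi.mul_apply, sq]
  rw [e]
  exact h

theorem sq_int {q : ℝ → ℝ} (hq : Continuous q) (hc : HasCompactSupport q) :
    Integrable (fun s => q s ^ 2) :=
  (hq.pow 2).integrable_of_hasCompactSupport (csq hc)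

theorem ip_H {a b c : ℝ → ℝ} (ha : ContDiff ℝ ∞ a) (hb : ContDiff ℝ ∞ b)
    (hc : ContDiff ℝ ∞ c) (ca : HasCompactSupport a) (cb : HasCompactSupport b)
    (cc : HasCompactSupport c) :
    ip (fun y => Am (H a b c y)) (H a b c) =
      (∫ s, a s ^ 2) * (∫ s, deriv b s ^ 2) * (∫ s, c s ^ 2) -
        (∫ s, deriv a s ^ 2) * (∫ s, b s ^ 2) * (∫ s, c s ^ 2) := by
  rw [← int_prod (sq_int ha.continuous ca) (sq_int (sm_deriv hb).continuous cb.deriv)
    (sq_int hc.continuous cc) (sq_int (sm_deriv ha).continuous ca.deriv) (sq_int hb.continuous cb)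
    (sq_int hc.continuous cc)]
  unfold ip
  refine integral_congr_ae (Eventually.of_forall fun y => ?_)
  simp only [PiLp.inner_apply, Fin.sum_univ_three, RCLike.inner_apply, conj_trivial]
  simp [Am, H]
  ring

/-- one-dimensional dilation -/
noncomputable def dil (l : ℝ) (q : ℝ → ℝ) (s : ℝ) : ℝ := l⁻¹ * q (l * s)

theorem dil_smooth {l : ℝ} {q : ℝ → ℝ} (hq : ContDiff ℝ ∞ q) : ContDiff ℝ ∞ (dil l q) :=
  contDiff_const.mul (hq.comp (contDiff_const.mul contDiff_id))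

theorem dil_deriv {l : ℝ} (hl : l ≠ 0) {q : ℝ → ℝ} (hq : ContDiff ℝ ∞ q) (s : ℝ) :
    deriv (dil l q) s = deriv q (l * s) := by
  have h1 : HasDerivAt q (deriv q (l * s)) (l * s) :=
    (hq.differentiable (by simp) (l * s)).hasDerivAt
  have h2 : HasDerivAt (fun s : ℝ => l * s) l s := by
    simpa using (hasDerivAt_id s).const_mul l
  have h3 : HasDerivAt (dil l q) (l⁻¹ * (deriv q (l * s) * l)) s := (h1.comp s h2).const_mul l⁻¹
  rw [h3.deriv]
  field_simp

theorem dil_int {l : ℝ} (hl : 0 < l) (q : ℝ → ℝ) :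
    ∫ s, dil l q s ^ 2 = l⁻¹ ^ 3 * ∫ s, q s ^ 2 := by
  have h := Measure.integral_comp_mul_left (fun s => q s ^ 2) l
  have e : ∀ s, dil l q s ^ 2 = l⁻¹ ^ 2 * (fun s => q s ^ 2) (l * s) := by
    intro s; unfold dil; ring
  simp only [e]
  rw [integral_const_mul, h, abs_of_pos (inv_pos.2 hl), smul_eq_mul]
  ring

theorem dil_int' {l : ℝ} (hl : 0 < l) {q : ℝ → ℝ} (hq : ContDiff ℝ ∞ q) :
    ∫ s, deriv (dil l q) s ^ 2 = l⁻¹ * ∫ s, deriv q s ^ 2 := by
  have h := Measure.integral_comp_mul_left (fun s => deriv q s ^ 2) l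
  simp only [dil_deriv hl.ne' hq]
  rw [h, abs_of_pos (inv_pos.2 hl), smul_eq_mul]

/-- smooth odd functions on the line vanishing for `R ≤ |s|`, not identically zero -/
structure Q1 (q : ℝ → ℝ) (R : ℝ) : Prop where
  sm : ContDiff ℝ ∞ q
  odd : ∀ s, q (-s) = -q s
  out : ∀ s, R ≤ |s| → q s = 0
  nz : ∃ s, q s ≠ 0

theorem Q1.cs {q : ℝ → ℝ} {R : ℝ} (h : Q1 q R) : HasCompactSupport q := by
  refine HasCompactSupport.intro (isCompact_Icc (a := -R) (b := R)) fun s hs => h.out s ?_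
  by_contra h1
  push Not at h1
  exact hs ⟨(abs_lt.1 h1).1.le, (abs_lt.1 h1).2.le⟩

theorem Q1.dout {q : ℝ → ℝ} {R : ℝ} (h : Q1 q R) {s : ℝ} (hs : R < |s|) : deriv q s = 0 := by
  have h1 : q =ᶠ[𝓝 s] fun _ => 0 := by
    have h2 : {x : ℝ | R < |x|} ∈ 𝓝 s := (isOpen_lt continuous_const continuous_abs).mem_nhds hs
    filter_upwards [h2] with x hx
    exact h.out x hx.le
  rw [h1.deriv_eq, deriv_const]

theorem Q1.deven {q : ℝ → ℝ} {R : ℝ} (h : Q1 q R) (s : ℝ) : deriv q (-s) = deriv q s := by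
  have h1 : (fun x => q (-x)) = fun x => -q x := funext h.odd
  have h2 := congrArg (fun f => deriv f s) h1
  simp only [deriv_comp_neg, deriv.fun_neg] at h2
  linarith

theorem Q1.pos {q : ℝ → ℝ} {R : ℝ} (h : Q1 q R) : 0 < ∫ s, q s ^ 2 := by
  obtain ⟨s, hs⟩ := h.nz
  refine Continuous.integral_pos_of_hasCompactSupport_nonneg_nonzero (x := s)
    (h.sm.continuous.pow 2) (csq h.cs)
    (fun x => sq_nonneg (q x)) (pow_ne_zero 2 hs)

theorem Q1.dpos {q : ℝ → ℝ} {R : ℝ} (h : Q1 q R) : 0 < ∫ s, deriv q s ^ 2 := by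
  obtain ⟨s, hs⟩ : ∃ s, deriv q s ≠ 0 := by
    by_contra h1
    push Not at h1
    obtain ⟨s, hs⟩ := h.nz
    have h2 := is_const_of_deriv_eq_zero (h.sm.differentiable (by simp)) h1 s 0
    have h3 : q 0 = 0 := by
      have := h.odd 0
      rw [neg_zero] at this
      linarith
    exact hs (h2.trans h3)
  refine Continuous.integral_pos_of_hasCompactSupport_nonneg_nonzero (x := s)
    ((sm_deriv h.sm).continuous.pow 2) (csq h.cs.deriv)
    (fun x => sq_nonneg (deriv q x)) (pow_ne_zero 2 hs)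

theorem Q1.dil {q : ℝ → ℝ} {R : ℝ} (h : Q1 q R) {l : ℝ} (hl : 0 < l) : Q1 (dil l q) (R / l) := by
  refine ⟨dil_smooth h.sm, fun s => ?_, fun s hs => ?_, ?_⟩
  · unfold T1.dil
    rw [mul_neg, h.odd]
    ring
  · unfold T1.dil
    rw [h.out, mul_zero]
    rw [abs_mul, abs_of_pos hl]
    rw [div_le_iff₀ hl] at hs
    linarith
  · obtain ⟨s, hs⟩ := h.nz
    refine ⟨s / l, ?_⟩
    unfold T1.dil
    rw [mul_div_cancel₀ _ hl.ne']
    exact mul_ne_zero (inv_ne_zero hl.ne') hs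

/-! ### the functions -/

noncomputable def kb : ContDiffBump (0 : ℝ) := ⟨1 / 10, 1 / 5, by norm_num, by norm_num⟩

noncomputable def k1 : ContDiffBump (0 : ℝ) := ⟨1 / 50, 1 / 40, by norm_num, by norm_num⟩

noncomputable def k2 : ContDiffBump (0 : ℝ) := ⟨1 / 40, 1 / 30, by norm_num, by norm_num⟩

noncomputable def ff (s : ℝ) : ℝ := s * kb s

noncomputable def pp (s : ℝ) : ℝ := s * (k2 s - k1 s)

theorem one_of (k : ContDiffBump (0 : ℝ)) {s : ℝ} (hs : |s| ≤ k.rIn) : k s = 1 :=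
  k.one_of_mem_closedBall (by rw [mem_closedBall_zero_iff]; exact hs)

theorem zero_of (k : ContDiffBump (0 : ℝ)) {s : ℝ} (hs : k.rOut ≤ |s|) : k s = 0 :=
  k.zero_of_le_dist (by rw [dist_zero_right]; exact hs)

theorem ff_in {s : ℝ} (hs : |s| ≤ 1 / 10) : ff s = s := by
  unfold ff
  rw [one_of kb hs, mul_one]

theorem ff_q : Q1 ff (1 / 5) := by
  refine ⟨contDiff_id.mul kb.contDiff, fun s => ?_, fun s hs => ?_, ⟨1 / 10, ?_⟩⟩
  · unfold ff
    rw [kb.neg]; ring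
  · unfold ff
    rw [zero_of kb hs, mul_zero]
  · rw [ff_in (by rw [abs_of_pos (by norm_num)])]
    norm_num

theorem ff_deriv {s : ℝ} (hs : |s| < 1 / 10) : deriv ff s = 1 := by
  have h1 : ff =ᶠ[𝓝 s] id := by
    have h2 : {x : ℝ | |x| < 1 / 10} ∈ 𝓝 s := (isOpen_lt continuous_abs continuous_const).mem_nhds hs
    filter_upwards [h2] with x hx
    exact ff_in (le_of_lt hx)
  rw [h1.deriv_eq, deriv_id]

theorem pp_in {s : ℝ} (hs : |s| ≤ 1 / 50) : pp s = 0 := by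
  unfold pp
  rw [one_of k1 hs, one_of k2 (hs.trans (by norm_num [k2])), sub_self, mul_zero]

theorem pp_q : Q1 pp (1 / 30) := by
  refine ⟨contDiff_id.mul (k2.contDiff.sub k1.contDiff), fun s => ?_, fun s hs => ?_, ⟨1 / 40, ?_⟩⟩
  · unfold pp
    rw [k1.neg, k2.neg]; ring
  · unfold pp
    rw [zero_of k2 hs, zero_of k1 (le_trans (by norm_num [k1]) hs), sub_self, mul_zero]
  · unfold pp
    have h : |(1 / 40 : ℝ)| = 1 / 40 := abs_of_pos (by norm_num)
    rw [one_of k2 (by rw [h]; norm_num [k2]), zero_of k1 (by rw [h]; norm_num [k1])]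
    norm_num

theorem pp_deriv {s : ℝ} (hs : |s| < 1 / 50) : deriv pp s = 0 := by
  have h1 : pp =ᶠ[𝓝 s] fun _ => 0 := by
    have h2 : {x : ℝ | |x| < 1 / 50} ∈ 𝓝 s := (isOpen_lt continuous_abs continuous_const).mem_nhds hs
    filter_upwards [h2] with x hx
    exact pp_in (le_of_lt hx)
  rw [h1.deriv_eq, deriv_const]

theorem nsq (y : E3) : ‖y‖ ^ 2 = y 0 ^ 2 + y 1 ^ 2 + y 2 ^ 2 := by
  rw [EuclideanSpace.norm_sq_eq, Fin.sum_univ_three]
  simp

theorem abs_le_norm (y : E3) (i : Fin 3) : |y i| ≤ ‖y‖ := PiLp.norm_apply_le y i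

theorem H_zero {a b c : ℝ → ℝ} {y : E3} (h : (a (y 0) = 0 ∧ deriv a (y 0) = 0) ∨
    (b (y 1) = 0 ∧ deriv b (y 1) = 0) ∨ c (y 2) = 0) : H a b c y = 0 := by
  unfold H
  ext i
  rcases h with ⟨h1, h2⟩ | ⟨h1, h2⟩ | h1
  · fin_cases i <;> simp [h1, h2]
  · fin_cases i <;> simp [h1, h2]
  · fin_cases i <;> simp [h1]

theorem H_out {a b c : ℝ → ℝ} {A B C R : ℝ} (ha : Q1 a A) (hb : Q1 b B)
    (hc : ∀ s, C < |s| → c s = 0) (hR : A ^ 2 + B ^ 2 + C ^ 2 < R ^ 2) (hR0 : 0 ≤ R)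
    {y : E3} (hy : R ≤ ‖y‖) :
    H a b c y = 0 := by
  apply H_zero
  by_contra h
  push Not at h
  obtain ⟨h1, h2, h3⟩ := h
  have a1 : |y 0| ≤ A := by
    by_contra h4
    push Not at h4
    exact h1 (ha.out _ h4.le) (ha.dout h4)
  have a2 : |y 1| ≤ B := by
    by_contra h4
    push Not at h4
    exact h2 (hb.out _ h4.le) (hb.dout h4)
  have a3 : |y 2| ≤ C := by
    by_contra h4
    push Not at h4
    exact h3 (hc _ h4)
  have b1 := pow_le_pow_left₀ (abs_nonneg (y 0)) a1 2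
  have b2 := pow_le_pow_left₀ (abs_nonneg (y 1)) a2 2
  have b3 := pow_le_pow_left₀ (abs_nonneg (y 2)) a3 2
  rw [sq_abs] at b1 b2 b3
  have h5 := pow_le_pow_left₀ hR0 hy 2
  rw [nsq] at h5
  linarith

noncomputable def gg : ℝ → ℝ := dil (1 / 2) ff

noncomputable def mm : ℝ → ℝ := dil 2 pp

theorem gg_q : Q1 gg (2 / 5) := by
  have h := ff_q.dil (l := 1 / 2) (by norm_num)
  rw [show (1 / 5 : ℝ) / (1 / 2) = 2 / 5 by norm_num] at h
  exact h

theorem mm_q : Q1 mm (1 / 60) := by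
  have h := pp_q.dil (l := 2) (by norm_num)
  rw [show (1 / 30 : ℝ) / 2 = 1 / 60 by norm_num] at h
  exact h

theorem t_PK : S_PK := by
  refine ⟨H ff gg kb, H pp mm mm, 1 / 10, 1 / 50, ?_⟩
  have kpos : 0 < ∫ s, kb s ^ 2 := by
    refine Continuous.integral_pos_of_hasCompactSupport_nonneg_nonzero (x := 0)
      (kb.continuous.pow 2) (csq kb.hasCompactSupport)
      (fun x => sq_nonneg (kb x)) (pow_ne_zero 2 ?_)
    rw [one_of kb (by rw [abs_zero]; exact kb.rIn_pos.le)]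
    norm_num
  constructor
  · exact H_smooth ff_q.sm gg_q.sm kb.contDiff
  · exact H_smooth pp_q.sm mm_q.sm mm_q.sm
  · exact H_div ff_q.sm gg_q.sm kb.contDiff
  · exact H_div pp_q.sm mm_q.sm mm_q.sm
  · intro y
    unfold H
    ext i
    fin_cases i <;> simp [ff_q.odd, gg_q.odd, ff_q.deven, gg_q.deven, kb.neg]
  · intro y
    unfold H
    ext i
    fin_cases i <;> simp [pp_q.odd, mm_q.odd, pp_q.deven, mm_q.deven]
  · norm_num
  · norm_num
  · norm_num
  · intro y hy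
    exact H_out (A := 1 / 5) (B := 2 / 5) (C := 1 / 5) (R := 1 / 2) ff_q gg_q
      (fun s hs => zero_of kb (le_of_lt hs)) (by norm_num) (by norm_num) hy
  · intro y hy
    have h0 := (abs_le_norm y 0).trans_lt hy
    have h1 := (abs_le_norm y 1).trans_lt hy
    have h2 := (abs_le_norm y 2).trans_lt hy
    have e1 : gg (y 1) = y 1 := by
      unfold gg dil
      rw [ff_in]
      · ring
      · rw [abs_mul, abs_of_pos (by norm_num : (0 : ℝ) < 1 / 2)]
        linarith [abs_nonneg (y 1)]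
    have e2 : deriv gg (y 1) = 1 := by
      unfold gg
      rw [dil_deriv (by norm_num) ff_q.sm, ff_deriv]
      rw [abs_mul, abs_of_pos (by norm_num : (0 : ℝ) < 1 / 2)]
      linarith [abs_nonneg (y 1)]
    unfold H Am
    rw [ff_in h0.le, ff_deriv h0, e1, e2, one_of kb h2.le]
    simp
  · intro y hy
    have h0 := (abs_le_norm y 0).trans_lt hy
    exact H_zero (Or.inl ⟨pp_in h0.le, pp_deriv h0⟩)
  · intro y hy
    exact H_out (A := 1 / 30) (B := 1 / 60) (C := 1 / 60) (R := 1 / 10 / 2) pp_q mm_q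
      (fun s hs => mm_q.out s hs.le) (by norm_num) (by norm_num) hy
  · rw [ip_H ff_q.sm gg_q.sm kb.contDiff ff_q.cs gg_q.cs kb.hasCompactSupport]
    unfold gg
    rw [dil_int (by norm_num), dil_int' (by norm_num) ff_q.sm]
    have h1 := ff_q.pos
    have h2 := ff_q.dpos
    have h3 := mul_pos (mul_pos h1 h2) kpos
    norm_num
    nlinarith
  · rw [ip_H pp_q.sm mm_q.sm mm_q.sm pp_q.cs mm_q.cs mm_q.cs]
    unfold mm
    rw [dil_int (by norm_num), dil_int' (by norm_num) pp_q.sm]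
    have h1 := pp_q.pos
    have h2 := pp_q.dpos
    have h3 := mul_pos (mul_pos h1 h2) h1
    norm_num
    nlinarith

end Pool.Agent.N976.SC.T1
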