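import Pool.Agent.N976.SC.Def

/-!
# The series of dilates
-/

open Set Filter Topology MeasureTheory
open scoped ContDiff

set_option autoImplicit false

namespace Pool.Agent.N976.SC

namespace T5a

/-- Smooth functions vanishing outside the ball of radius `1/2`. -/
structure Gd {F : Type} [NormedAddCommGroup F] [NormedSpace ℝ F] (G : E3 → F) : Prop where
  sm : ContDiff ℝ ∞ G
  out : ∀ y, 1 / 2 < ‖y‖ → G y = 0

section

variable {F : Type} [NormedAddCommGroup F] [NormedSpace ℝ F]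

theorem Gd.fd {G : E3 → F} (h : Gd G) : Gd (fderiv ℝ G) := by
  refine ⟨(contDiff_infty_iff_fderiv.1 h.sm).2, ?_⟩
  intro y hy
  have h1 : G =ᶠ[𝓝 y] fun _ => 0 := by
    have hopen : IsOpen {z : E3 | 1 / 2 < ‖z‖} := isOpen_lt continuous_const continuous_norm
    filter_upwards [hopen.mem_nhds hy] with z hz
    exact h.out z hz
  rw [h1.fderiv_eq]
  simp

theorem Gd.app {G : E3 → F} (h : Gd G) (v : E3) : Gd (fun y => fderiv ℝ G y v) := by
  refine ⟨h.fd.sm.clm_apply contDiff_const, fun y hy => ?_⟩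
  rw [h.fd.out y hy]
  simp

theorem Gd.bd {G : E3 → F} (h : Gd G) : ∃ C, 0 ≤ C ∧ ∀ y, ‖G y‖ ≤ C := by
  have hc : IsCompact (Metric.closedBall (0 : E3) (1 / 2)) := isCompact_closedBall _ _
  obtain ⟨C, hC⟩ := hc.exists_bound_of_continuousOn h.sm.continuous.continuousOn
  refine ⟨max C 0, le_max_right _ _, fun y => ?_⟩
  by_cases hy : ‖y‖ ≤ 1 / 2
  · exact (hC y (by simpa using hy)).trans (le_max_left _ _)
  · rw [h.out y (not_le.1 hy)]
    simp

/-- The series of dilates. -/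
noncomputable def S (s : ℝ) (G : E3 → F) (b : ℕ → ℝ) (y : E3) : F :=
  ∑' n, b n • G (s ^ (2 * n) • y)

theorem rap_mul {s : ℝ} (hs : 1 < s) {b : ℕ → ℝ} (hb : Rap s b) (j : ℕ) :
    Rap s (fun n => b n * s ^ (j * n)) := by
  intro k
  obtain ⟨M, hM⟩ := hb (k + j)
  refine ⟨M, fun n => ?_⟩
  have hs0 : 0 ≤ s := by linarith
  rw [abs_mul, abs_of_nonneg (pow_nonneg hs0 _)]
  calc s ^ (k * n) * (|b n| * s ^ (j * n)) = s ^ ((k + j) * n) * |b n| := by
        rw [add_mul, pow_add]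
        ring
    _ ≤ M := hM n

theorem abs_le_geom {s : ℝ} (hs : 1 < s) {b : ℕ → ℝ} {M : ℝ} (k : ℕ)
    (h : ∀ n, s ^ ((k + 1) * n) * |b n| ≤ M) (n : ℕ) : s ^ (k * n) * |b n| ≤ M * (s⁻¹) ^ n := by
  have hs0 : 0 < s := by linarith
  have h1 := h n
  have h2 : s ^ ((k + 1) * n) * |b n| = (s ^ (k * n) * |b n|) * s ^ n := by
    rw [add_mul, pow_add, one_mul]
    ring
  rw [h2] at h1
  rw [inv_pow, ← div_eq_mul_inv, le_div_iff₀ (pow_pos hs0 n)]
  exact h1

theorem geom_summable {s : ℝ} (hs : 1 < s) (M : ℝ) : Summable fun n : ℕ => M * (s⁻¹) ^ n := by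
  have hs0 : 0 < s := by linarith
  exact (summable_geometric_of_lt_one (inv_nonneg.2 hs0.le) (inv_lt_one_of_one_lt₀ hs)).mul_left _

theorem rap_summable {s : ℝ} (hs : 1 < s) {b : ℕ → ℝ} (hb : Rap s b) :
    Summable fun n => |b n| := by
  obtain ⟨M, hM⟩ := hb (0 + 1)
  refine Summable.of_nonneg_of_le (fun _ => abs_nonneg _) (fun n => ?_) (geom_summable hs M)
  simpa using abs_le_geom hs 0 hM n

theorem S_summable [CompleteSpace F] {s : ℝ} (hs : 1 < s) {G : E3 → F} (hG : Gd G) {b : ℕ → ℝ}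
    (hb : Rap s b) (y : E3) : Summable fun n => b n • G (s ^ (2 * n) • y) := by
  obtain ⟨C, hC0, hC⟩ := hG.bd
  refine Summable.of_norm_bounded ((rap_summable hs hb).mul_right C) (fun n => ?_)
  rw [norm_smul, Real.norm_eq_abs]
  exact mul_le_mul_of_nonneg_left (hC _) (abs_nonneg _)

theorem S_hasFDerivAt [CompleteSpace F] {s : ℝ} (hs : 1 < s) {G : E3 → F} (hG : Gd G)
    {b : ℕ → ℝ} (hb : Rap s b) (y : E3) :
    HasFDerivAt (S s G b) (S s (fderiv ℝ G) (fun n => b n * s ^ (2 * n)) y) y := by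
  obtain ⟨C, hC0, hC⟩ := hG.fd.bd
  refine hasFDerivAt_tsum (u := fun n => |b n * s ^ (2 * n)| * C)
    (f := fun n y => b n • G (s ^ (2 * n) • y))
    (f' := fun n y => (b n * s ^ (2 * n)) • fderiv ℝ G (s ^ (2 * n) • y)) (x₀ := 0)
    ((rap_summable hs (rap_mul hs hb 2)).mul_right C) ?_ ?_ (S_summable hs hG hb 0) y
  · intro n x
    have h1 : HasFDerivAt G (fderiv ℝ G (s ^ (2 * n) • x)) (s ^ (2 * n) • x) :=
      (hG.sm.differentiable (by simp)).differentiableAt.hasFDerivAt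
    have h2 : HasFDerivAt (fun z : E3 => s ^ (2 * n) • z)
        (s ^ (2 * n) • ContinuousLinearMap.id ℝ E3) x :=
      (s ^ (2 * n) • ContinuousLinearMap.id ℝ E3).hasFDerivAt
    have h3 := (h1.comp x h2).const_smul (b n)
    refine h3.congr_fderiv ?_
    ext v
    simp [mul_smul]
  · intro n x
    rw [norm_smul, Real.norm_eq_abs]
    exact mul_le_mul_of_nonneg_left (hC _) (abs_nonneg _)

end

theorem S_contDiff_nat {s : ℝ} (hs : 1 < s) (k : ℕ) :
    ∀ (F : Type) [NormedAddCommGroup F] [NormedSpace ℝ F] [CompleteSpace F] (G : E3 → F)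
      (b : ℕ → ℝ), Gd G → Rap s b → ContDiff ℝ k (S s G b) := by
  induction k with
  | zero =>
    intro F _ _ _ G b hG hb
    rw [Nat.cast_zero, contDiff_zero]
    exact continuous_iff_continuousAt.2 fun y => (S_hasFDerivAt hs hG hb y).continuousAt
  | succ k ih =>
    intro F _ _ _ G b hG hb
    rw [Nat.cast_add, Nat.cast_one, contDiff_succ_iff_fderiv]
    refine ⟨fun y => (S_hasFDerivAt hs hG hb y).differentiableAt, ?_, ?_⟩
    · intro h
      exfalso
      exact (by simp : ((k : ℕ) : WithTop ℕ∞) ≠ ω) h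
    · have : fderiv ℝ (S s G b) = S s (fderiv ℝ G) (fun n => b n * s ^ (2 * n)) := by
        funext y
        exact (S_hasFDerivAt hs hG hb y).fderiv
      rw [this]
      exact ih _ _ _ hG.fd (rap_mul hs hb 2)

theorem S_contDiff {F : Type} [NormedAddCommGroup F] [NormedSpace ℝ F] [CompleteSpace F] {s : ℝ}
    (hs : 1 < s) {G : E3 → F} {b : ℕ → ℝ} (hG : Gd G) (hb : Rap s b) :
    ContDiff ℝ ∞ (S s G b) :=
  contDiff_infty.2 fun k => S_contDiff_nat hs k F G b hG hb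

theorem S_norm_le {F : Type} [NormedAddCommGroup F] [NormedSpace ℝ F] {s : ℝ}
    (hs : 1 < s) {G : E3 → F} {C : ℝ} (hC : ∀ y, ‖G y‖ ≤ C) {a : ℕ → ℝ} {M : ℝ}
    (j : ℕ) (hj : j ≤ 7) (hM : ∀ n, s ^ (8 * n) * |a n| ≤ M) (y : E3) :
    ‖S s G (fun n => a n * s ^ (j * n)) y‖ ≤ C * (1 - s⁻¹)⁻¹ * M := by
  have hs0 : 0 < s := by linarith
  have hgeo := hasSum_geometric_of_lt_one (inv_nonneg.2 hs0.le) (inv_lt_one_of_one_lt₀ hs)
  have h1 : HasSum (fun n : ℕ => M * (s⁻¹) ^ n * C) (M * (1 - s⁻¹)⁻¹ * C) :=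
    (hgeo.mul_left M).mul_right C
  have h2 : ‖S s G (fun n => a n * s ^ (j * n)) y‖ ≤ M * (1 - s⁻¹)⁻¹ * C := by
    refine tsum_of_norm_bounded h1 (fun n => ?_)
    rw [norm_smul, Real.norm_eq_abs]
    refine mul_le_mul ?_ (hC _) (norm_nonneg _) ?_
    · rw [abs_mul, abs_of_nonneg (pow_nonneg hs0.le _), mul_comm]
      refine le_trans ?_ (abs_le_geom hs 7 hM n)
      exact mul_le_mul_of_nonneg_right
        (pow_le_pow_right₀ hs.le (Nat.mul_le_mul_right n hj)) (abs_nonneg _)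
    · have hM0 : 0 ≤ M := le_trans (by positivity) (hM 0)
      positivity
  calc _ ≤ M * (1 - s⁻¹)⁻¹ * C := h2
    _ = _ := by ring

theorem S_out {F : Type} [NormedAddCommGroup F] [NormedSpace ℝ F] {s : ℝ}
    (hs : 1 < s) {G : E3 → F} (hG : Gd G) {b : ℕ → ℝ} {y : E3} (hy : 1 / 2 < ‖y‖) :
    S s G b y = 0 := by
  have hs0 : 0 < s := by linarith
  have : ∀ n : ℕ, b n • G (s ^ (2 * n) • y) = 0 := by
    intro n
    rw [hG.out, smul_zero]
    rw [norm_smul, Real.norm_eq_abs, abs_of_nonneg (pow_nonneg hs0.le _)]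
    have h1 : 1 ≤ s ^ (2 * n) := one_le_pow₀ hs.le
    nlinarith [norm_nonneg y]
  unfold S
  simp [this]

theorem S_dec {F : Type} [NormedAddCommGroup F] [NormedSpace ℝ F] {s : ℝ}
    (hs : 1 < s) {G : E3 → F} (hG : Gd G) {C : ℝ} (hC0 : 0 ≤ C) (hC : ∀ y, ‖G y‖ ≤ C)
    {a : ℕ → ℝ} {M : ℝ}
    (j : ℕ) (hj : j ≤ 7) (hM : ∀ n, s ^ (8 * n) * |a n| ≤ M) (y : E3) :
    (1 + ‖y‖) ^ 2 * ‖S s G (fun n => a n * s ^ (j * n)) y‖ ≤
      9 / 4 * (C * (1 - s⁻¹)⁻¹) * M := by
  have hs0 : 0 < s := by linarith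
  have hM0 : 0 ≤ M := le_trans (by positivity) (hM 0)
  have h1 : 0 ≤ (1 - s⁻¹)⁻¹ := by
    have := inv_lt_one_of_one_lt₀ hs
    exact inv_nonneg.2 (by linarith)
  by_cases hy : ‖y‖ ≤ 1 / 2
  · have h2 := S_norm_le hs hC j hj hM y
    have h3 : (1 + ‖y‖) ^ 2 ≤ 9 / 4 := by nlinarith [norm_nonneg y]
    calc _ ≤ 9 / 4 * (C * (1 - s⁻¹)⁻¹ * M) :=
          mul_le_mul h3 h2 (norm_nonneg _) (by norm_num)
      _ = _ := by ring
  · rw [S_out hs hG (not_le.1 hy), norm_zero, mul_zero]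
    positivity

theorem ser_eq (s : ℝ) (P : E3 → E3) (a : ℕ → ℝ) : ser s P a = S s P (fun n => a n * s ^ (3 * n)) := by
  funext y
  unfold ser S pk
  simp [mul_smul]

theorem fderiv_pk {s : ℝ} {P : E3 → E3} (hP : ContDiff ℝ ∞ P) (n : ℕ) (y : E3) :
    fderiv ℝ (pk s P n) y = (s ^ (3 * n) * s ^ (2 * n)) • fderiv ℝ P (s ^ (2 * n) • y) := by
  have h1 : HasFDerivAt P (fderiv ℝ P (s ^ (2 * n) • y)) (s ^ (2 * n) • y) :=
    (hP.differentiable (by simp)).differentiableAt.hasFDerivAt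
  have h2 : HasFDerivAt (fun z : E3 => s ^ (2 * n) • z)
      (s ^ (2 * n) • ContinuousLinearMap.id ℝ E3) y :=
    (s ^ (2 * n) • ContinuousLinearMap.id ℝ E3).hasFDerivAt
  have h3 := (h1.comp y h2).const_smul (s ^ (3 * n))
  have h4 : HasFDerivAt (pk s P n) _ y := h3
  rw [h4.fderiv]
  ext v
  simp [mul_smul]

theorem fderiv2_pk {s : ℝ} {P : E3 → E3} (hP : ContDiff ℝ ∞ P) (n : ℕ) (y v w : E3) :
    fderiv ℝ (fun z => fderiv ℝ (pk s P n) z v) y w =
      (s ^ (3 * n) * s ^ (2 * n) * s ^ (2 * n)) •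
        fderiv ℝ (fun z => fderiv ℝ P z v) (s ^ (2 * n) • y) w := by
  have hQ : ContDiff ℝ ∞ (fun z => fderiv ℝ P z v) :=
    (contDiff_infty_iff_fderiv.1 hP).2.clm_apply contDiff_const
  have h0 : (fun z => fderiv ℝ (pk s P n) z v) =
      fun z => (s ^ (3 * n) * s ^ (2 * n)) • (fun z => fderiv ℝ P z v) (s ^ (2 * n) • z) := by
    funext z
    rw [fderiv_pk hP]
    simp
  have h1 : HasFDerivAt (fun z => fderiv ℝ P z v)
      (fderiv ℝ (fun z => fderiv ℝ P z v) (s ^ (2 * n) • y)) (s ^ (2 * n) • y) :=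
    (hQ.differentiable (by simp)).differentiableAt.hasFDerivAt
  have h2 : HasFDerivAt (fun z : E3 => s ^ (2 * n) • z)
      (s ^ (2 * n) • ContinuousLinearMap.id ℝ E3) y :=
    (s ^ (2 * n) • ContinuousLinearMap.id ℝ E3).hasFDerivAt
  have h3 := (h1.comp y h2).const_smul (s ^ (3 * n) * s ^ (2 * n))
  rw [h0]
  have h4 : HasFDerivAt (fun z => (s ^ (3 * n) * s ^ (2 * n)) •
    (fun z => fderiv ℝ P z v) (s ^ (2 * n) • z)) _ y := h3
  rw [h4.fderiv]
  simp [mul_smul]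

end T5a

open T5a in
theorem t_SER1 : S_SER1 := by
  intro s P hs hP hout
  have hG : Gd P := ⟨hP, fun y hy => hout y hy.le⟩
  have hs0 : 0 < s := by linarith
  have hfd : ∀ a, Rap s a → ∀ y, fderiv ℝ (ser s P a) y =
      S s (fderiv ℝ P) (fun n => a n * s ^ (5 * n)) y := by
    intro a ha y
    rw [ser_eq, (S_hasFDerivAt hs hG (rap_mul hs ha 3) y).fderiv]
    congr 1
    funext n
    rw [mul_assoc, ← pow_add]
    ring_nf
  have hfdv : ∀ a, Rap s a → ∀ v, (fun z => fderiv ℝ (ser s P a) z v) =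
      S s (fun z => fderiv ℝ P z v) (fun n => a n * s ^ (5 * n)) := by
    intro a ha v
    funext z
    rw [hfd a ha z]
    have h1 := S_summable hs hG.fd (rap_mul hs ha 5) z
    have h2 := (ContinuousLinearMap.apply ℝ E3 v).map_tsum h1
    unfold S
    simpa using h2
  have hfd2 : ∀ a, Rap s a → ∀ v y, fderiv ℝ (fun z => fderiv ℝ (ser s P a) z v) y =
      S s (fderiv ℝ (fun z => fderiv ℝ P z v)) (fun n => a n * s ^ (7 * n)) y := by
    intro a ha v y
    rw [hfdv a ha v, (S_hasFDerivAt hs (hG.app v) (rap_mul hs ha 5) y).fderiv]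
    congr 1
    funext n
    rw [mul_assoc, ← pow_add]
    ring_nf
  refine ⟨fun a ha => ⟨?_, ?_, ?_, ?_, ?_⟩, ?_⟩
  · rw [ser_eq]
    exact S_contDiff hs hG (rap_mul hs ha 3)
  · intro y
    have h1 := (S_summable hs hG (rap_mul hs ha 3) y).hasSum
    have h2 : ser s P a y = ∑' n, (a n * s ^ (3 * n)) • P (s ^ (2 * n) • y) := by
      rw [ser_eq]
      rfl
    rw [h2]
    have h3 : (fun n => a n • pk s P n y) =
        fun n => (a n * s ^ (3 * n)) • P (s ^ (2 * n) • y) := by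
      funext n
      unfold pk
      rw [mul_smul]
    rw [h3]
    exact h1
  · intro y
    rw [hfd a ha y]
    have h1 := (S_summable hs hG.fd (rap_mul hs ha 5) y).hasSum
    have h3 : (fun n => a n • fderiv ℝ (pk s P n) y) =
        fun n => (a n * s ^ (5 * n)) • fderiv ℝ P (s ^ (2 * n) • y) := by
      funext n
      rw [fderiv_pk hP, ← pow_add, smul_smul]
      congr 3
      ring
    rw [h3]
    exact h1
  · intro y
    unfold lap
    have h0 : ∀ i : Fin 3, HasSum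
        (fun n => a n • fderiv ℝ (fun z => fderiv ℝ (pk s P n) z (bv i)) y (bv i))
        (fderiv ℝ (fun z => fderiv ℝ (ser s P a) z (bv i)) y (bv i)) := by
      intro i
      rw [hfd2 a ha (bv i) y]
      have h1 := (S_summable hs (hG.app (bv i)).fd (rap_mul hs ha 7) y).hasSum
      have h2 := (ContinuousLinearMap.apply ℝ E3 (bv i)).hasSum h1
      have h3 : (fun n => a n • fderiv ℝ (fun z => fderiv ℝ (pk s P n) z (bv i)) y (bv i)) =
          fun n => (ContinuousLinearMap.apply ℝ E3 (bv i)) ((a n * s ^ (7 * n)) •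
            fderiv ℝ (fun z => fderiv ℝ P z (bv i)) (s ^ (2 * n) • y)) := by
        funext n
        rw [fderiv2_pk hP, ← pow_add, ← pow_add, smul_smul]
        simp only [ContinuousLinearMap.apply_apply, smul_apply]
        congr 3
        ring
      rw [h3]
      exact h2
    have h1 := hasSum_sum (s := (Finset.univ : Finset (Fin 3))) fun i _ => h0 i
    simpa [Finset.smul_sum] using h1
  · intro y hy
    have h0 : ∀ n, a n • pk s P n y = 0 := by
      intro n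
      unfold pk
      rw [hout, smul_zero, smul_zero]
      rw [norm_smul, Real.norm_eq_abs, abs_of_nonneg (pow_nonneg hs0.le _)]
      have h1 : 1 ≤ s ^ (2 * n) := one_le_pow₀ hs.le
      nlinarith [norm_nonneg y]
    unfold ser
    simp [h0]
  · obtain ⟨C0, hC00, hC0⟩ := hG.bd
    obtain ⟨C1, hC10, hC1⟩ := hG.fd.bd
    have hch : ∀ i : Fin 3, ∃ C, 0 ≤ C ∧ ∀ y, ‖fderiv ℝ (fun z => fderiv ℝ P z (bv i)) y‖ ≤ C :=
      fun i => (hG.app (bv i)).fd.bd
    choose C2 hC20 hC2 using hch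
    set K : ℝ := C0 + C1 + ∑ i, C2 i with hK
    have hsum0 : 0 ≤ ∑ i, C2 i := Finset.sum_nonneg fun i _ => hC20 i
    have hK0 : C0 ≤ K := by rw [hK]; linarith
    have hK1 : C1 ≤ K := by rw [hK]; linarith
    have hK2 : ∀ i, C2 i ≤ K := fun i => by
      have := Finset.single_le_sum (f := C2) (fun j _ => hC20 j) (Finset.mem_univ i)
      rw [hK]
      linarith
    have hKn : 0 ≤ K := hC00.trans hK0
    refine ⟨8, 9 / 4 * (K * (1 - s⁻¹)⁻¹), fun a M ha hM => ⟨?_, ?_, ?_⟩⟩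
    · intro y
      rw [ser_eq]
      exact S_dec hs hG hKn (fun y => (hC0 y).trans hK0) 3 (by norm_num) hM y
    · intro y
      rw [hfd a ha y]
      exact S_dec hs hG.fd hKn (fun y => (hC1 y).trans hK1) 5 (by norm_num) hM y
    · intro y i j
      rw [hfd2 a ha (bv i) y]
      have h1 := S_dec hs (hG.app (bv i)).fd hKn (fun y => (hC2 i y).trans (hK2 i)) 7
        (by norm_num) hM y
      refine le_trans (mul_le_mul_of_nonneg_left ?_ (by positivity)) h1
      have h2 := (S s (fderiv ℝ fun z => fderiv ℝ P z (bv i)) (fun n => a n * s ^ (7 * n)) y).le_opNorm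
        (bv j)
      have h3 : ‖bv j‖ = 1 := by simp [bv]
      rwa [h3, mul_one] at h2

end Pool.Agent.N976.SC
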