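import Pool.Agent.N976.SC.Def

/-!
# Uniqueness and the energy identity by the energy method
-/

open Set Filter Topology MeasureTheory
open scoped ContDiff

set_option autoImplicit false

namespace Pool.Agent.N976.SC

namespace T3

/-! ### Integrability -/

theorem wt_int : Integrable (fun y : E3 => (1 + ‖y‖) ^ (-4 : ℝ)) := by
  apply integrable_one_add_norm
  simp
  norm_num

theorem int4 {f : E3 → ℝ} (hf : Continuous f) {C : ℝ}
    (h : ∀ y, (1 + ‖y‖) ^ 2 * ((1 + ‖y‖) ^ 2 * |f y|) ≤ C) : Integrable f := by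
  refine Integrable.mono' (wt_int.const_mul C) hf.aestronglyMeasurable (ae_of_all _ fun y => ?_)
  have h1 : (0 : ℝ) < 1 + ‖y‖ := by positivity
  have h2 : (1 + ‖y‖) ^ (-4 : ℝ) = ((1 + ‖y‖) ^ 4)⁻¹ := by
    rw [Real.rpow_neg h1.le]
    congr 1
    exact_mod_cast Real.rpow_natCast (1 + ‖y‖) 4
  rw [h2, Real.norm_eq_abs, ← div_eq_mul_inv, le_div_iff₀ (by positivity)]
  calc |f y| * (1 + ‖y‖) ^ 4 = (1 + ‖y‖) ^ 2 * ((1 + ‖y‖) ^ 2 * |f y|) := by ring
    _ ≤ C := h y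

/-- `|v| ≤ M (1 + |y|)⁻²` -/
def B2 (M : ℝ) (v : E3 → E3) : Prop := ∀ y, (1 + ‖y‖) ^ 2 * ‖v y‖ ≤ M

theorem B2.nonneg {M : ℝ} {v : E3 → E3} (h : B2 M v) : 0 ≤ M :=
  le_trans (by positivity) (h 0)

theorem B2.le {M : ℝ} {v : E3 → E3} (h : B2 M v) (y : E3) : ‖v y‖ ≤ M := by
  refine le_trans ?_ (h y)
  have h1 : (1 : ℝ) ≤ (1 + ‖y‖) ^ 2 := one_le_pow₀ (by linarith [norm_nonneg y])
  nlinarith [norm_nonneg (v y)]

theorem B2.mono {M N : ℝ} {v : E3 → E3} (h : B2 M v) (h' : M ≤ N) : B2 N v :=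
  fun y => (h y).trans h'

theorem B2.add {M N : ℝ} {v w : E3 → E3} (h : B2 M v) (h' : B2 N w) :
    B2 (M + N) (fun y => v y + w y) := fun y => by
  have h1 : (0 : ℝ) ≤ (1 + ‖y‖) ^ 2 := by positivity
  calc (1 + ‖y‖) ^ 2 * ‖v y + w y‖ ≤ (1 + ‖y‖) ^ 2 * (‖v y‖ + ‖w y‖) :=
        mul_le_mul_of_nonneg_left (norm_add_le _ _) h1
    _ = (1 + ‖y‖) ^ 2 * ‖v y‖ + (1 + ‖y‖) ^ 2 * ‖w y‖ := by ring
    _ ≤ M + N := add_le_add (h y) (h' y)

theorem B2.sub {M N : ℝ} {v w : E3 → E3} (h : B2 M v) (h' : B2 N w) :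
    B2 (M + N) (fun y => v y - w y) := fun y => by
  have h1 : (0 : ℝ) ≤ (1 + ‖y‖) ^ 2 := by positivity
  calc (1 + ‖y‖) ^ 2 * ‖v y - w y‖ ≤ (1 + ‖y‖) ^ 2 * (‖v y‖ + ‖w y‖) :=
        mul_le_mul_of_nonneg_left (norm_sub_le _ _) h1
    _ = (1 + ‖y‖) ^ 2 * ‖v y‖ + (1 + ‖y‖) ^ 2 * ‖w y‖ := by ring
    _ ≤ M + N := add_le_add (h y) (h' y)

theorem B2.smul {M : ℝ} {v : E3 → E3} (h : B2 M v) (c : ℝ) :
    B2 (|c| * M) (fun y => c • v y) := fun y => by
  rw [norm_smul, Real.norm_eq_abs]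
  calc (1 + ‖y‖) ^ 2 * (|c| * ‖v y‖) = |c| * ((1 + ‖y‖) ^ 2 * ‖v y‖) := by ring
    _ ≤ |c| * M := mul_le_mul_of_nonneg_left (h y) (abs_nonneg c)

theorem int_inner {M N : ℝ} {v w : E3 → E3} (hv : Continuous v) (hw : Continuous w) (h : B2 M v)
    (h' : B2 N w) : Integrable (fun y => inner ℝ (v y) (w y)) := by
  refine int4 (hv.inner hw) (C := M * N) fun y => ?_
  have h1 : (0 : ℝ) ≤ (1 + ‖y‖) ^ 2 := by positivity
  calc (1 + ‖y‖) ^ 2 * ((1 + ‖y‖) ^ 2 * |inner ℝ (v y) (w y)|)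
      ≤ (1 + ‖y‖) ^ 2 * ((1 + ‖y‖) ^ 2 * (‖v y‖ * ‖w y‖)) := by
        gcongr
        exact abs_real_inner_le_norm _ _
    _ = ((1 + ‖y‖) ^ 2 * ‖v y‖) * ((1 + ‖y‖) ^ 2 * ‖w y‖) := by ring
    _ ≤ M * N := mul_le_mul (h y) (h' y) (by positivity) h.nonneg

/-! ### Spatial operators -/

theorem cont_fderiv {v : E3 → E3} (hv : ContDiff ℝ ∞ v) : Continuous (fderiv ℝ v) :=
  hv.continuous_fderiv (by simp)

theorem smooth_dir {v : E3 → E3} (hv : ContDiff ℝ ∞ v) (i : Fin 3) :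
    ContDiff ℝ ∞ (fun z => fderiv ℝ v z (bv i)) :=
  (hv.fderiv_right (m := ∞) (by simp)).clm_apply contDiff_const

theorem cont_adv {a b : E3 → E3} (ha : ContDiff ℝ ∞ a) (hb : ContDiff ℝ ∞ b) :
    Continuous (adv a b) := (cont_fderiv hb).clm_apply ha.continuous

theorem cont_lap {v : E3 → E3} (hv : ContDiff ℝ ∞ v) : Continuous (lap v) := by
  unfold lap
  refine continuous_finsetSum _ fun i _ => ?_
  exact (cont_fderiv (smooth_dir hv i)).clm_apply continuous_const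

theorem B2_adv {M N : ℝ} {a b : E3 → E3} (ha : B2 M a) (hb : ∀ y, ‖fderiv ℝ b y‖ ≤ N) :
    B2 (N * M) (adv a b) := fun y => by
  have h1 : (0 : ℝ) ≤ (1 + ‖y‖) ^ 2 := by positivity
  calc (1 + ‖y‖) ^ 2 * ‖adv a b y‖ ≤ (1 + ‖y‖) ^ 2 * (‖fderiv ℝ b y‖ * ‖a y‖) :=
        mul_le_mul_of_nonneg_left ((fderiv ℝ b y).le_opNorm _) h1
    _ = ‖fderiv ℝ b y‖ * ((1 + ‖y‖) ^ 2 * ‖a y‖) := by ring
    _ ≤ N * M := mul_le_mul (hb y) (ha y) (by positivity) (le_trans (norm_nonneg _) (hb y))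

theorem B2_lap {M : ℝ} {v : E3 → E3} (h : Dec M v) : B2 (3 * M) (lap v) := fun y => by
  have h1 : (0 : ℝ) ≤ (1 + ‖y‖) ^ 2 := by positivity
  unfold lap
  calc (1 + ‖y‖) ^ 2 * ‖∑ i : Fin 3, fderiv ℝ (fun z => fderiv ℝ v z (bv i)) y (bv i)‖
      ≤ (1 + ‖y‖) ^ 2 * ∑ i : Fin 3, ‖fderiv ℝ (fun z => fderiv ℝ v z (bv i)) y (bv i)‖ :=
        mul_le_mul_of_nonneg_left (norm_sum_le _ _) h1
    _ = ∑ i : Fin 3, (1 + ‖y‖) ^ 2 * ‖fderiv ℝ (fun z => fderiv ℝ v z (bv i)) y (bv i)‖ :=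
        Finset.mul_sum _ _ _
    _ ≤ ∑ _i : Fin 3, M := Finset.sum_le_sum fun i _ => h.d2 y i i
    _ = 3 * M := by simp

theorem Dec.B2 {M : ℝ} {v : E3 → E3} (h : Dec M v) : B2 M v := h.d0

theorem Dec.nonneg {M : ℝ} {v : E3 → E3} (h : Dec M v) : 0 ≤ M := (Dec.B2 h).nonneg

theorem Dec.f1 {M : ℝ} {v : E3 → E3} (h : Dec M v) (y : E3) : ‖fderiv ℝ v y‖ ≤ M := by
  refine le_trans ?_ (h.d1 y)
  have h1 : (1 : ℝ) ≤ (1 + ‖y‖) ^ 2 := one_le_pow₀ (by linarith [norm_nonneg y])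
  nlinarith [norm_nonneg (fderiv ℝ v y)]

theorem norm_bv (i : Fin 3) : ‖bv i‖ = 1 := by simp [bv]

theorem sum_bv (a : E3) : ∑ i : Fin 3, (a i) • bv i = a := by
  ext j
  simp [bv, Finset.sum_apply, Pi.single_apply]

theorem B2_dir {M : ℝ} {v : E3 → E3} (h : Dec M v) (i : Fin 3) :
    B2 M (fun y => fderiv ℝ v y (bv i)) := fun y => by
  have h1 : (0 : ℝ) ≤ (1 + ‖y‖) ^ 2 := by positivity
  refine le_trans (mul_le_mul_of_nonneg_left ?_ h1) (h.d1 y)
  calc ‖fderiv ℝ v y (bv i)‖ ≤ ‖fderiv ℝ v y‖ * ‖bv i‖ := (fderiv ℝ v y).le_opNorm _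
    _ = ‖fderiv ℝ v y‖ := by rw [norm_bv, mul_one]

/-- `∫ Δb · b = - ∫ |∇b|²` -/
theorem lap_dir {M : ℝ} {b : E3 → E3} (hb : ContDiff ℝ ∞ b) (h : Dec M b) :
    ip (lap b) b = -dir b := by
  have hd : ∀ i, ContDiff ℝ ∞ (fun z => fderiv ℝ b z (bv i)) := smooth_dir hb
  have hB2 : ∀ i, B2 M (fun y => fderiv ℝ (fun z => fderiv ℝ b z (bv i)) y (bv i)) :=
    fun i y => h.d2 y i i
  have hc2 : ∀ i, Continuous (fun y => fderiv ℝ (fun z => fderiv ℝ b z (bv i)) y (bv i)) :=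
    fun i => (cont_fderiv (hd i)).clm_apply continuous_const
  have key : ∀ i : Fin 3, ∫ y, inner ℝ (fderiv ℝ (fun z => fderiv ℝ b z (bv i)) y (bv i)) (b y) =
      -∫ y, ‖fderiv ℝ b y (bv i)‖ ^ 2 := by
    intro i
    have h1 := integral_bilinear_hasFDerivAt_right_eq_neg_left_of_integrable (μ := volume)
      (f := b) (f' := fun y => fderiv ℝ b y) (g := fun z => fderiv ℝ b z (bv i))
      (g' := fun y => fderiv ℝ (fun z => fderiv ℝ b z (bv i)) y) (v := bv i) (B := innerSL ℝ)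
      (int_inner ((hd i).continuous) ((hd i).continuous) (B2_dir h i) (B2_dir h i))
      (int_inner hb.continuous (hc2 i) (Dec.B2 h) (hB2 i))
      (int_inner hb.continuous ((hd i).continuous) (Dec.B2 h) (B2_dir h i))
      (fun y _ => (hb.differentiable (by simp) y).hasFDerivAt)
      (fun y _ => ((hd i).differentiable (by simp) y).hasFDerivAt)
    calc ∫ y, inner ℝ (fderiv ℝ (fun z => fderiv ℝ b z (bv i)) y (bv i)) (b y)
        = ∫ y, inner ℝ (b y) (fderiv ℝ (fun z => fderiv ℝ b z (bv i)) y (bv i)) := by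
          refine integral_congr_ae (ae_of_all _ fun y => ?_)
          exact real_inner_comm _ _
      _ = -∫ y, inner ℝ (fderiv ℝ b y (bv i)) (fderiv ℝ b y (bv i)) := h1
      _ = -∫ y, ‖fderiv ℝ b y (bv i)‖ ^ 2 := by
          congr 1
          refine integral_congr_ae (ae_of_all _ fun y => ?_)
          exact real_inner_self_eq_norm_sq _
  unfold ip dir lap
  simp only [sum_inner]
  rw [integral_finsetSum, integral_finsetSum]
  · rw [← Finset.sum_neg_distrib]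
    exact Finset.sum_congr rfl fun i _ => key i
  · intro i _
    have := int_inner ((hd i).continuous) ((hd i).continuous) (B2_dir h i) (B2_dir h i)
    refine this.congr (ae_of_all _ fun y => ?_)
    exact real_inner_self_eq_norm_sq _
  · intro i _
    exact int_inner (hc2 i) hb.continuous (hB2 i) (Dec.B2 h)

/-- `∫ ((a · ∇) b) · b = 0` for `div a = 0` -/
theorem adv_orth {M N : ℝ} {a b : E3 → E3} (ha : ContDiff ℝ ∞ a) (hb : ContDiff ℝ ∞ b)
    (hdiv : ∀ y, divg a y = 0) (hA : Dec M a) (hB : Dec N b) : ip (adv a b) b = 0 := by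
  have hg : ∀ y, HasFDerivAt (fun z => ‖b z‖ ^ 2) (2 • (innerSL ℝ (b y)).comp (fderiv ℝ b y)) y :=
    fun y => (hb.differentiable (by simp) y).hasFDerivAt.norm_sq
  have hgf : ∀ y v, fderiv ℝ (fun z => ‖b z‖ ^ 2) y v = 2 * inner ℝ (b y) (fderiv ℝ b y v) := by
    intro y v
    rw [(hg y).fderiv]
    simp
  have hfi : ∀ (i : Fin 3) y, HasFDerivAt (fun z => a z i)
      ((EuclideanSpace.proj i : E3 →L[ℝ] ℝ).comp (fderiv ℝ a y)) y := fun i y =>
    (EuclideanSpace.proj i : E3 →L[ℝ] ℝ).hasFDerivAt.comp y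
      (ha.differentiable (by simp) y).hasFDerivAt
  have hff : ∀ (i : Fin 3) y v, fderiv ℝ (fun z => a z i) y v = (fderiv ℝ a y v) i := by
    intro i y v
    rw [(hfi i y).fderiv]
    rfl
  have hai : ∀ i : Fin 3, Continuous fun y => a y i := fun i =>
    (EuclideanSpace.proj i : E3 →L[ℝ] ℝ).continuous.comp ha.continuous
  have hale : ∀ (i : Fin 3) y, |a y i| ≤ ‖a y‖ := fun i y => by
    rw [← Real.norm_eq_abs]; exact PiLp.norm_apply_le (a y) i
  have hdle : ∀ (i : Fin 3) y, |(fderiv ℝ a y (bv i)) i| ≤ ‖fderiv ℝ a y‖ := fun i y => by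
    rw [← Real.norm_eq_abs]
    refine (PiLp.norm_apply_le (fderiv ℝ a y (bv i)) i).trans ?_
    calc ‖fderiv ℝ a y (bv i)‖ ≤ ‖fderiv ℝ a y‖ * ‖bv i‖ := (fderiv ℝ a y).le_opNorm _
      _ = ‖fderiv ℝ a y‖ := by rw [norm_bv, mul_one]
  have hM := Dec.nonneg hA
  have hN := Dec.nonneg hB
  -- integrability
  have I1 : ∀ i : Fin 3, Integrable
      (fun y => (fderiv ℝ (fun z => a z i) y (bv i)) * ‖b y‖ ^ 2) := by
    intro i
    simp only [hff]
    refine int4 (C := M * (N * N)) ?_ fun y => ?_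
    · refine Continuous.mul ?_ ((hb.continuous.norm).pow 2)
      exact (EuclideanSpace.proj i : E3 →L[ℝ] ℝ).continuous.comp
        ((cont_fderiv ha).clm_apply continuous_const)
    · rw [abs_mul, abs_of_nonneg (by positivity : (0 : ℝ) ≤ ‖b y‖ ^ 2)]
      calc (1 + ‖y‖) ^ 2 * ((1 + ‖y‖) ^ 2 * (|(fderiv ℝ a y (bv i)) i| * ‖b y‖ ^ 2))
          = |(fderiv ℝ a y (bv i)) i| * (((1 + ‖y‖) ^ 2 * ‖b y‖) * ((1 + ‖y‖) ^ 2 * ‖b y‖)) := by
            ring
        _ ≤ M * (N * N) := by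
            refine mul_le_mul ((hdle i y).trans (Dec.f1 hA y)) ?_ (by positivity) hM
            exact mul_le_mul (hB.d0 y) (hB.d0 y) (by positivity) hN
  have I2 : ∀ i : Fin 3, Integrable
      (fun y => a y i * (fderiv ℝ (fun z => ‖b z‖ ^ 2) y (bv i))) := by
    intro i
    simp only [hgf]
    refine int4 (C := M * (2 * (N * N))) ?_ fun y => ?_
    · refine (hai i).mul (continuous_const.mul ?_)
      exact hb.continuous.inner ((cont_fderiv hb).clm_apply continuous_const)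
    · have h1 : |inner ℝ (b y) (fderiv ℝ b y (bv i))| ≤ N * ‖fderiv ℝ b y (bv i)‖ :=
        (abs_real_inner_le_norm _ _).trans
          (mul_le_mul_of_nonneg_right ((Dec.B2 hB).le y) (norm_nonneg _))
      have h2 := B2_dir hB i y
      calc (1 + ‖y‖) ^ 2 * ((1 + ‖y‖) ^ 2 * |a y i * (2 * inner ℝ (b y) (fderiv ℝ b y (bv i)))|)
          = ((1 + ‖y‖) ^ 2 * |a y i|) * (2 * ((1 + ‖y‖) ^ 2 *
              |inner ℝ (b y) (fderiv ℝ b y (bv i))|)) := by
            rw [abs_mul, abs_mul, abs_of_pos (by norm_num : (0 : ℝ) < 2)]; ring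
        _ ≤ ((1 + ‖y‖) ^ 2 * ‖a y‖) * (2 * ((1 + ‖y‖) ^ 2 *
              (N * ‖fderiv ℝ b y (bv i)‖))) := by
            gcongr
            exact hale i y
        _ = ((1 + ‖y‖) ^ 2 * ‖a y‖) * (2 * (N * ((1 + ‖y‖) ^ 2 * ‖fderiv ℝ b y (bv i)‖))) := by
            ring
        _ ≤ M * (2 * (N * N)) := by
            refine mul_le_mul (hA.d0 y) ?_ (by positivity) hM
            refine mul_le_mul_of_nonneg_left ?_ (by norm_num)
            exact mul_le_mul_of_nonneg_left h2 hN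
  have I3 : ∀ i : Fin 3, Integrable (fun y => a y i * ‖b y‖ ^ 2) := by
    intro i
    refine int4 (C := M * (N * N)) ((hai i).mul ((hb.continuous.norm).pow 2)) fun y => ?_
    rw [abs_mul, abs_of_nonneg (by positivity : (0 : ℝ) ≤ ‖b y‖ ^ 2)]
    calc (1 + ‖y‖) ^ 2 * ((1 + ‖y‖) ^ 2 * (|a y i| * ‖b y‖ ^ 2))
        = |a y i| * (((1 + ‖y‖) ^ 2 * ‖b y‖) * ((1 + ‖y‖) ^ 2 * ‖b y‖)) := by ring
      _ ≤ M * (N * N) := by
          refine mul_le_mul ((hale i y).trans ((Dec.B2 hA).le y)) ?_ (by positivity) hM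
          exact mul_le_mul (hB.d0 y) (hB.d0 y) (by positivity) hN
  have key : ∀ i : Fin 3, ∫ y, a y i * (fderiv ℝ (fun z => ‖b z‖ ^ 2) y (bv i)) =
      -∫ y, (fderiv ℝ (fun z => a z i) y (bv i)) * ‖b y‖ ^ 2 := fun i =>
    integral_mul_fderiv_eq_neg_fderiv_mul_of_integrable (I1 i) (I2 i) (I3 i)
      (fun y _ => (hfi i y).differentiableAt) (fun y _ => (hg y).differentiableAt)
  have e1 : ∫ y, ∑ i : Fin 3, a y i * (fderiv ℝ (fun z => ‖b z‖ ^ 2) y (bv i)) =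
      -∫ y, ∑ i : Fin 3, (fderiv ℝ (fun z => a z i) y (bv i)) * ‖b y‖ ^ 2 := by
    rw [integral_finsetSum _ fun i _ => I2 i, integral_finsetSum _ fun i _ => I1 i,
      ← Finset.sum_neg_distrib]
    exact Finset.sum_congr rfl fun i _ => key i
  have e2 : ∀ y, ∑ i : Fin 3, (fderiv ℝ (fun z => a z i) y (bv i)) * ‖b y‖ ^ 2 = 0 := by
    intro y
    rw [← Finset.sum_mul]
    have := hdiv y
    unfold divg at this
    simp only [hff]
    rw [this, zero_mul]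
  have e3 : ∀ y, ∑ i : Fin 3, a y i * (fderiv ℝ (fun z => ‖b z‖ ^ 2) y (bv i)) =
      2 * inner ℝ (adv a b y) (b y) := by
    intro y
    have : ∑ i : Fin 3, a y i * (fderiv ℝ (fun z => ‖b z‖ ^ 2) y (bv i)) =
        fderiv ℝ (fun z => ‖b z‖ ^ 2) y (∑ i : Fin 3, a y i • bv i) := by
      rw [map_sum]
      exact Finset.sum_congr rfl fun i _ => by rw [map_smul, smul_eq_mul]
    rw [this, sum_bv, hgf, real_inner_comm]
    rfl
  simp only [e2, e3, integral_zero, neg_zero] at e1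
  rw [integral_const_mul] at e1
  have : (2 : ℝ) ≠ 0 := by norm_num
  exact (mul_eq_zero.1 e1).resolve_left this

/-! ### Time derivatives -/

/-- `C¹` in time and space, decaying together with the time derivative -/
structure Tm (T : ℝ) (w : ℝ → E3 → E3) : Prop where
  c1 : ContDiffOn ℝ 1 (fun z : ℝ × E3 => w z.1 z.2) (Ico 0 T ×ˢ univ)
  dec : ∀ T' < T, ∃ M, ∀ t ∈ Icc 0 T', B2 M (w t) ∧ B2 M (dt T w t)

theorem udo (T : ℝ) : UniqueDiffOn ℝ (Ico 0 T) := uniqueDiffOn_Ico 0 T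

theorem udp (T : ℝ) : UniqueDiffOn ℝ (Ico 0 T ×ˢ (univ : Set E3)) :=
  (udo T).prod uniqueDiffOn_univ

theorem Tm.cont {T : ℝ} {w : ℝ → E3 → E3} (h : Tm T w) {t : ℝ} (ht : t ∈ Ico 0 T) :
    Continuous (w t) :=
  h.c1.continuousOn.comp_continuous (continuous_const.prodMk continuous_id)
    (fun _ => ⟨ht, mem_univ _⟩)

theorem Tm.hasD {T : ℝ} {w : ℝ → E3 → E3} (h : Tm T w) {t : ℝ} (ht : t ∈ Ico 0 T) (y : E3) :
    HasDerivWithinAt (fun τ => w τ y)
      (fderivWithin ℝ (fun z : ℝ × E3 => w z.1 z.2) (Ico 0 T ×ˢ univ) (t, y) (1, 0))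
      (Ico 0 T) t := by
  have h1 : HasFDerivWithinAt (fun z : ℝ × E3 => w z.1 z.2)
      (fderivWithin ℝ (fun z : ℝ × E3 => w z.1 z.2) (Ico 0 T ×ˢ univ) (t, y))
      (Ico 0 T ×ˢ univ) (t, y) :=
    (h.c1.differentiableOn (by simp) (t, y) ⟨ht, mem_univ _⟩).hasFDerivWithinAt
  have h2 : HasDerivWithinAt (fun τ : ℝ => (τ, y)) ((1 : ℝ), (0 : E3)) (Ico 0 T) t :=
    (hasDerivWithinAt_id t _).prodMk (hasDerivWithinAt_const t _ y)
  have h3 : MapsTo (fun τ : ℝ => (τ, y)) (Ico 0 T) (Ico 0 T ×ˢ (univ : Set E3)) :=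
    fun τ hτ => ⟨hτ, mem_univ _⟩
  exact h1.comp_hasDerivWithinAt t h2 h3

theorem Tm.dt_eq {T : ℝ} {w : ℝ → E3 → E3} (h : Tm T w) {t : ℝ} (ht : t ∈ Ico 0 T) (y : E3) :
    dt T w t y =
      fderivWithin ℝ (fun z : ℝ × E3 => w z.1 z.2) (Ico 0 T ×ˢ univ) (t, y) (1, 0) :=
  (h.hasD ht y).derivWithin (udo T t ht)

theorem Tm.hd {T : ℝ} {w : ℝ → E3 → E3} (h : Tm T w) {t : ℝ} (ht : t ∈ Ico 0 T) (y : E3) :
    HasDerivWithinAt (fun τ => w τ y) (dt T w t y) (Ico 0 T) t := by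
  rw [h.dt_eq ht y]
  exact h.hasD ht y

theorem Tm.cdt {T : ℝ} {w : ℝ → E3 → E3} (h : Tm T w) {t : ℝ} (ht : t ∈ Ico 0 T) :
    Continuous (dt T w t) := by
  have h1 : dt T w t = fun y =>
      fderivWithin ℝ (fun z : ℝ × E3 => w z.1 z.2) (Ico 0 T ×ˢ univ) (t, y) (1, 0) :=
    funext fun y => h.dt_eq ht y
  rw [h1]
  have h2 := h.c1.continuousOn_fderivWithin (udp T) le_rfl
  have h3 : Continuous fun y : E3 =>
      fderivWithin ℝ (fun z : ℝ × E3 => w z.1 z.2) (Ico 0 T ×ˢ univ) (t, y) :=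
    h2.comp_continuous (continuous_const.prodMk continuous_id) (fun _ => ⟨ht, mem_univ _⟩)
  exact h3.clm_apply continuous_const

theorem Tm.hdi {T : ℝ} {w : ℝ → E3 → E3} (h : Tm T w) {t : ℝ} (ht : t ∈ Ioo 0 T) (y : E3) :
    HasDerivAt (fun τ => w τ y) (dt T w t y) t :=
  (h.hd ⟨ht.1.le, ht.2⟩ y).hasDerivAt (Ico_mem_nhds ht.1 ht.2)

theorem bound_sq {M : ℝ} {v w : E3 → E3} (h : B2 M v) (h' : B2 M w) (y : E3) :
    |inner ℝ (v y) (w y)| ≤ M * M * (1 + ‖y‖) ^ (-4 : ℝ) := by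
  have h1 : (0 : ℝ) < 1 + ‖y‖ := by positivity
  have h2 : (1 + ‖y‖) ^ (-4 : ℝ) = ((1 + ‖y‖) ^ 4)⁻¹ := by
    rw [Real.rpow_neg h1.le]
    congr 1
    exact_mod_cast Real.rpow_natCast (1 + ‖y‖) 4
  rw [h2, ← div_eq_mul_inv, le_div_iff₀ (by positivity)]
  calc |inner ℝ (v y) (w y)| * (1 + ‖y‖) ^ 4 ≤ (‖v y‖ * ‖w y‖) * (1 + ‖y‖) ^ 4 :=
        mul_le_mul_of_nonneg_right (abs_real_inner_le_norm _ _) (by positivity)
    _ = ((1 + ‖y‖) ^ 2 * ‖v y‖) * ((1 + ‖y‖) ^ 2 * ‖w y‖) := by ring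
    _ ≤ M * M := mul_le_mul (h y) (h' y) (by positivity) h.nonneg

theorem energy_cont {T : ℝ} {w : ℝ → E3 → E3} (h : Tm T w) :
    ContinuousOn (fun t => ip (w t) (w t)) (Ico 0 T) := by
  have key : ∀ T' < T, ContinuousOn (fun t => ip (w t) (w t)) (Icc 0 T') := by
    intro T' hT'
    obtain ⟨M, hM⟩ := h.dec T' hT'
    have hsub : ∀ t ∈ Icc 0 T', t ∈ Ico 0 T := fun t ht => ⟨ht.1, lt_of_le_of_lt ht.2 hT'⟩
    unfold ip
    refine continuousOn_of_dominated (bound := fun y => M * M * (1 + ‖y‖) ^ (-4 : ℝ)) ?_ ?_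
      (wt_int.const_mul _) ?_
    · intro t ht
      exact ((h.cont (hsub t ht)).inner (h.cont (hsub t ht))).aestronglyMeasurable
    · intro t ht
      refine ae_of_all _ fun y => ?_
      rw [Real.norm_eq_abs]
      exact bound_sq (hM t ht).1 (hM t ht).1 y
    · refine ae_of_all _ fun y => ?_
      have h1 : ContinuousOn (fun τ => w τ y) (Icc 0 T') := fun t ht =>
        ((h.hd (hsub t ht) y).continuousWithinAt).mono hsub
      exact h1.inner h1
  intro t ht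
  have h1 : (t + T) / 2 < T := by linarith [ht.2]
  have h2 : t < (t + T) / 2 := by linarith [ht.2]
  have h3 := key _ h1 t ⟨ht.1, h2.le⟩
  refine h3.mono_of_mem_nhdsWithin ?_
  have h4 : Iio ((t + T) / 2) ∈ 𝓝 t := Iio_mem_nhds h2
  refine mem_nhdsWithin.2 ⟨Iio ((t + T) / 2), isOpen_Iio, h2, ?_⟩
  rintro x ⟨hx1, hx2⟩
  exact ⟨hx2.1, le_of_lt hx1⟩

theorem energy_deriv {T : ℝ} {w : ℝ → E3 → E3} (h : Tm T w) {t : ℝ} (ht : t ∈ Ioo 0 T) :
    HasDerivAt (fun τ => ip (w τ) (w τ)) (2 * ip (dt T w t) (w t)) t := by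
  have h1 : (t + T) / 2 < T := by linarith [ht.2]
  have h2 : t < (t + T) / 2 := by linarith [ht.2]
  obtain ⟨M, hM⟩ := h.dec _ h1
  have hs : ∀ τ ∈ Ioo 0 ((t + T) / 2), τ ∈ Ioo 0 T := fun τ hτ => ⟨hτ.1, hτ.2.trans h1⟩
  have ht' : t ∈ Ico 0 T := ⟨ht.1.le, ht.2⟩
  have key := hasDerivAt_integral_of_dominated_loc_of_deriv_le (μ := (volume : Measure E3))
    (F := fun τ y => inner ℝ (w τ y) (w τ y)) (x₀ := t) (s := Ioo 0 ((t + T) / 2))
    (F' := fun τ y => 2 * inner ℝ (dt T w τ y) (w τ y))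
    (bound := fun y => 2 * (M * M * (1 + ‖y‖) ^ (-4 : ℝ))) (Ioo_mem_nhds ht.1 h2) ?_ ?_ ?_ ?_ ?_ ?_
  · have h3 := key.2
    rw [integral_const_mul] at h3
    exact h3
  · filter_upwards [Ioo_mem_nhds ht.1 ht.2] with τ hτ
    have := h.cont (t := τ) ⟨hτ.1.le, hτ.2⟩
    exact (this.inner this).aestronglyMeasurable
  · exact int_inner (h.cont ht') (h.cont ht') (hM t ⟨ht.1.le, h2.le⟩).1 (hM t ⟨ht.1.le, h2.le⟩).1
  · exact (continuous_const.mul ((h.cdt ht').inner (h.cont ht'))).aestronglyMeasurable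
  · refine ae_of_all _ fun y τ hτ => ?_
    have h4 := hM τ ⟨hτ.1.le, hτ.2.le⟩
    rw [Real.norm_eq_abs, abs_mul, abs_of_pos (by norm_num : (0 : ℝ) < 2)]
    exact mul_le_mul_of_nonneg_left (bound_sq h4.2 h4.1 y) (by norm_num)
  · exact (wt_int.const_mul _).const_mul _
  · refine ae_of_all _ fun y τ hτ => ?_
    have h5 := h.hdi (hs τ hτ) y
    have h6 := h5.inner ℝ h5
    refine h6.congr_deriv ?_
    rw [real_inner_comm (dt T w τ y) (w τ y)]
    ring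

/-! ### Solutions -/

theorem Sol.tm {ι : Type} {ν T : ℝ} {r : ι → E3 → E3} {u : ℝ → E3 → E3} (h : Sol ν r T u) :
    Tm T u := ⟨h.c1, fun T' hT' => by
  obtain ⟨M, hM⟩ := h.dec T' hT'
  exact ⟨M, fun t ht => ⟨(hM t ht).1.d0, (hM t ht).2⟩⟩⟩

theorem Sol.fld {ι : Type} {ν T : ℝ} {r : ι → E3 → E3} {u : ℝ → E3 → E3} (h : Sol ν r T u)
    {t : ℝ} (ht : t ∈ Ico 0 T) : Fld (u t) := by
  refine ⟨h.smooth t ht, h.div t ht, ?_⟩
  obtain ⟨M, hM⟩ := h.dec t ht.2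
  exact ⟨M, (hM t ⟨ht.1, le_rfl⟩).1⟩

theorem ip_split {A B C D ν : ℝ} {a b c w : E3 → E3} (ha : Continuous a) (hb : Continuous b)
    (hc : Continuous c) (hw : Continuous w) (hA : B2 A a) (hB : B2 B b) (hC : B2 C c)
    (hD : B2 D w) :
    ip (fun y => a y + b y - ν • c y) w = ip a w + ip b w - ν * ip c w := by
  unfold ip
  have h1 := int_inner ha hw hA hD
  have h2 := int_inner hb hw hB hD
  have h3 := int_inner hc hw hC hD
  simp only [inner_sub_left, inner_add_left, real_inner_smul_left]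
  have h4 : Integrable (fun y => inner ℝ (a y) (w y) + inner ℝ (b y) (w y)) := h1.add h2
  rw [integral_sub h4 (h3.const_mul ν), integral_add h1 h2, integral_const_mul]

theorem energy_main {ι : Type} {ν T : ℝ} {r : ι → E3 → E3} {u : ℝ → E3 → E3}
    (h : Sol ν r T u) {t : ℝ} (ht : t ∈ Ico 0 T) :
    ip (dt T u t) (u t) = -(ν * dir (u t)) := by
  have htm := Sol.tm h
  have hf := Sol.fld h ht
  obtain ⟨M, hM⟩ := h.dec t ht.2
  obtain ⟨hM1, hM2⟩ := hM t ⟨ht.1, le_rfl⟩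
  have h1 := h.eqn t ht (u t) hf (h.con t ht)
  rw [ip_split (htm.cdt ht) (cont_adv hf.smooth hf.smooth) (cont_lap hf.smooth)
    hf.smooth.continuous hM2 (B2_adv hM1.d0 (Dec.f1 hM1)) (B2_lap hM1) hM1.d0,
    adv_orth hf.smooth hf.smooth hf.div hM1 hM1, lap_dir hf.smooth hM1] at h1
  linarith

/-! ### Differences -/

theorem fderiv_diff {a b : E3 → E3} (ha : ContDiff ℝ ∞ a) (hb : ContDiff ℝ ∞ b) (y : E3) :
    fderiv ℝ (fun z => a z - b z) y = fderiv ℝ a y - fderiv ℝ b y :=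
  ((ha.differentiable (by simp) y).hasFDerivAt.sub
    (hb.differentiable (by simp) y).hasFDerivAt).fderiv

theorem fderiv2_diff {a b : E3 → E3} (ha : ContDiff ℝ ∞ a) (hb : ContDiff ℝ ∞ b) (y : E3)
    (i : Fin 3) : fderiv ℝ (fun z => fderiv ℝ (fun x => a x - b x) z (bv i)) y =
      fderiv ℝ (fun z => fderiv ℝ a z (bv i)) y - fderiv ℝ (fun z => fderiv ℝ b z (bv i)) y := by
  have h1 : (fun z => fderiv ℝ (fun x => a x - b x) z (bv i)) =
      fun z => fderiv ℝ a z (bv i) - fderiv ℝ b z (bv i) := by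
    funext z
    rw [fderiv_diff ha hb]
    rfl
  rw [h1]
  exact fderiv_diff (smooth_dir ha i) (smooth_dir hb i) y

theorem divg_diff {a b : E3 → E3} (ha : ContDiff ℝ ∞ a) (hb : ContDiff ℝ ∞ b)
    (h : ∀ y, divg a y = 0) (h' : ∀ y, divg b y = 0) (y : E3) :
    divg (fun z => a z - b z) y = 0 := by
  have h1 := h y
  have h2 := h' y
  unfold divg at *
  rw [fderiv_diff ha hb]
  simp only [_root_.sub_apply, PiLp.sub_apply, Finset.sum_sub_distrib, h1, h2,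
    sub_zero]

theorem Dec.sub {M N : ℝ} {a b : E3 → E3} (ha : ContDiff ℝ ∞ a) (hb : ContDiff ℝ ∞ b)
    (h : Dec M a) (h' : Dec N b) : Dec (M + N) (fun z => a z - b z) := by
  have h1 : ∀ y : E3, (0 : ℝ) ≤ (1 + ‖y‖) ^ 2 := fun y => by positivity
  refine ⟨B2.sub h.d0 h'.d0, fun y => ?_, fun y i j => ?_⟩
  · rw [fderiv_diff ha hb]
    calc (1 + ‖y‖) ^ 2 * ‖fderiv ℝ a y - fderiv ℝ b y‖
        ≤ (1 + ‖y‖) ^ 2 * (‖fderiv ℝ a y‖ + ‖fderiv ℝ b y‖) :=
          mul_le_mul_of_nonneg_left (norm_sub_le _ _) (h1 y)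
      _ = (1 + ‖y‖) ^ 2 * ‖fderiv ℝ a y‖ + (1 + ‖y‖) ^ 2 * ‖fderiv ℝ b y‖ := by ring
      _ ≤ M + N := add_le_add (h.d1 y) (h'.d1 y)
  · rw [fderiv2_diff ha hb, _root_.sub_apply]
    refine (mul_le_mul_of_nonneg_left (norm_sub_le _ _) (h1 y)).trans ?_
    rw [mul_add]
    exact add_le_add (h.d2 y i j) (h'.d2 y i j)

theorem lap_diff {a b : E3 → E3} (ha : ContDiff ℝ ∞ a) (hb : ContDiff ℝ ∞ b) (y : E3) :
    lap (fun z => a z - b z) y = lap a y - lap b y := by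
  unfold lap
  rw [← Finset.sum_sub_distrib]
  refine Finset.sum_congr rfl fun i _ => ?_
  rw [fderiv2_diff ha hb]
  rfl

theorem adv_diff {a b : E3 → E3} (ha : ContDiff ℝ ∞ a) (hb : ContDiff ℝ ∞ b) (y : E3) :
    adv a a y - adv b b y = adv (fun z => a z - b z) a y + adv b (fun z => a z - b z) y := by
  unfold adv
  rw [fderiv_diff ha hb, map_sub, _root_.sub_apply]
  abel

theorem dt_sub {T : ℝ} {u v : ℝ → E3 → E3} (hu : Tm T u) (hv : Tm T v) {t : ℝ}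
    (ht : t ∈ Ico 0 T) :
    dt T (fun τ y => u τ y - v τ y) t = fun y => dt T u t y - dt T v t y :=
  funext fun y => ((hu.hd ht y).sub (hv.hd ht y)).derivWithin (udo T t ht)

theorem Tm.sub {T : ℝ} {u v : ℝ → E3 → E3} (hu : Tm T u) (hv : Tm T v) :
    Tm T (fun τ y => u τ y - v τ y) := by
  refine ⟨hu.c1.sub hv.c1, fun T' hT' => ?_⟩
  obtain ⟨M, hM⟩ := hu.dec T' hT'
  obtain ⟨N, hN⟩ := hv.dec T' hT'
  refine ⟨M + N, fun t ht => ⟨B2.sub (hM t ht).1 (hN t ht).1, ?_⟩⟩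
  rw [dt_sub hu hv ⟨ht.1, lt_of_le_of_lt ht.2 hT'⟩]
  exact B2.sub (hM t ht).2 (hN t ht).2

theorem ip_sub_cs {a b r : E3 → E3} (ha : Continuous a) (hb : Continuous b) (hr : Continuous r)
    (hc : HasCompactSupport r) : ip (fun y => a y - b y) r = ip a r - ip b r := by
  have h1 : ∀ {f : E3 → E3}, Continuous f → Integrable (fun y => inner ℝ (f y) (r y)) := by
    intro f hf
    refine (hf.inner hr).integrable_of_hasCompactSupport ?_
    refine hc.mono ?_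
    intro y hy hy'
    apply hy
    show inner ℝ (f y) (r y) = 0
    rw [hy', inner_zero_right]
  unfold ip
  simp only [inner_sub_left]
  exact integral_sub (h1 ha) (h1 hb)

theorem dir_nonneg (v : E3 → E3) : 0 ≤ dir v :=
  integral_nonneg fun y => Finset.sum_nonneg fun i _ => by positivity

theorem ip_self_nonneg (v : E3 → E3) : 0 ≤ ip v v :=
  integral_nonneg fun _ => real_inner_self_nonneg

theorem adv_bound {M N : ℝ} {a w : E3 → E3} (ha : ContDiff ℝ ∞ a) (hw : ContDiff ℝ ∞ w)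
    (hA : ∀ y, ‖fderiv ℝ a y‖ ≤ M) (hW : B2 N w) : -ip (adv w a) w ≤ M * ip w w := by
  unfold ip
  rw [← integral_neg, ← integral_const_mul]
  refine integral_mono (int_inner (cont_adv hw ha) hw.continuous (B2_adv hW hA) hW).neg
    ((int_inner hw.continuous hw.continuous hW hW).const_mul M) fun y => ?_
  show -inner ℝ (adv w a y) (w y) ≤ M * inner ℝ (w y) (w y)
  rw [real_inner_self_eq_norm_sq]
  have h1 : |inner ℝ (adv w a y) (w y)| ≤ ‖adv w a y‖ * ‖w y‖ := abs_real_inner_le_norm _ _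
  have h2 : ‖adv w a y‖ ≤ M * ‖w y‖ :=
    ((fderiv ℝ a y).le_opNorm _).trans (mul_le_mul_of_nonneg_right (hA y) (norm_nonneg _))
  have h3 : -inner ℝ (adv w a y) (w y) ≤ |inner ℝ (adv w a y) (w y)| := neg_le_abs _
  calc -inner ℝ (adv w a y) (w y) ≤ ‖adv w a y‖ * ‖w y‖ := h3.trans h1
    _ ≤ M * ‖w y‖ * ‖w y‖ := mul_le_mul_of_nonneg_right h2 (norm_nonneg _)
    _ = M * ‖w y‖ ^ 2 := by ring

end T3

/-- **Energy identity.** -/
theorem t_EN : S_EN := by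
  intro ι ν T r u _ h
  refine ⟨T3.energy_cont (T3.Sol.tm h), fun t ht => ?_⟩
  have h1 := T3.energy_deriv (T3.Sol.tm h) ht
  rw [T3.energy_main h ⟨ht.1.le, ht.2⟩] at h1
  refine h1.congr_deriv ?_
  ring

/-- **Uniqueness.** -/
theorem t_UNI : S_UNI := by
  intro ι ν T r u v hν hr hrc hu hv h0 t ht
  have hut := T3.Sol.tm hu
  have hvt := T3.Sol.tm hv
  obtain ⟨w, hw⟩ : ∃ w : ℝ → E3 → E3, w = fun τ y => u τ y - v τ y := ⟨_, rfl⟩
  have hwt : T3.Tm T w := by rw [hw]; exact hut.sub hvt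
  obtain ⟨M, hM⟩ := hu.dec t ht.2
  have hM0 : 0 ≤ M := T3.Dec.nonneg (hM t ⟨ht.1, le_rfl⟩).1
  -- the differential inequality
  have key : ∀ τ ∈ Icc 0 t, ip (dt T w τ) (w τ) ≤ M * ip (w τ) (w τ) := by
    intro τ hτ
    have hτ' : τ ∈ Ico 0 T := ⟨hτ.1, lt_of_le_of_lt hτ.2 ht.2⟩
    have fu := T3.Sol.fld hu hτ'
    have fv := T3.Sol.fld hv hτ'
    have du := (hM τ hτ).1
    obtain ⟨N, hN⟩ := hv.dec τ hτ'.2
    obtain ⟨dv, ev⟩ := hN τ ⟨hτ'.1, le_rfl⟩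
    have eu := (hM τ hτ).2
    have hwe : w τ = fun y => u τ y - v τ y := by rw [hw]
    have sw : ContDiff ℝ ∞ (w τ) := by rw [hwe]; exact fu.smooth.sub fv.smooth
    have dw : Dec (M + N) (w τ) := by
      rw [hwe]; exact T3.Dec.sub fu.smooth fv.smooth du dv
    have divw : ∀ y, divg (w τ) y = 0 := by
      rw [hwe]; exact T3.divg_diff fu.smooth fv.smooth fu.div fv.div
    have fw : Fld (w τ) := ⟨sw, divw, _, dw⟩
    have conw : ∀ i, ip (w τ) (r i) = 0 := by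
      intro i
      rw [hwe, T3.ip_sub_cs fu.smooth.continuous fv.smooth.continuous (hr i) (hrc i),
        hu.con τ hτ' i, hv.con τ hτ' i, sub_zero]
    have e1 := hu.eqn τ hτ' (w τ) fw conw
    have e2 := hv.eqn τ hτ' (w τ) fw conw
    rw [T3.ip_split (hut.cdt hτ') (T3.cont_adv fu.smooth fu.smooth) (T3.cont_lap fu.smooth)
      sw.continuous eu (T3.B2_adv du.d0 (T3.Dec.f1 du)) (T3.B2_lap du) dw.d0] at e1
    rw [T3.ip_split (hvt.cdt hτ') (T3.cont_adv fv.smooth fv.smooth) (T3.cont_lap fv.smooth)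
      sw.continuous ev (T3.B2_adv dv.d0 (T3.Dec.f1 dv)) (T3.B2_lap dv) dw.d0] at e2
    -- differences
    have i1 : ip (dt T w τ) (w τ) = ip (dt T u τ) (w τ) - ip (dt T v τ) (w τ) := by
      have : dt T w τ = fun y => dt T u τ y - dt T v τ y := by
        rw [hw]; exact T3.dt_sub hut hvt hτ'
      rw [this]
      unfold ip
      simp only [inner_sub_left]
      exact integral_sub (T3.int_inner (hut.cdt hτ') sw.continuous eu dw.d0)
        (T3.int_inner (hvt.cdt hτ') sw.continuous ev dw.d0)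
    have i2 : ip (lap (w τ)) (w τ) = ip (lap (u τ)) (w τ) - ip (lap (v τ)) (w τ) := by
      have : ∀ y, lap (w τ) y = lap (u τ) y - lap (v τ) y := by
        rw [hwe]; exact T3.lap_diff fu.smooth fv.smooth
      unfold ip
      simp only [this, inner_sub_left]
      exact integral_sub (T3.int_inner (T3.cont_lap fu.smooth) sw.continuous (T3.B2_lap du) dw.d0)
        (T3.int_inner (T3.cont_lap fv.smooth) sw.continuous (T3.B2_lap dv) dw.d0)
    have i3 : ip (adv (u τ) (u τ)) (w τ) - ip (adv (v τ) (v τ)) (w τ) =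
        ip (adv (w τ) (u τ)) (w τ) + ip (adv (v τ) (w τ)) (w τ) := by
      unfold ip
      rw [← integral_sub (T3.int_inner (T3.cont_adv fu.smooth fu.smooth) sw.continuous
          (T3.B2_adv du.d0 (T3.Dec.f1 du)) dw.d0)
        (T3.int_inner (T3.cont_adv fv.smooth fv.smooth) sw.continuous
          (T3.B2_adv dv.d0 (T3.Dec.f1 dv)) dw.d0),
        ← integral_add (T3.int_inner (T3.cont_adv sw fu.smooth) sw.continuous
          (T3.B2_adv dw.d0 (T3.Dec.f1 du)) dw.d0)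
        (T3.int_inner (T3.cont_adv fv.smooth sw) sw.continuous
          (T3.B2_adv dv.d0 (T3.Dec.f1 dw)) dw.d0)]
      refine integral_congr_ae (ae_of_all _ fun y => ?_)
      show inner ℝ (adv (u τ) (u τ) y) (w τ y) - inner ℝ (adv (v τ) (v τ) y) (w τ y) =
        inner ℝ (adv (w τ) (u τ) y) (w τ y) + inner ℝ (adv (v τ) (w τ) y) (w τ y)
      rw [← inner_sub_left, ← inner_add_left, T3.adv_diff fu.smooth fv.smooth y, ← hwe]
    have i4 : ip (adv (v τ) (w τ)) (w τ) = 0 := T3.adv_orth fv.smooth sw fv.div dv dw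
    have i5 : ip (lap (w τ)) (w τ) = -dir (w τ) := T3.lap_dir sw dw
    have i6 : -ip (adv (w τ) (u τ)) (w τ) ≤ M * ip (w τ) (w τ) :=
      T3.adv_bound fu.smooth sw (T3.Dec.f1 du) dw.d0
    have i7 : 0 ≤ ν * dir (w τ) := mul_nonneg hν (T3.dir_nonneg _)
    have i8 : ν * ip (lap (u τ)) (w τ) - ν * ip (lap (v τ)) (w τ) = -(ν * dir (w τ)) := by
      rw [← mul_sub, ← i2, i5]; ring
    linarith
  -- Gronwall
  have hEc := T3.energy_cont hwt
  have hsub : Icc 0 t ⊆ Ico 0 T := fun τ hτ => ⟨hτ.1, lt_of_le_of_lt hτ.2 ht.2⟩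
  have hd : ∀ τ ∈ Ioo 0 t, HasDerivAt (fun x => ip (w x) (w x) * Real.exp (-(2 * M) * x))
      ((2 * ip (dt T w τ) (w τ)) * Real.exp (-(2 * M) * τ) +
        ip (w τ) (w τ) * (Real.exp (-(2 * M) * τ) * (-(2 * M)))) τ := by
    intro τ hτ
    have h1 := T3.energy_deriv hwt (t := τ) ⟨hτ.1, hτ.2.trans ht.2⟩
    have h2 : HasDerivAt (fun x : ℝ => Real.exp (-(2 * M) * x))
        (Real.exp (-(2 * M) * τ) * (-(2 * M))) τ := by
      have := (hasDerivAt_id τ).const_mul (-(2 * M))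
      have h3 := this.exp
      simpa using h3
    exact h1.mul h2
  have hanti : AntitoneOn (fun x => ip (w x) (w x) * Real.exp (-(2 * M) * x)) (Icc 0 t) := by
    refine antitoneOn_of_deriv_nonpos (convex_Icc 0 t) ?_ ?_ ?_
    · exact (hEc.mono hsub).mul (by fun_prop)
    · rw [interior_Icc]
      exact fun τ hτ => (hd τ hτ).differentiableAt.differentiableWithinAt
    · rw [interior_Icc]
      intro τ hτ
      rw [(hd τ hτ).deriv]
      have h1 := key τ ⟨hτ.1.le, hτ.2.le⟩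
      have h2 : 0 < Real.exp (-(2 * M) * τ) := Real.exp_pos _
      nlinarith
  have h1 : ip (w 0) (w 0) = 0 := by
    have : w 0 = fun _ => 0 := by
      rw [hw]; funext y; simp [h0]
    rw [this]
    simp [ip]
  have h2 := hanti (left_mem_Icc.2 ht.1) (right_mem_Icc.2 ht.1) ht.1
  simp only [h1, zero_mul] at h2
  have h3 : 0 < Real.exp (-(2 * M) * t) := Real.exp_pos _
  have h4 : ip (w t) (w t) = 0 := by
    refine le_antisymm ?_ (T3.ip_self_nonneg _)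
    by_contra hcon
    push Not at hcon
    exact absurd h2 (not_le.2 (mul_pos hcon h3))
  -- vanishing
  have hcw : Continuous (w t) := hwt.cont ht
  obtain ⟨N, hN⟩ := hwt.dec t ht.2
  have hi := T3.int_inner hcw hcw (hN t ⟨ht.1, le_rfl⟩).1 (hN t ⟨ht.1, le_rfl⟩).1
  unfold ip at h4
  rw [integral_eq_zero_iff_of_nonneg (fun y => real_inner_self_nonneg) hi,
    Continuous.ae_eq_iff_eq volume (hcw.inner hcw) continuous_zero] at h4
  funext y
  have h5 := congrFun h4 y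
  have h6 : w t y = 0 := inner_self_eq_zero.1 h5
  rw [hw] at h6
  exact sub_eq_zero.1 h6

end Pool.Agent.N976.SC
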