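import Pool.Agent.N976.SC.Def

set_option autoImplicit false

open Set Filter Topology MeasureTheory
open scoped ContDiff

namespace Pool.Agent.N976.SC

namespace T6

/-- Exchange of sum and integral. -/
lemma exch {ι : Type} [Countable ι] (F : ι → E3 → ℝ) (b : ι → ℝ) (hc : ∀ i, Continuous (F i))
    (h0 : ∀ i y, 1 ≤ ‖y‖ → F i y = 0) (hb : ∀ i y, |F i y| ≤ b i) (hs : Summable b)
    (G : E3 → ℝ) (hG : ∀ y, HasSum (fun i => F i y) (G y)) :
    HasSum (fun i => ∫ y, F i y) (∫ y, G y) := by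
  have hcs : ∀ i, HasCompactSupport (F i) := by
    intro i
    refine HasCompactSupport.intro (isCompact_closedBall (0 : E3) 1) ?_
    intro y hy
    refine h0 i y ?_
    simp only [Metric.mem_closedBall, dist_zero_right, not_le] at hy
    exact hy.le
  have hint : ∀ i, Integrable (F i) := fun i => (hc i).integrable_of_hasCompactSupport (hcs i)
  have hle : ∀ i, ∫ y, ‖F i y‖ ≤ b i * volume.real (Metric.closedBall (0 : E3) 1) := by
    intro i
    have h1 : ∫ y, ‖F i y‖ = ∫ y in Metric.closedBall (0 : E3) 1, ‖F i y‖ := by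
      refine (setIntegral_eq_integral_of_forall_compl_eq_zero ?_).symm
      intro y hy
      simp only [Metric.mem_closedBall, dist_zero_right, not_le] at hy
      rw [h0 i y hy.le, norm_zero]
    rw [h1]
    have h2 := norm_setIntegral_le_of_norm_le_const (μ := (volume : Measure E3))
      (s := Metric.closedBall (0 : E3) 1) (f := fun y => ‖F i y‖) (C := b i)
      (isCompact_closedBall (0 : E3) 1).measure_lt_top
      (fun y _ => by simpa [Real.norm_eq_abs] using hb i y)
    exact (Real.le_norm_self _).trans h2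
  have hsum : Summable fun i => ∫ y, ‖F i y‖ :=
    Summable.of_nonneg_of_le (fun i => integral_nonneg fun y => norm_nonneg _) hle
      (hs.mul_right _)
  have h3 := hasSum_integral_of_summable_integral_norm hint hsum
  have h4 : (fun y => ∑' i, F i y) = G := by
    funext y
    exact (hG y).tsum_eq
  rw [h4] at h3
  exact h3

/-- Sequences of polynomial growth (in `s ^ n`). -/
def Pol (s : ℝ) (b : ℕ → ℝ) : Prop := ∃ (k : ℕ) (C : ℝ), ∀ n, |b n| ≤ C * s ^ (k * n)

lemma Pol.const {s : ℝ} (c : ℝ) : Pol s (fun _ => c) := ⟨0, |c|, fun n => by simp⟩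

lemma Pol.pow {s : ℝ} (hs : 1 < s) (k : ℕ) : Pol s (fun n => s ^ (k * n)) :=
  ⟨k, 1, fun n => by rw [abs_of_nonneg (by positivity), one_mul]⟩

lemma Pol.mul {s : ℝ} {b c : ℕ → ℝ} (hb : Pol s b) (hc : Pol s c) :
    Pol s (fun n => b n * c n) := by
  obtain ⟨k, C, h⟩ := hb
  obtain ⟨l, D, h'⟩ := hc
  refine ⟨k + l, C * D, fun n => ?_⟩
  rw [abs_mul]
  have h1 := h n
  have h2 := h' n
  calc |b n| * |c n| ≤ (C * s ^ (k * n)) * (D * s ^ (l * n)) :=
        mul_le_mul h1 h2 (abs_nonneg _) ((abs_nonneg _).trans h1)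
    _ = C * D * s ^ ((k + l) * n) := by rw [add_mul, pow_add]; ring

lemma Rap.mul_pol {s : ℝ} (hs : 1 < s) {a b : ℕ → ℝ} (ha : Rap s a) (hb : Pol s b) :
    Rap s (fun n => a n * b n) := by
  intro k
  obtain ⟨l, C, h⟩ := hb
  obtain ⟨M, hM⟩ := ha (k + l)
  have s0 : 0 < s := by linarith
  refine ⟨M * |C|, fun n => ?_⟩
  rw [abs_mul]
  have h1 : |b n| ≤ |C| * s ^ (l * n) :=
    (h n).trans (mul_le_mul_of_nonneg_right (le_abs_self C) (by positivity))
  have h2 := hM n
  calc s ^ (k * n) * (|a n| * |b n|) ≤ s ^ (k * n) * (|a n| * (|C| * s ^ (l * n))) := by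
        gcongr
    _ = (s ^ ((k + l) * n) * |a n|) * |C| := by rw [add_mul, pow_add]; ring
    _ ≤ M * |C| := by gcongr

lemma Rap.summable {s : ℝ} (hs : 1 < s) {a : ℕ → ℝ} (ha : Rap s a) :
    Summable (fun n => |a n|) := by
  obtain ⟨M, hM⟩ := ha 1
  have s0 : 0 < s := by linarith
  have hgeo : Summable (fun n : ℕ => M * (s⁻¹) ^ n) :=
    (summable_geometric_of_lt_one (by positivity) (inv_lt_one_of_one_lt₀ hs)).mul_left M
  refine Summable.of_nonneg_of_le (fun n => abs_nonneg _) (fun n => ?_) hgeo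
  have h := hM n
  rw [one_mul] at h
  rw [inv_pow, ← div_eq_mul_inv, le_div_iff₀ (by positivity), mul_comm]
  exact h

lemma Rap.pol {s : ℝ} {a : ℕ → ℝ} (ha : Rap s a) : Pol s a := by
  obtain ⟨M, hM⟩ := ha 0
  exact ⟨0, M, fun n => by simpa using hM n⟩

lemma Rap.hsum {s : ℝ} (hs : 1 < s) {a : ℕ → ℝ} (ha : Rap s a) : Summable a :=
  (Rap.summable hs ha).of_abs

lemma Pol.shift {s : ℝ} {b : ℕ → ℝ} (hb : Pol s b) : Pol s (fun n => b (n + 1)) := by
  obtain ⟨k, C, h⟩ := hb
  refine ⟨k, C * s ^ k, fun n => (h (n + 1)).trans (le_of_eq ?_)⟩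
  rw [mul_add, pow_add, mul_one]; ring

/-- Partial sums of `s^(5i) a i`. -/
lemma Rap.psum {s : ℝ} (hs : 1 < s) {a : ℕ → ℝ} (ha : Rap s a) :
    Pol s (fun n => ∑ i ∈ Finset.range n, s ^ (5 * i) * a i) := by
  have h1 : Rap s (fun n => a n * s ^ (5 * n)) := Rap.mul_pol hs ha (Pol.pow hs 5)
  have h2 := Rap.summable hs h1
  refine ⟨0, ∑' n, |a n * s ^ (5 * n)|, fun n => ?_⟩
  simp only [zero_mul, pow_zero, mul_one]
  refine (Finset.abs_sum_le_sum_abs _ _).trans ?_
  have h3 : ∑ i ∈ Finset.range n, |s ^ (5 * i) * a i| =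
      ∑ i ∈ Finset.range n, |a i * s ^ (5 * i)| :=
    Finset.sum_congr rfl fun i _ => by rw [mul_comm]
  rw [h3]
  exact h2.sum_le_tsum _ (fun i _ => abs_nonneg _)

lemma hasSum_shift {f : ℕ → ℝ} {v : ℝ} (h0 : f 0 = 0) (h : HasSum (fun n => f (n + 1)) v) :
    HasSum f v := by
  have := (hasSum_nat_add_iff (f := f) 1).1 h
  simpa [h0] using this

/-! ### The packets -/

section pk

variable {s : ℝ} {P : E3 → E3}

lemma cs (hP : ∀ y, 1 / 2 ≤ ‖y‖ → P y = 0) : HasCompactSupport P := by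
  refine HasCompactSupport.intro (isCompact_closedBall (0 : E3) (1 / 2)) ?_
  intro y hy
  refine hP y ?_
  simp only [Metric.mem_closedBall, dist_zero_right, not_le] at hy
  exact hy.le

lemma tsup (hP : ∀ y, 1 / 2 ≤ ‖y‖ → P y = 0) : tsupport P ⊆ Metric.closedBall (0 : E3) (1 / 2) := by
  refine closure_minimal ?_ Metric.isClosed_closedBall
  intro y hy
  by_contra hc
  simp only [Metric.mem_closedBall, dist_zero_right, not_le] at hc
  exact hy (hP y hc.le)

lemma norm_dil (hs : 1 < s) (n : ℕ) {y : E3} (hy : 1 ≤ ‖y‖) : 1 ≤ ‖s ^ (2 * n) • y‖ := by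
  rw [norm_smul, Real.norm_eq_abs, abs_of_nonneg (by positivity)]
  have h1 : 1 ≤ s ^ (2 * n) := one_le_pow₀ hs.le
  nlinarith [norm_nonneg y]

lemma pk_out (hs : 1 < s) (hP : ∀ y, 1 / 2 ≤ ‖y‖ → P y = 0) (n : ℕ) {y : E3} (hy : 1 ≤ ‖y‖) :
    pk s P n y = 0 := by
  unfold pk
  rw [hP _ (by linarith [norm_dil hs n hy]), smul_zero]

lemma pk_cont (hc : Continuous P) (n : ℕ) : Continuous (pk s P n) := by
  unfold pk
  have h : Continuous fun y : E3 => s ^ (2 * n) • y := by fun_prop
  have h2 : Continuous fun y : E3 => P (s ^ (2 * n) • y) := hc.comp h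
  fun_prop

lemma pk_smooth (hc : ContDiff ℝ ∞ P) (n : ℕ) : ContDiff ℝ ∞ (pk s P n) := by
  unfold pk
  exact (hc.comp (contDiff_id.const_smul (s ^ (2 * n)))).const_smul _

lemma pk_bd (hs : 1 < s) (hc : Continuous P) (hP : ∀ y, 1 / 2 ≤ ‖y‖ → P y = 0) :
    ∃ C, 0 ≤ C ∧ ∀ n y, ‖pk s P n y‖ ≤ C * s ^ (3 * n) := by
  obtain ⟨C, hC⟩ := hc.bounded_above_of_compact_support (cs hP)
  have s0 : 0 < s := by linarith
  refine ⟨C, (norm_nonneg _).trans (hC 0), fun n y => ?_⟩
  unfold pk
  rw [norm_smul, Real.norm_eq_abs, abs_of_nonneg (by positivity), mul_comm]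
  gcongr
  exact hC _

lemma hasFDerivAt_pk (hc : ContDiff ℝ ∞ P) (n : ℕ) (y : E3) :
    HasFDerivAt (pk s P n) (s ^ (5 * n) • fderiv ℝ P (s ^ (2 * n) • y)) y := by
  have h1 : HasFDerivAt P (fderiv ℝ P (s ^ (2 * n) • y)) (s ^ (2 * n) • y) :=
    (hc.differentiable (by simp) _).hasFDerivAt
  have h2 : HasFDerivAt (fun z : E3 => s ^ (2 * n) • z)
      (s ^ (2 * n) • ContinuousLinearMap.id ℝ E3) y :=
    (s ^ (2 * n) • ContinuousLinearMap.id ℝ E3).hasFDerivAt
  have h3 := (h1.comp y h2).const_smul (s ^ (3 * n))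
  refine h3.congr_fderiv ?_
  refine ContinuousLinearMap.ext fun v => ?_
  simp only [smul_apply, ContinuousLinearMap.comp_apply,
    ContinuousLinearMap.id_apply, map_smul, smul_smul]
  rw [← pow_add]
  congr 2
  ring

lemma fderiv_pk (hc : ContDiff ℝ ∞ P) (n : ℕ) (y : E3) :
    fderiv ℝ (pk s P n) y = s ^ (5 * n) • fderiv ℝ P (s ^ (2 * n) • y) :=
  (hasFDerivAt_pk hc n y).fderiv

lemma fderiv_cont (hc : ContDiff ℝ ∞ P) : Continuous (fderiv ℝ P) :=
  hc.continuous_fderiv (by simp)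

lemma fderiv_bd (hs : 1 < s) (hc : ContDiff ℝ ∞ P) (hP : ∀ y, 1 / 2 ≤ ‖y‖ → P y = 0) :
    ∃ C, 0 ≤ C ∧ ∀ n y, ‖fderiv ℝ (pk s P n) y‖ ≤ C * s ^ (5 * n) := by
  obtain ⟨C, hC⟩ := (fderiv_cont hc).bounded_above_of_compact_support ((cs hP).fderiv (𝕜 := ℝ))
  have s0 : 0 < s := by linarith
  refine ⟨C, (norm_nonneg _).trans (hC 0), fun n y => ?_⟩
  rw [fderiv_pk hc, norm_smul, Real.norm_eq_abs, abs_of_nonneg (by positivity), mul_comm]
  gcongr
  exact hC _

lemma dP_smooth (hc : ContDiff ℝ ∞ P) (i : Fin 3) :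
    ContDiff ℝ ∞ (fun z => fderiv ℝ P z (bv i)) :=
  (hc.fderiv_right (m := ∞) (by simp)).clm_apply contDiff_const

lemma lap_cont (hc : ContDiff ℝ ∞ P) : Continuous (lap P) := by
  unfold lap
  refine continuous_finsetSum _ fun i _ => ?_
  exact ((dP_smooth hc i).continuous_fderiv (by simp)).clm_apply continuous_const

lemma dP_out (hP : ∀ y, 1 / 2 ≤ ‖y‖ → P y = 0) {y : E3} (hy : 1 / 2 < ‖y‖) (i : Fin 3) :
    fderiv ℝ P y = 0 ∧ fderiv ℝ (fun z => fderiv ℝ P z (bv i)) y = 0 := by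
  have h1 : ∀ z : E3, 1 / 2 < ‖z‖ → fderiv ℝ P z = 0 := by
    intro z hz
    have h2 : P =ᶠ[𝓝 z] fun _ => 0 := by
      have : {w : E3 | 1 / 2 < ‖w‖} ∈ 𝓝 z := (isOpen_lt continuous_const continuous_norm).mem_nhds hz
      filter_upwards [this] with w hw
      exact hP w (le_of_lt hw)
    rw [h2.fderiv_eq]; simp
  refine ⟨h1 y hy, ?_⟩
  have h2 : (fun z => fderiv ℝ P z (bv i)) =ᶠ[𝓝 y] fun _ => 0 := by
    have : {w : E3 | 1 / 2 < ‖w‖} ∈ 𝓝 y := (isOpen_lt continuous_const continuous_norm).mem_nhds hy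
    filter_upwards [this] with w hw
    rw [h1 w hw]; simp
  rw [h2.fderiv_eq]; simp

lemma lap_out (hP : ∀ y, 1 / 2 ≤ ‖y‖ → P y = 0) {y : E3} (hy : 1 / 2 < ‖y‖) : lap P y = 0 := by
  unfold lap
  refine Finset.sum_eq_zero fun i _ => ?_
  rw [(dP_out hP hy i).2]; simp

lemma lap_pk (hc : ContDiff ℝ ∞ P) (n : ℕ) (y : E3) :
    lap (pk s P n) y = s ^ (7 * n) • lap P (s ^ (2 * n) • y) := by
  unfold lap
  rw [Finset.smul_sum]
  refine Finset.sum_congr rfl fun i _ => ?_
  have h0 : (fun z => fderiv ℝ (pk s P n) z (bv i)) =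
      fun z => s ^ (5 * n) • (fun x => fderiv ℝ P x (bv i)) (s ^ (2 * n) • z) := by
    funext z
    rw [fderiv_pk hc]; rfl
  rw [h0]
  have h1 : HasFDerivAt (fun x => fderiv ℝ P x (bv i))
      (fderiv ℝ (fun x => fderiv ℝ P x (bv i)) (s ^ (2 * n) • y)) (s ^ (2 * n) • y) :=
    ((dP_smooth hc i).differentiable (by simp) _).hasFDerivAt
  have h2 : HasFDerivAt (fun z : E3 => s ^ (2 * n) • z)
      (s ^ (2 * n) • ContinuousLinearMap.id ℝ E3) y :=
    (s ^ (2 * n) • ContinuousLinearMap.id ℝ E3).hasFDerivAt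
  have h3 := (h1.comp y h2).const_smul (s ^ (5 * n))
  have h4 := h3.fderiv
  simp only [Function.comp_def] at h4
  have h5 : fderiv ℝ (fun z => s ^ (5 * n) • (fun x => fderiv ℝ P x (bv i)) (s ^ (2 * n) • z)) y =
    s ^ (5 * n) • (fderiv ℝ (fun x => fderiv ℝ P x (bv i)) (s ^ (2 * n) • y)).comp
      (s ^ (2 * n) • ContinuousLinearMap.id ℝ E3) := h4
  rw [h5]
  simp only [smul_apply, ContinuousLinearMap.comp_apply,
    ContinuousLinearMap.id_apply, map_smul, smul_smul]
  rw [← pow_add]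
  congr 2
  ring

lemma lap_bd (hs : 1 < s) (hc : ContDiff ℝ ∞ P) (hP : ∀ y, 1 / 2 ≤ ‖y‖ → P y = 0) :
    ∃ C, 0 ≤ C ∧ ∀ n y, ‖lap (pk s P n) y‖ ≤ C * s ^ (7 * n) := by
  have hcs : HasCompactSupport (lap P) := by
    refine HasCompactSupport.intro (isCompact_closedBall (0 : E3) (1 / 2)) ?_
    intro y hy
    refine lap_out hP ?_
    simpa only [Metric.mem_closedBall, dist_zero_right, not_le] using hy
  obtain ⟨C, hC⟩ := (lap_cont hc).bounded_above_of_compact_support hcs
  have s0 : 0 < s := by linarith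
  refine ⟨C, (norm_nonneg _).trans (hC 0), fun n y => ?_⟩
  rw [lap_pk hc, norm_smul, Real.norm_eq_abs, abs_of_nonneg (by positivity), mul_comm]
  gcongr
  exact hC _

end pk


/-! ### Testing -/

lemma w_bd {w : E3 → E3} (hw : Continuous w) : ∃ W, 0 ≤ W ∧ ∀ y, ‖y‖ ≤ 1 → ‖w y‖ ≤ W := by
  obtain ⟨C, hC⟩ := (isCompact_closedBall (0 : E3) 1).exists_bound_of_continuousOn hw.continuousOn
  exact ⟨|C|, abs_nonneg _, fun y hy => (hC y (by simpa using hy)).trans (le_abs_self _)⟩

lemma exch2 {s : ℝ} (hs : 1 < s) {w : E3 → E3} (hw : Continuous w) {a : ℕ → ℝ} (ha : Rap s a)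
    (Q : ℕ → E3 → E3) (hQ : ∀ n, Continuous (Q n)) (hQ0 : ∀ n y, 1 ≤ ‖y‖ → Q n y = 0)
    (k : ℕ) (C : ℝ) (hC : ∀ n y, ‖Q n y‖ ≤ C * s ^ (k * n)) (G : E3 → E3)
    (hG : ∀ y, HasSum (fun n => a n • Q n y) (G y)) :
    HasSum (fun n => a n * ip w (Q n)) (ip w G) := by
  obtain ⟨W, hW0, hW⟩ := w_bd hw
  have s0 : 0 < s := by linarith
  have h := exch (fun n y => inner ℝ (w y) (a n • Q n y)) (fun n => |a n * (W * C * s ^ (k * n))|)
    (fun n => by
      have := hQ n
      fun_prop)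
    (fun n y hy => by simp [hQ0 n y hy])
    (fun n y => by
      rcases le_or_gt 1 ‖y‖ with hy | hy
      · rw [hQ0 n y hy, smul_zero, inner_zero_right, abs_zero]
        exact abs_nonneg _
      · refine (abs_real_inner_le_norm _ _).trans ?_
        rw [norm_smul, Real.norm_eq_abs, abs_mul]
        have h1 := hW y hy.le
        have h2 := hC n y
        have h3 : W * C * s ^ (k * n) ≤ |W * C * s ^ (k * n)| := le_abs_self _
        calc ‖w y‖ * (|a n| * ‖Q n y‖) = |a n| * (‖w y‖ * ‖Q n y‖) := by ring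
          _ ≤ |a n| * (W * (C * s ^ (k * n))) := by gcongr
          _ ≤ |a n| * |W * C * s ^ (k * n)| := by
              rw [← mul_assoc W]; gcongr)
    (Rap.summable hs (Rap.mul_pol hs ha ((Pol.const (W * C)).mul (Pol.pow hs k))))
    (fun y => inner ℝ (w y) (G y))
    (fun y => by
      have := (hG y).mapL (innerSL ℝ (w y))
      simpa only [innerSL_apply_apply] using this)
  have h2 : (fun n => ∫ y, inner ℝ (w y) (a n • Q n y)) = fun n => a n * ip w (Q n) := by
    funext n
    unfold ip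
    rw [← integral_const_mul]
    refine integral_congr_ae (Eventually.of_forall fun y => ?_)
    simp [inner_smul_right]
  rw [h2] at h
  exact h

lemma hasSum_ser {s : ℝ} (hs : 1 < s) {P : E3 → E3} (hc : Continuous P)
    (hP : ∀ y, 1 / 2 ≤ ‖y‖ → P y = 0) {a : ℕ → ℝ} (ha : Rap s a) (y : E3) :
    HasSum (fun n => a n • pk s P n y) (ser s P a y) := by
  obtain ⟨C, hC0, hC⟩ := pk_bd hs hc hP
  have s0 : 0 < s := by linarith
  refine Summable.hasSum ?_
  refine Summable.of_norm_bounded (g := fun n => |a n * (C * s ^ (3 * n))|)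
    (Rap.summable hs (Rap.mul_pol hs ha ((Pol.const C).mul (Pol.pow hs 3)))) ?_
  intro n
  rw [norm_smul, Real.norm_eq_abs, abs_mul]
  have h1 := hC n y
  have h2 : C * s ^ (3 * n) ≤ |C * s ^ (3 * n)| := le_abs_self _
  gcongr
  exact h1.trans h2

end T6

theorem t_IPS : S_IPS := by
  intro s P hs hc hP w hw a ha
  obtain ⟨C, hC0, hC⟩ := T6.pk_bd hs hc.continuous hP
  exact T6.exch2 hs hw ha (pk s P) (fun n => T6.pk_cont hc.continuous n)
    (fun n y hy => T6.pk_out hs hP n hy) 3 C hC _ (fun y => T6.hasSum_ser hs hc.continuous hP ha y)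

namespace T6

lemma lapl {s : ℝ} {P : E3 → E3} (hs : 1 < s) (hc : ContDiff ℝ ∞ P)
    (hP : ∀ y, 1 / 2 ≤ ‖y‖ → P y = 0) {w : E3 → E3} (hw : Continuous w) {a : ℕ → ℝ}
    (ha : Rap s a) (hsum : ∀ y, HasSum (fun n => a n • lap (pk s P n) y) (lap (ser s P a) y)) :
    HasSum (fun n => a n * ip w (lap (pk s P n))) (ip w (lap (ser s P a))) := by
  obtain ⟨C, hC0, hC⟩ := lap_bd hs hc hP
  refine exch2 hs hw ha (fun n => lap (pk s P n)) (fun n => lap_cont (pk_smooth hc n))
    (fun n y hy => ?_) 7 C hC _ hsum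
  rw [lap_pk hc, lap_out hP (by linarith [norm_dil hs n hy]), smul_zero]

/-- The quadratic term as a double series. -/
lemma quad {s : ℝ} {P : E3 → E3} (hs : 1 < s) (hc : ContDiff ℝ ∞ P)
    (hP : ∀ y, 1 / 2 ≤ ‖y‖ → P y = 0) {w : E3 → E3} (hw : Continuous w) {a : ℕ → ℝ}
    (ha : Rap s a)
    (hsum : ∀ y, HasSum (fun n => a n • fderiv ℝ (pk s P n) y) (fderiv ℝ (ser s P a) y)) :
    HasSum (fun p : ℕ × ℕ => a p.1 * a p.2 * ip w (adv (pk s P p.1) (pk s P p.2)))
      (ip w (adv (ser s P a) (ser s P a))) := by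
  obtain ⟨W, hW0, hW⟩ := w_bd hw
  obtain ⟨C, hC0, hC⟩ := pk_bd hs hc.continuous hP
  obtain ⟨D, hD0, hD⟩ := fderiv_bd hs hc hP
  have s0 : 0 < s := by linarith
  set b1 : ℕ → ℝ := fun m => |a m * (C * s ^ (3 * m))| with hb1
  set b2 : ℕ → ℝ := fun n => |a n * (W * D * s ^ (5 * n))| with hb2
  have hs1 : Summable b1 := Rap.summable hs (Rap.mul_pol hs ha ((Pol.const C).mul (Pol.pow hs 3)))
  have hs2 : Summable b2 :=
    Rap.summable hs (Rap.mul_pol hs ha ((Pol.const (W * D)).mul (Pol.pow hs 5)))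
  have hs12 : Summable fun p : ℕ × ℕ => b1 p.1 * b2 p.2 :=
    hs1.mul_of_nonneg hs2 (fun _ => abs_nonneg _) (fun _ => abs_nonneg _)
  set F : ℕ × ℕ → E3 → ℝ := fun p y =>
    inner ℝ (w y) ((a p.2 • fderiv ℝ (pk s P p.2) y) (a p.1 • pk s P p.1 y)) with hF
  have hFb : ∀ p y, |F p y| ≤ b1 p.1 * b2 p.2 := by
    intro p y
    rcases le_or_gt 1 ‖y‖ with hy | hy
    · simp only [hF, pk_out hs hP p.1 hy, smul_zero, map_zero, inner_zero_right, abs_zero]
      positivity
    · refine (abs_real_inner_le_norm _ _).trans ?_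
      have h1 := hW y hy.le
      have h2 : ‖(a p.2 • fderiv ℝ (pk s P p.2) y) (a p.1 • pk s P p.1 y)‖ ≤
          (|a p.2| * (D * s ^ (5 * p.2))) * (|a p.1| * (C * s ^ (3 * p.1))) := by
        refine (ContinuousLinearMap.le_opNorm _ _).trans ?_
        rw [norm_smul, norm_smul, Real.norm_eq_abs, Real.norm_eq_abs]
        gcongr
        · exact hD _ _
        · exact hC _ _
      calc ‖w y‖ * ‖(a p.2 • fderiv ℝ (pk s P p.2) y) (a p.1 • pk s P p.1 y)‖
          ≤ W * ((|a p.2| * (D * s ^ (5 * p.2))) * (|a p.1| * (C * s ^ (3 * p.1)))) := by gcongr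
        _ = (|a p.1| * (C * s ^ (3 * p.1))) * (|a p.2| * (W * D * s ^ (5 * p.2))) := by ring
        _ ≤ b1 p.1 * b2 p.2 := by
          simp only [hb1, hb2, abs_mul]
          gcongr <;> exact le_abs_self _
  have hG : ∀ y, HasSum (fun p => F p y) (inner ℝ (w y) (adv (ser s P a) (ser s P a) y)) := by
    intro y
    have hsm : Summable fun p => F p y := by
      refine Summable.of_norm_bounded hs12 fun p => ?_
      rw [Real.norm_eq_abs]
      exact hFb p y
    have h1 : ∀ m, HasSum (fun n => F (m, n) y)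
        (inner ℝ (w y) (fderiv ℝ (ser s P a) y (a m • pk s P m y))) := by
      intro m
      have h2 := (hsum y).mapL (ContinuousLinearMap.apply ℝ E3 (a m • pk s P m y))
      have h3 := h2.mapL (innerSL ℝ (w y))
      simpa only [hF, innerSL_apply_apply, ContinuousLinearMap.apply_apply] using h3
    have h2 := hsm.hasSum.prod_fiberwise h1
    have h3 : HasSum (fun m => inner ℝ (w y) (fderiv ℝ (ser s P a) y (a m • pk s P m y)))
        (inner ℝ (w y) (fderiv ℝ (ser s P a) y (ser s P a y))) := by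
      have h4 := ((hasSum_ser hs hc.continuous hP ha y).mapL (fderiv ℝ (ser s P a) y)).mapL
        (innerSL ℝ (w y))
      simpa only [innerSL_apply_apply] using h4
    have h5 : adv (ser s P a) (ser s P a) y = fderiv ℝ (ser s P a) y (ser s P a y) := rfl
    rw [h5, h3.unique h2]
    exact hsm.hasSum
  have hcont : ∀ p, Continuous (F p) := by
    intro p
    have h1 := (pk_smooth (s := s) hc p.2).continuous_fderiv (by simp)
    have h2 := pk_cont (s := s) hc.continuous p.1
    have h3 : Continuous fun y => a p.2 • fderiv ℝ (pk s P p.2) y := by fun_prop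
    have h4 : Continuous fun y => a p.1 • pk s P p.1 y := by fun_prop
    exact hw.inner (h3.clm_apply h4)
  have h := exch F (fun p => b1 p.1 * b2 p.2) hcont
    (fun p y hy => by simp [hF, pk_out hs hP p.1 hy]) hFb hs12 _ hG
  have h2 : (fun p => ∫ y, F p y) =
      fun p : ℕ × ℕ => a p.1 * a p.2 * ip w (adv (pk s P p.1) (pk s P p.2)) := by
    funext p
    unfold ip adv
    rw [← integral_const_mul]
    refine integral_congr_ae (Eventually.of_forall fun y => ?_)
    simp only [hF, smul_apply, map_smul, inner_smul_right]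
    ring
  rw [h2] at h
  exact h

/-- The algebra of the double series. -/
lemma alg {s : ℝ} (hs : 1 < s) {c β : ℝ} {a om : ℕ → ℝ} (ha : Rap s a) (hom : Pol s om)
    {t : ℕ → ℕ → ℝ} {I : ℝ} (hI : HasSum (fun p : ℕ × ℕ => a p.1 * a p.2 * t p.1 p.2) I)
    (hd : ∀ n, t n n = β * (∑ j ∈ Finset.range n, s ^ (5 * j) * om j
      - s ^ (5 * n) * c * om (n + 1)))
    (hx : ∀ m n, m < n → t m n + t n m = β * (-(s ^ (5 * m) * om n)
      + if n = m + 1 then s ^ (5 * m) * c * om m else 0)) :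
    HasSum (fun n => -(β * vq s c a n * om n)) I := by
  have s0 : 0 < s := by linarith
  -- the sequences
  set A : ℕ → ℝ := fun n => a n ^ 2 * ∑ j ∈ Finset.range n, s ^ (5 * j) * om j with hA
  set B : ℕ → ℝ := fun n => s ^ (5 * n) * c * a n ^ 2 * om (n + 1) with hB
  set Y : ℕ → ℝ := fun n => s ^ (5 * n) * c * a n * a (n + 1) * om n with hY
  set Z : ℕ → ℝ := fun n => a n * (∑ i ∈ Finset.range n, s ^ (5 * i) * a i) * om n with hZ
  set X : ℕ → ℝ := fun n => (if n = 0 then 0 else s ^ (5 * (n - 1)) * c * a (n - 1) ^ 2) * om n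
    with hX
  set E : ℕ → ℝ := fun n => if n = 0 then 0 else s ^ (5 * (n - 1)) * c * a (n - 1) * a n * om (n - 1)
    with hE
  set W : ℕ → ℝ := fun n => s ^ (5 * n) * (∑' m : ℕ, a (n + 1 + m) ^ 2) * om n with hW
  -- summability
  have hBs : Summable B := by
    have : Rap s (fun n => a n * (s ^ (5 * n) * c * a n * om (n + 1))) :=
      Rap.mul_pol hs ha ((((Pol.pow hs 5).mul (Pol.const c)).mul (Rap.pol ha)).mul hom.shift)
    refine (Rap.hsum hs this).congr fun n => ?_
    simp only [hB]; ring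
  have hYs : Summable Y := by
    have : Rap s (fun n => a n * (s ^ (5 * n) * c * a (n + 1) * om n)) :=
      Rap.mul_pol hs ha ((((Pol.pow hs 5).mul (Pol.const c)).mul (Rap.pol ha).shift).mul hom)
    refine (Rap.hsum hs this).congr fun n => ?_
    simp only [hY]; ring
  have hZs : Summable Z := by
    have : Rap s (fun n => a n * ((∑ i ∈ Finset.range n, s ^ (5 * i) * a i) * om n)) :=
      Rap.mul_pol hs ha ((Rap.psum hs ha).mul hom)
    refine (Rap.hsum hs this).congr fun n => ?_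
    simp only [hZ]; ring
  -- the double series
  obtain ⟨k, C, hC⟩ := (Pol.pow hs 5).mul hom
  set g : ℕ × ℕ → ℝ := fun p => s ^ (5 * p.1) * om p.1 * a (p.1 + 1 + p.2) ^ 2 with hg
  have hgs : Summable g := by
    obtain ⟨M, hM⟩ := ha (k + 1)
    obtain ⟨M0, hM0⟩ := ha 0
    have hM00 : 0 ≤ M0 := (by simpa using hM0 0 : |a 0| ≤ M0) |> (abs_nonneg _).trans
    have hMM : 0 ≤ M := (by positivity : 0 ≤ s ^ ((k + 1) * 0) * |a 0|).trans (hM 0)
    have hC0 : 0 ≤ C := by
      have := (abs_nonneg _).trans (hC 0)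
      simpa using this
    have hgeo : Summable (fun n : ℕ => (s⁻¹) ^ n) :=
      summable_geometric_of_lt_one (by positivity) (inv_lt_one_of_one_lt₀ hs)
    have hgg : Summable fun p : ℕ × ℕ => C * M * M0 * ((s⁻¹) ^ p.1 * (s⁻¹) ^ p.2) :=
      (hgeo.mul_of_nonneg hgeo (fun _ => by positivity) (fun _ => by positivity)).mul_left _
    refine Summable.of_norm_bounded hgg fun p => ?_
    rw [Real.norm_eq_abs]
    simp only [hg]
    rw [abs_mul, abs_pow, sq]
    have h1 := hC p.1
    have h2 := hM (p.1 + 1 + p.2)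
    have h3 : |a (p.1 + 1 + p.2)| ≤ M0 := by simpa using hM0 (p.1 + 1 + p.2)
    have h4 : s ^ (k * p.1) * s ^ p.1 * s ^ p.2 * |a (p.1 + 1 + p.2)| ≤ M := by
      refine le_trans ?_ h2
      have h5 : s ^ (k * p.1) * s ^ p.1 * s ^ p.2 ≤ s ^ ((k + 1) * (p.1 + 1 + p.2)) := by
        rw [← pow_add, ← pow_add]
        refine pow_le_pow_right₀ hs.le ?_
        nlinarith [Nat.zero_le (k * p.2), Nat.zero_le k]
      gcongr
    have h6 : |a (p.1 + 1 + p.2)| ≤ M * ((s ^ (k * p.1))⁻¹ * (s⁻¹) ^ p.1 * (s⁻¹) ^ p.2) := by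
      rw [inv_pow, inv_pow, ← mul_inv, ← mul_inv, ← div_eq_mul_inv, le_div_iff₀ (by positivity)]
      rw [mul_comm]; exact h4
    calc |s ^ (5 * p.1) * om p.1| * (|a (p.1 + 1 + p.2)| * |a (p.1 + 1 + p.2)|)
        ≤ (C * s ^ (k * p.1)) * ((M * ((s ^ (k * p.1))⁻¹ * (s⁻¹) ^ p.1 * (s⁻¹) ^ p.2)) * M0) := by
          gcongr
      _ = C * M * M0 * ((s⁻¹) ^ p.1 * (s⁻¹) ^ p.2) * (s ^ (k * p.1) * (s ^ (k * p.1))⁻¹) := by ring
      _ = C * M * M0 * ((s⁻¹) ^ p.1 * (s⁻¹) ^ p.2) := by
          rw [mul_inv_cancel₀ (by positivity), mul_one]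
  have hsq : Rap s (fun n => a n * a n) := Rap.mul_pol hs ha (Rap.pol ha)
  have hWh : HasSum W (∑' p, g p) := by
    refine hgs.hasSum.prod_fiberwise fun n => ?_
    have h1 : Summable fun m : ℕ => a (n + 1 + m) ^ 2 := by
      have := (summable_nat_add_iff (f := fun n => a n * a n) (n + 1)).2 (Rap.hsum hs hsq)
      refine this.congr fun m => ?_
      rw [add_comm m (n + 1)]; ring
    have h2 := h1.hasSum.mul_left (s ^ (5 * n) * om n)
    have h3 : W n = s ^ (5 * n) * om n * ∑' m : ℕ, a (n + 1 + m) ^ 2 := by simp only [hW]; ring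
    rw [h3]
    exact h2
  have hAh : HasSum A (∑' p, g p) := by
    refine hasSum_shift (by simp [hA]) ?_
    have h1 : HasSum (g ∘ Finset.HasAntidiagonal.sigmaAntidiagonalEquivProd) (∑' p, g p) :=
      (Finset.HasAntidiagonal.sigmaAntidiagonalEquivProd.hasSum_iff).2 hgs.hasSum
    have h2 := h1.sigma (fun n => hasSum_fintype _)
    have h3 : (fun n => A (n + 1)) = fun n => ∑ c : Finset.HasAntidiagonal.antidiagonal n,
        (g ∘ Finset.HasAntidiagonal.sigmaAntidiagonalEquivProd) ⟨n, c⟩ := by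
      funext n
      have h4 : ∑ c : Finset.HasAntidiagonal.antidiagonal n, (g ∘ Finset.HasAntidiagonal.sigmaAntidiagonalEquivProd) ⟨n, c⟩ =
          ∑ p ∈ Finset.HasAntidiagonal.antidiagonal n, g p :=
        Finset.sum_coe_sort (Finset.HasAntidiagonal.antidiagonal n) g
      rw [h4, Finset.Nat.sum_antidiagonal_eq_sum_range_succ_mk]
      simp only [hA, hg]
      rw [Finset.mul_sum]
      refine Finset.sum_congr rfl fun j hj => ?_
      have h5 : j + 1 + (n - j) = n + 1 := by
        have := Finset.mem_range.1 hj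
        omega
      rw [h5]; ring
    rw [h3]
    exact h2
  have hXh : HasSum X (∑' n, B n) := by
    refine hasSum_shift (by simp [hX]) ?_
    refine hBs.hasSum.congr_fun ?_
    intro n
    simp only [hX, hB]
    simp
  have hEh : HasSum E (∑' n, Y n) := by
    refine hasSum_shift (by simp [hE]) ?_
    refine hYs.hasSum.congr_fun ?_
    intro n
    simp only [hE, hY]
    simp
  -- partial sums
  have hS : ∀ N, ∑ p ∈ Finset.range N ×ˢ Finset.range N, a p.1 * a p.2 * t p.1 p.2 =
      ∑ n ∈ Finset.range N, β * (A n - B n - Z n + E n) := by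
    intro N
    rw [Finset.sum_product]
    induction N with
    | zero => simp
    | succ N ih =>
      rw [Finset.sum_range_succ _ N, Finset.sum_range_succ _ N, Finset.sum_range_succ _ N, ← ih]
      have h1 : ∑ x ∈ Finset.range N, ∑ y ∈ Finset.range (N + 1), a x * a y * t x y =
          ∑ x ∈ Finset.range N, ∑ y ∈ Finset.range N, a x * a y * t x y +
          ∑ x ∈ Finset.range N, a x * a N * t x N := by
        rw [← Finset.sum_add_distrib]
        exact Finset.sum_congr rfl fun x _ => Finset.sum_range_succ _ N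
      have h2 : ∑ x ∈ Finset.range N, a x * a N * t x N + ∑ y ∈ Finset.range N, a N * a y * t N y =
          β * (-Z N + E N) := by
        rw [← Finset.sum_add_distrib]
        have h3 : ∀ x ∈ Finset.range N, a x * a N * t x N + a N * a x * t N x =
            β * (-(a N * (s ^ (5 * x) * a x) * om N) +
              (if N = x + 1 then s ^ (5 * x) * c * a x * a N * om x else 0)) := by
          intro x hx'
          have h4 := hx x N (Finset.mem_range.1 hx')
          have h5 : a x * a N * t x N + a N * a x * t N x = a x * a N * (t x N + t N x) := by ring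
          rw [h5, h4]
          split_ifs <;> ring
        rw [Finset.sum_congr rfl h3, ← Finset.mul_sum, Finset.sum_add_distrib]
        congr 2
        · simp only [hZ]
          rw [Finset.sum_neg_distrib, Finset.mul_sum, Finset.sum_mul]
        · rcases N with _ | k
          · simp [hE]
          · rw [Finset.sum_range_succ]
            have h6 : ∑ x ∈ Finset.range k, (if k + 1 = x + 1 then
                s ^ (5 * x) * c * a x * a (k + 1) * om x else 0) = 0 := by
              refine Finset.sum_eq_zero fun x hx' => ?_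
              have := Finset.mem_range.1 hx'
              rw [if_neg (by omega)]
            rw [h6]
            simp [hE]
      have h7 : a N * a N * t N N = β * (A N - B N) := by
        rw [hd N]
        simp only [hA, hB]; ring
      rw [h1]
      linear_combination h2 + h7
  have hD : HasSum (fun n => β * (A n - B n - Z n + E n))
      (β * ((∑' p, g p) - (∑' n, B n) - (∑' n, Z n) + (∑' n, Y n))) :=
    (((hAh.sub hBs.hasSum).sub hZs.hasSum).add hEh).mul_left β
  have hfin : HasSum (fun n => -(β * vq s c a n * om n))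
      (β * ((∑' p, g p) - (∑' n, B n) - (∑' n, Z n) + (∑' n, Y n))) := by
    have h1 := (((hWh.sub hXh).sub hZs.hasSum).add hYs.hasSum).mul_left β
    refine h1.congr_fun fun n => ?_
    simp only [hW, hX, hZ, hY, vq]
    ring
  have hT1 : Tendsto (fun N => ∑ p ∈ Finset.range N ×ˢ Finset.range N, a p.1 * a p.2 * t p.1 p.2)
      atTop (𝓝 I) := by
    have h1 : Tendsto (fun N : ℕ => Finset.range N ×ˢ Finset.range N) atTop atTop :=
      Filter.tendsto_finsetProd_atTop.comp (by
        rw [← prod_atTop_atTop_eq]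
        exact tendsto_finset_range.prodMk tendsto_finset_range)
    exact hI.comp h1
  have hT2 : Tendsto (fun N => ∑ p ∈ Finset.range N ×ˢ Finset.range N, a p.1 * a p.2 * t p.1 p.2)
      atTop (𝓝 (β * ((∑' p, g p) - (∑' n, B n) - (∑' n, Z n) + (∑' n, Y n)))) := by
    simp_rw [hS]
    exact hD.tendsto_sum_nat
  rw [tendsto_nhds_unique hT1 hT2]
  exact hfin

end T6

theorem t_QUAD : S_SER1 → S_QUAD := by
  intro hSER ι s c β lam P r hs hT w hw hwr a ha
  have hc : ContDiff ℝ ∞ P := hT.sm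
  have hP := hT.out
  have hwc : Continuous w := hw
  obtain ⟨-, -, h1, h2, -⟩ := (hSER s P hs hc hP).1 a ha
  constructor
  · have h := T6.lapl hs hc hP hwc ha h2
    refine h.congr_fun fun n => ?_
    rw [hT.lapl w hw hwr n]
    ring
  · have h := T6.quad hs hc hP hwc ha h1
    obtain ⟨C, hC0, hC⟩ := T6.pk_bd hs hc.continuous hP
    have hom : T6.Pol s (fun n => ip w (pk s P n)) := by
      obtain ⟨W, hW0, hW⟩ := T6.w_bd hwc
      have s0 : 0 < s := by linarith
      refine ⟨3, W * C * volume.real (Metric.closedBall (0 : E3) 1), fun n => ?_⟩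
      show |∫ y, inner ℝ (w y) (pk s P n y)| ≤ _
      have e1 : ∫ y, inner ℝ (w y) (pk s P n y) =
          ∫ y in Metric.closedBall (0 : E3) 1, inner ℝ (w y) (pk s P n y) := by
        refine (setIntegral_eq_integral_of_forall_compl_eq_zero ?_).symm
        intro y hy
        simp only [Metric.mem_closedBall, dist_zero_right, not_le] at hy
        rw [T6.pk_out hs hP n hy.le, inner_zero_right]
      rw [e1]
      have e2 := norm_setIntegral_le_of_norm_le_const (μ := (volume : Measure E3))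
        (s := Metric.closedBall (0 : E3) 1) (f := fun y => inner ℝ (w y) (pk s P n y))
        (C := W * (C * s ^ (3 * n)))
        (isCompact_closedBall (0 : E3) 1).measure_lt_top
        (fun y hy => by
          have hy' : ‖y‖ ≤ 1 := by simpa using hy
          rw [Real.norm_eq_abs]
          refine (abs_real_inner_le_norm _ _).trans ?_
          have := hW y hy'
          have := hC n y
          gcongr)
      rw [Real.norm_eq_abs] at e2
      refine e2.trans (le_of_eq ?_)
      ring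
    exact T6.alg hs ha hom h (fun n => hT.diag w hw hwr n) (fun m n hmn => hT.cross w hw hwr m n hmn)

end Pool.Agent.N976.SC
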