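import Pool.Agent.N976.SC.T78

/-!
# Step T10: all time derivatives of the solution of the reduced system decay rapidly
-/

open Set Filter Topology MeasureTheory
open scoped ContDiff

set_option autoImplicit false

namespace Pool.Agent.N976.SC

/-- (T10) All time derivatives of the solution of the reduced system are rapidly decreasing. -/
def S_SMT : Prop := ∀ (s c T : ℝ) (x : ℕ → ℝ → ℝ), 1 < s → RapT s T x →
  (∀ n, ∀ t ∈ Ico 0 T, HasDerivWithinAt (x n) (vf s c (fun m => x m t) n) (Ico 0 T) t) →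
  ∃ y : ℕ → ℕ → ℝ → ℝ, y 0 = x ∧ (∀ k, RapT s T (y k)) ∧
    ∀ k n, ∀ t ∈ Ico 0 T, HasDerivWithinAt (y k n) (y (k + 1) n t) (Ico 0 T) t

namespace T10

open T78

/-! ### Rapid decay -/

lemma rap_congr {s T : ℝ} {a b : ℕ → ℝ → ℝ} (h : ∀ n, ∀ t ∈ Ico 0 T, a n t = b n t)
    (ha : RapT s T a) : RapT s T b := by
  intro k T' hT'
  obtain ⟨M, hM⟩ := ha k T' hT'
  exact ⟨M, fun t ht n => by rw [← h n t ⟨ht.1, ht.2.trans_lt hT'⟩]; exact hM t ht n⟩

lemma rap_add {s T : ℝ} (hs : 1 < s) {a b : ℕ → ℝ → ℝ} (ha : RapT s T a) (hb : RapT s T b) :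
    RapT s T (fun n t => a n t + b n t) := by
  intro k T' hT'
  obtain ⟨M, hM⟩ := ha k T' hT'
  obtain ⟨N, hN⟩ := hb k T' hT'
  refine ⟨M + N, fun t ht n => ?_⟩
  have hp : (0 : ℝ) < s ^ (k * n) := pow_pos (by linarith) _
  calc s ^ (k * n) * |a n t + b n t| ≤ s ^ (k * n) * (|a n t| + |b n t|) := by
        gcongr; exact abs_add_le _ _
    _ = s ^ (k * n) * |a n t| + s ^ (k * n) * |b n t| := by ring
    _ ≤ M + N := add_le_add (hM t ht n) (hN t ht n)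

lemma rap_w {s T : ℝ} (hs : 1 < s) {a : ℕ → ℝ → ℝ} (ha : RapT s T a) (w : ℕ → ℝ) (C : ℝ) (j : ℕ)
    (hw : ∀ n, |w n| ≤ C * s ^ (j * n)) : RapT s T (fun n t => w n * a n t) := by
  intro k T' hT'
  obtain ⟨M, hM⟩ := ha (k + j) T' hT'
  refine ⟨C * M, fun t ht n => ?_⟩
  have hp : (0 : ℝ) < s ^ (k * n) := pow_pos (by linarith) _
  have hC : 0 ≤ C := by
    have := (abs_nonneg _).trans (hw 0)
    simpa using this
  calc s ^ (k * n) * |w n * a n t| = s ^ (k * n) * |w n| * |a n t| := by rw [abs_mul]; ring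
    _ ≤ s ^ (k * n) * (C * s ^ (j * n)) * |a n t| := by gcongr; exact hw n
    _ = C * (s ^ ((k + j) * n) * |a n t|) := by rw [add_mul, pow_add]; ring
    _ ≤ C * M := by gcongr; exact hM t ht n

lemma rap_up {s T : ℝ} (hs : 1 < s) {a : ℕ → ℝ → ℝ} (ha : RapT s T a) :
    RapT s T (fun n t => a (n + 1) t) := by
  intro k T' hT'
  obtain ⟨M, hM⟩ := ha k T' hT'
  refine ⟨M, fun t ht n => ?_⟩
  refine le_trans ?_ (hM t ht (n + 1))
  gcongr
  · exact hs.le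
  · omega

lemma rap_down {s T : ℝ} (hs : 1 < s) {a : ℕ → ℝ → ℝ} (ha : RapT s T a) :
    RapT s T (fun n t => if n = 0 then 0 else a (n - 1) t) := by
  intro k T' hT'
  obtain ⟨M, hM⟩ := ha k T' hT'
  refine ⟨s ^ k * M, fun t ht n => ?_⟩
  have hs0 : (0 : ℝ) < s := by linarith
  have hM0 : 0 ≤ M := le_trans (by positivity) (hM t ht 0)
  rcases Nat.eq_zero_or_pos n with h | h
  · subst h
    simp only [if_true, abs_zero, mul_zero]
    positivity
  · obtain ⟨m, rfl⟩ : ∃ m, n = m + 1 := ⟨n - 1, by omega⟩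
    beta_reduce
    rw [if_neg (Nat.succ_ne_zero m), Nat.add_sub_cancel]
    calc s ^ (k * (m + 1)) * |a m t| = s ^ k * (s ^ (k * m) * |a m t|) := by ring
      _ ≤ s ^ k * M := by gcongr; exact hM t ht m

lemma rap_mul {s T : ℝ} (hs : 1 < s) {a b : ℕ → ℝ → ℝ} (ha : RapT s T a) (hb : RapT s T b) :
    RapT s T (fun n t => a n t * b n t) := by
  intro k T' hT'
  obtain ⟨M, hM⟩ := ha k T' hT'
  obtain ⟨N, hN⟩ := hb 0 T' hT'
  refine ⟨M * N, fun t ht n => ?_⟩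
  have hs0 : (0 : ℝ) < s := by linarith
  have hM0 : 0 ≤ M := le_trans (by positivity) (hM t ht 0)
  have h2 : |b n t| ≤ N := weak0 hs (hN t ht n)
  calc s ^ (k * n) * |a n t * b n t| = (s ^ (k * n) * |a n t|) * |b n t| := by
        rw [abs_mul]; ring
    _ ≤ M * N := mul_le_mul (hM t ht n) h2 (abs_nonneg _) hM0

lemma rap_ps {s T : ℝ} (hs : 1 < s) {a b : ℕ → ℝ → ℝ} (ha : RapT s T a) (hb : RapT s T b) :
    RapT s T (fun n t => a n t * ∑ i ∈ Finset.range n, s ^ (5 * i) * b i t) := by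
  intro k T' hT'
  obtain ⟨M, hM⟩ := ha k T' hT'
  obtain ⟨N, hN⟩ := hb (5 + 1) T' hT'
  refine ⟨M * (N * (1 - s⁻¹)⁻¹), fun t ht n => ?_⟩
  have hs0 : (0 : ℝ) < s := by linarith
  have hM0 : 0 ≤ M := le_trans (by positivity) (hM t ht 0)
  have hN0 : 0 ≤ N := le_trans (by positivity) (hN t ht 0)
  have h2 : |∑ i ∈ Finset.range n, s ^ (5 * i) * b i t| ≤ N * (1 - s⁻¹)⁻¹ := by
    calc |∑ i ∈ Finset.range n, s ^ (5 * i) * b i t| ≤
        ∑ i ∈ Finset.range n, |s ^ (5 * i) * b i t| := Finset.abs_sum_le_sum_abs _ _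
      _ ≤ ∑ i ∈ Finset.range n, N * s⁻¹ ^ i := by
          refine Finset.sum_le_sum fun i _ => ?_
          rw [abs_mul, abs_of_pos (pow_pos hs0 _)]
          exact room hs (hN t ht i)
      _ = N * ∑ i ∈ Finset.range n, s⁻¹ ^ i := by rw [Finset.mul_sum]
      _ ≤ N * (1 - s⁻¹)⁻¹ := by gcongr; exact sum_geo hs n
  calc s ^ (k * n) * |a n t * ∑ i ∈ Finset.range n, s ^ (5 * i) * b i t| =
        (s ^ (k * n) * |a n t|) * |∑ i ∈ Finset.range n, s ^ (5 * i) * b i t| := by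
        rw [abs_mul]; ring
    _ ≤ M * (N * (1 - s⁻¹)⁻¹) := mul_le_mul (hM t ht n) h2 (abs_nonneg _) hM0

/-- a rapidly decreasing family is dominated by a geometric series -/
lemma rap_geo {s : ℝ} (hs : 1 < s) {k n m : ℕ} {a M : ℝ}
    (h : s ^ ((k + 1) * (n + 1 + m)) * |a| ≤ M) : s ^ (k * n) * |a| ≤ M * s⁻¹ ^ m := by
  have hs0 : (0 : ℝ) < s := by linarith
  have h0 : (0 : ℝ) ≤ s⁻¹ := inv_nonneg.2 hs0.le
  have h1 : s⁻¹ ≤ 1 := (inv_lt_one_of_one_lt₀ hs).le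
  have hM0 : 0 ≤ M := le_trans (by positivity) h
  calc s ^ (k * n) * |a| ≤ s ^ (k * (n + 1 + m)) * |a| := by
        gcongr
        · exact hs.le
        · omega
    _ ≤ M * s⁻¹ ^ (n + 1 + m) := room hs h
    _ ≤ M * s⁻¹ ^ m := by
        gcongr ?_ * ?_
        exact pow_le_pow_of_le_one h0 h1 (by omega)

lemma rap_tail {s T : ℝ} (hs : 1 < s) {a : ℕ → ℝ → ℝ} (ha : RapT s T a) :
    RapT s T (fun n t => ∑' m : ℕ, a (n + 1 + m) t) := by
  intro k T' hT'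
  obtain ⟨M, hM⟩ := ha (k + 1) T' hT'
  refine ⟨M * (1 - s⁻¹)⁻¹, fun t ht n => ?_⟩
  have hs0 : (0 : ℝ) < s := by linarith
  have h0 : (0 : ℝ) ≤ s⁻¹ := inv_nonneg.2 hs0.le
  have h1 : s⁻¹ < 1 := inv_lt_one_of_one_lt₀ hs
  have hb : ∀ m, s ^ (k * n) * |a (n + 1 + m) t| ≤ M * s⁻¹ ^ m := fun m =>
    rap_geo hs (hM t ht (n + 1 + m))
  have hg : HasSum (fun m : ℕ => M * s⁻¹ ^ m) (M * (1 - s⁻¹)⁻¹) :=
    (hasSum_geometric_of_lt_one h0 h1).mul_left _
  have hsm : Summable (fun m : ℕ => s ^ (k * n) * |a (n + 1 + m) t|) :=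
    Summable.of_nonneg_of_le (fun m => by positivity) hb hg.summable
  have hp : (0 : ℝ) < s ^ (k * n) := pow_pos hs0 _
  have hsm2 : Summable (fun m : ℕ => |a (n + 1 + m) t|) := by
    have := hsm.mul_left (s ^ (k * n))⁻¹
    refine this.congr fun m => ?_
    field_simp
  calc s ^ (k * n) * |∑' m : ℕ, a (n + 1 + m) t| ≤ s ^ (k * n) * ∑' m : ℕ, |a (n + 1 + m) t| := by
        gcongr
        have := norm_tsum_le_tsum_norm (f := fun m : ℕ => a (n + 1 + m) t) hsm2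
        simpa [Real.norm_eq_abs] using this
    _ = ∑' m : ℕ, s ^ (k * n) * |a (n + 1 + m) t| := by rw [tsum_mul_left]
    _ ≤ M * (1 - s⁻¹)⁻¹ := hasSum_le hb hsm.hasSum hg

/-! ### Derivatives -/

/-- `a'` is the time derivative of `a` -/
def Der (T : ℝ) (a a' : ℕ → ℝ → ℝ) : Prop :=
  ∀ n, ∀ t ∈ Ico 0 T, HasDerivWithinAt (a n) (a' n t) (Ico 0 T) t

/-- Differentiation of the tail sums. -/
lemma der_tail {s T : ℝ} (hs : 1 < s) {a a' : ℕ → ℝ → ℝ} (ha : RapT s T a) (ha' : RapT s T a')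
    (hd : Der T a a') :
    Der T (fun n t => ∑' m : ℕ, a (n + 1 + m) t) (fun n t => ∑' m : ℕ, a' (n + 1 + m) t) := by
  intro n t ht
  have hs0 : (0 : ℝ) < s := by linarith
  have h0 : (0 : ℝ) ≤ s⁻¹ := inv_nonneg.2 hs0.le
  have h1 : s⁻¹ < 1 := inv_lt_one_of_one_lt₀ hs
  obtain ⟨T', hT1, hT2⟩ := exists_between ht.2
  obtain ⟨M, hM⟩ := ha' (0 + 1) T' hT2
  obtain ⟨N, hN⟩ := ha (0 + 1) T' hT2
  have hsub : Icc 0 T' ⊆ Ico 0 T := fun τ hτ => ⟨hτ.1, hτ.2.trans_lt hT2⟩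
  have htT' : t ∈ Icc 0 T' := ⟨ht.1, hT1.le⟩
  have hb : ∀ m, ∀ τ ∈ Icc 0 T', |a' (n + 1 + m) τ| ≤ M * s⁻¹ ^ m := fun m τ hτ => by
    have := rap_geo (k := 0) hs (hM τ hτ (n + 1 + m))
    simpa using this
  have hb2 : ∀ m, ∀ τ ∈ Icc 0 T', |a (n + 1 + m) τ| ≤ N * s⁻¹ ^ m := fun m τ hτ => by
    have := rap_geo (k := 0) hs (hN τ hτ (n + 1 + m))
    simpa using this
  have hgeo : ∀ C : ℝ, Summable (fun m : ℕ => C * s⁻¹ ^ m) := fun C =>
    (summable_geometric_of_lt_one h0 h1).mul_left _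
  have hsa : ∀ τ ∈ Icc 0 T', Summable (fun m : ℕ => a (n + 1 + m) τ) := fun τ hτ =>
    Summable.of_norm_bounded (hgeo N) (fun m => hb2 m τ hτ)
  have key : HasDerivWithinAt (fun t => ∑' m : ℕ, a (n + 1 + m) t)
      (∑' m : ℕ, a' (n + 1 + m) t) (Icc 0 T') t := by
    rw [hasDerivWithinAt_iff_tendsto_slope]
    have hlim : Tendsto (fun τ => ∑' m : ℕ, slope (a (n + 1 + m)) t τ) (𝓝[Icc 0 T' \ {t}] t)
        (𝓝 (∑' m : ℕ, a' (n + 1 + m) t)) := by
      refine tendsto_tsum_of_dominated_convergence (bound := fun m : ℕ => M * s⁻¹ ^ m) (hgeo M)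
        (fun m => ?_) ?_
      · have := (hd (n + 1 + m) t ht).mono hsub
        rwa [hasDerivWithinAt_iff_tendsto_slope] at this
      · filter_upwards [self_mem_nhdsWithin] with τ hτ m
        have h3 := (convex_Icc (0 : ℝ) T').norm_image_sub_le_of_norm_hasDerivWithin_le
          (f := a (n + 1 + m)) (f' := a' (n + 1 + m)) (C := M * s⁻¹ ^ m)
          (fun x hx => (hd (n + 1 + m) x (hsub hx)).mono hsub) (fun x hx => hb m x hx) htT' hτ.1
        have h4 : 0 < ‖τ - t‖ := norm_pos_iff.2 (sub_ne_zero.2 hτ.2)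
        rw [slope_def_field, norm_div, div_le_iff₀ h4]
        exact h3
    refine hlim.congr' ?_
    filter_upwards [self_mem_nhdsWithin] with τ hτ
    simp only [slope_def_field]
    rw [tsum_div_const, (hsa τ hτ.1).tsum_sub (hsa t htT')]
  have hmem : Icc 0 T' ∈ 𝓝[Ico 0 T] t := by
    rw [mem_nhdsWithin]
    exact ⟨Iio T', isOpen_Iio, hT1, fun τ hτ => ⟨hτ.2.1, le_of_lt hτ.1⟩⟩
  exact key.mono_of_mem_nhdsWithin hmem

/-- families with `k` rapidly decreasing derivatives -/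
def D (s T : ℝ) : ℕ → (ℕ → ℝ → ℝ) → Prop
  | 0, a => RapT s T a
  | k + 1, a => RapT s T a ∧ ∃ a', Der T a a' ∧ D s T k a'

lemma D.rap {s T : ℝ} {k : ℕ} {a : ℕ → ℝ → ℝ} (h : D s T k a) : RapT s T a := by
  cases k with
  | zero => exact h
  | succ k => exact h.1

lemma D.pred {s T : ℝ} : ∀ {k : ℕ} {a : ℕ → ℝ → ℝ}, D s T (k + 1) a → D s T k a
  | 0, _, h => h.1
  | k + 1, _, h => by
      obtain ⟨h1, a', h2, h3⟩ := h
      exact ⟨h1, a', h2, h3.pred⟩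

lemma D.congr {s T : ℝ} {k : ℕ} {a b : ℕ → ℝ → ℝ} (h : ∀ n, ∀ t ∈ Ico 0 T, a n t = b n t)
    (ha : D s T k a) : D s T k b := by
  cases k with
  | zero => exact rap_congr h ha
  | succ k =>
    obtain ⟨h1, a', h2, h3⟩ := ha
    refine ⟨rap_congr h h1, a', fun n t ht => ?_, h3⟩
    exact (h2 n t ht).congr (fun τ hτ => (h n τ hτ).symm) (h n t ht).symm

lemma D.add {s T : ℝ} (hs : 1 < s) : ∀ {k : ℕ} {a b : ℕ → ℝ → ℝ}, D s T k a → D s T k b →
    D s T k (fun n t => a n t + b n t)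
  | 0, _, _, ha, hb => rap_add hs ha hb
  | k + 1, _, _, ha, hb => by
      obtain ⟨h1, a', h2, h3⟩ := ha
      obtain ⟨g1, b', g2, g3⟩ := hb
      exact ⟨rap_add hs h1 g1, _, fun n t ht => (h2 n t ht).add (g2 n t ht), D.add hs h3 g3⟩

lemma D.w {s T : ℝ} (hs : 1 < s) (w : ℕ → ℝ) (C : ℝ) (j : ℕ) (hw : ∀ n, |w n| ≤ C * s ^ (j * n)) :
    ∀ {k : ℕ} {a : ℕ → ℝ → ℝ}, D s T k a → D s T k (fun n t => w n * a n t)
  | 0, _, ha => rap_w hs ha w C j hw
  | k + 1, _, ha => by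
      obtain ⟨h1, a', h2, h3⟩ := ha
      exact ⟨rap_w hs h1 w C j hw, _, fun n t ht => (h2 n t ht).const_mul (w n),
        D.w hs w C j hw h3⟩

lemma D.up {s T : ℝ} (hs : 1 < s) : ∀ {k : ℕ} {a : ℕ → ℝ → ℝ}, D s T k a →
    D s T k (fun n t => a (n + 1) t)
  | 0, _, ha => rap_up hs ha
  | k + 1, _, ha => by
      obtain ⟨h1, a', h2, h3⟩ := ha
      exact ⟨rap_up hs h1, _, fun n t ht => h2 (n + 1) t ht, D.up hs h3⟩

lemma D.down {s T : ℝ} (hs : 1 < s) : ∀ {k : ℕ} {a : ℕ → ℝ → ℝ}, D s T k a →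
    D s T k (fun n t => if n = 0 then 0 else a (n - 1) t)
  | 0, _, ha => rap_down hs ha
  | k + 1, _, ha => by
      obtain ⟨h1, a', h2, h3⟩ := ha
      refine ⟨rap_down hs h1, _, fun n t ht => ?_, D.down hs h3⟩
      by_cases h : n = 0
      · simp only [h, if_true]
        exact hasDerivWithinAt_const _ _ _
      · simp only [h, if_false]
        exact h2 (n - 1) t ht

lemma D.mul {s T : ℝ} (hs : 1 < s) : ∀ {k : ℕ} {a b : ℕ → ℝ → ℝ}, D s T k a → D s T k b →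
    D s T k (fun n t => a n t * b n t)
  | 0, _, _, ha, hb => rap_mul hs ha hb
  | k + 1, a, b, ha, hb => by
      have ha0 := ha.pred
      have hb0 := hb.pred
      obtain ⟨h1, a', h2, h3⟩ := ha
      obtain ⟨g1, b', g2, g3⟩ := hb
      exact ⟨rap_mul hs h1 g1, _, fun n t ht => (h2 n t ht).mul (g2 n t ht),
        D.add hs (D.mul hs h3 hb0) (D.mul hs ha0 g3)⟩

lemma D.ps {s T : ℝ} (hs : 1 < s) : ∀ {k : ℕ} {a b : ℕ → ℝ → ℝ}, D s T k a → D s T k b →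
    D s T k (fun n t => a n t * ∑ i ∈ Finset.range n, s ^ (5 * i) * b i t)
  | 0, _, _, ha, hb => rap_ps hs ha hb
  | k + 1, a, b, ha, hb => by
      have ha0 := ha.pred
      have hb0 := hb.pred
      obtain ⟨h1, a', h2, h3⟩ := ha
      obtain ⟨g1, b', g2, g3⟩ := hb
      refine ⟨rap_ps hs h1 g1, _, fun n t ht => ?_,
        D.add hs (D.ps hs h3 hb0) (D.ps hs ha0 g3)⟩
      exact (h2 n t ht).mul (HasDerivWithinAt.fun_sum fun i _ => (g2 i t ht).const_mul _)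

lemma D.tail {s T : ℝ} (hs : 1 < s) : ∀ {k : ℕ} {a : ℕ → ℝ → ℝ}, D s T k a →
    D s T k (fun n t => ∑' m : ℕ, a (n + 1 + m) t)
  | 0, _, ha => rap_tail hs ha
  | k + 1, _, ha => by
      obtain ⟨h1, a', h2, h3⟩ := ha
      exact ⟨rap_tail hs h1, _, der_tail hs h1 h3.rap h2, D.tail hs h3⟩

/-- the right-hand side of the reduced system -/
lemma D.vf {s T : ℝ} (c : ℝ) (hs : 1 < s) {k : ℕ} {x : ℕ → ℝ → ℝ} (hx : D s T k x) :
    D s T k (fun n t => Pool.Agent.N976.SC.vf s c (fun m => x m t) n) := by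
  have hs0 : (0 : ℝ) < s := by linarith
  have h1 := hx.w hs (fun n => -(9 / 10 * s ^ (4 * n) / s ^ 4)) (9 / 10 / s ^ 4) 4 (fun n => by
    rw [abs_neg, abs_of_nonneg (by positivity)]
    exact le_of_eq (by ring))
  have h2 := (D.down hs ((hx.mul hs hx).w hs (fun n => s ^ (5 * n) * c) |c| 5 (fun n => by
    rw [abs_mul, abs_of_pos (pow_pos hs0 _), mul_comm])))
  have h3 := ((hx.mul hs (hx.up hs)).w hs (fun n => -(s ^ (5 * n) * c)) |c| 5 (fun n => by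
    rw [abs_neg, abs_mul, abs_of_pos (pow_pos hs0 _), mul_comm]))
  have h4 := hx.ps hs hx
  have h5 := ((hx.mul hs hx).tail hs).w hs (fun n => -s ^ (5 * n)) 1 5 (fun n => by
    rw [abs_neg, abs_of_pos (pow_pos hs0 _), one_mul])
  refine D.congr ?_ (h1.add hs ((h2.add hs h3).add hs (h4.add hs h5)))
  intro n t _
  simp only [Pool.Agent.N976.SC.vf, vq]
  rcases Nat.eq_zero_or_pos n with h | h
  · subst h
    simp only [if_true, Finset.range_zero, Finset.sum_empty, sq]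
    ring
  · simp only [if_neg (show n ≠ 0 by omega), sq]
    ring

end T10

open T10

theorem t_SMT : S_SMT := by
  intro s c T x hs hx hd
  have hD : ∀ k, D s T k x := by
    intro k
    induction k with
    | zero => exact hx
    | succ k ih => exact ⟨hx, _, hd, ih.vf c hs⟩
  have step : ∀ a : {a : ℕ → ℝ → ℝ // ∀ k, D s T k a},
      ∃ a' : {a : ℕ → ℝ → ℝ // ∀ k, D s T k a}, Der T a.1 a'.1 := by
    rintro ⟨a, ha⟩
    obtain ⟨_, a', h2, _⟩ := ha 1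
    refine ⟨⟨a', fun k => ?_⟩, h2⟩
    obtain ⟨_, b, g2, g3⟩ := ha (k + 1)
    refine D.congr ?_ g3
    intro n t ht
    exact (uniqueDiffOn_Ico (0 : ℝ) T t ht).eq_deriv _ (g2 n t ht) (h2 n t ht)
  choose f hf using step
  refine ⟨fun k => (f^[k] ⟨x, hD⟩).1, rfl, fun k => (f^[k] ⟨x, hD⟩).2 0, fun k n t ht => ?_⟩
  beta_reduce
  rw [Function.iterate_succ_apply']
  exact hf _ n t ht

end Pool.Agent.N976.SC
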