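import Pool.Agent.N976.SC.Def

/-!
# The series `∑ x n (t) P n` is `C^1` in space and time
-/

open Set Filter Topology MeasureTheory
open scoped ContDiff

set_option autoImplicit false

namespace Pool.Agent.N976.SC

namespace T5b

/-- A continuous function vanishing for `‖y‖ ≥ 1/2` is bounded. -/
lemma bdd_of_out {F : Type*} [NormedAddCommGroup F] {P : E3 → F} (hP : Continuous P)
    (ho : ∀ y, 1 / 2 < ‖y‖ → P y = 0) : ∃ C, 0 ≤ C ∧ ∀ y, ‖P y‖ ≤ C := by
  obtain ⟨C, hC⟩ := (isCompact_closedBall (0 : E3) (1 / 2)).exists_bound_of_continuousOn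
    hP.continuousOn
  refine ⟨max C 0, le_max_right _ _, fun y => ?_⟩
  by_cases hy : ‖y‖ ≤ 1 / 2
  · exact le_max_of_le_left (hC y (by simpa using hy))
  · rw [ho y (not_le.1 hy), norm_zero]
    exact le_max_right _ _

lemma fderiv_out {P : E3 → E3} (ho : ∀ y, 1 / 2 ≤ ‖y‖ → P y = 0) :
    ∀ y, 1 / 2 < ‖y‖ → fderiv ℝ P y = 0 := by
  intro y hy
  have h1 : P =ᶠ[𝓝 y] fun _ => 0 := by
    filter_upwards [(isOpen_lt continuous_const continuous_norm).mem_nhds hy] with z hz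
    exact ho z (le_of_lt hz)
  rw [h1.fderiv_eq]
  simp

lemma hasFDerivAt_pk {s : ℝ} {P : E3 → E3} (hP : ContDiff ℝ ∞ P) (n : ℕ) (y : E3) :
    HasFDerivAt (pk s P n) (s ^ (5 * n) • fderiv ℝ P (s ^ (2 * n) • y)) y := by
  have h1 : HasFDerivAt P (fderiv ℝ P (s ^ (2 * n) • y)) (s ^ (2 * n) • y) :=
    (hP.differentiable (by simp) _).hasFDerivAt
  have h2 : HasFDerivAt (fun z : E3 => s ^ (2 * n) • z)
      (s ^ (2 * n) • ContinuousLinearMap.id ℝ E3) y :=
    (hasFDerivAt_id y).const_smul (s ^ (2 * n))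
  have h3 := (h1.comp y h2).const_smul (s ^ (3 * n))
  have h4 : s ^ (3 * n) • (fderiv ℝ P (s ^ (2 * n) • y)).comp
      (s ^ (2 * n) • ContinuousLinearMap.id ℝ E3) = s ^ (5 * n) • fderiv ℝ P (s ^ (2 * n) • y) := by
    rw [ContinuousLinearMap.comp_smul, ContinuousLinearMap.comp_id, smul_smul, ← pow_add]
    congr 2
    ring
  rw [h4] at h3
  exact h3

lemma pk_bd {s : ℝ} {P : E3 → E3} (hs : 1 < s) {C : ℝ} (hC : ∀ y, ‖P y‖ ≤ C) (n : ℕ) (y : E3) :
    ‖pk s P n y‖ ≤ C * s ^ (3 * n) := by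
  unfold pk
  have h0 : (0 : ℝ) ≤ s ^ (3 * n) := by positivity
  rw [norm_smul, Real.norm_eq_abs, abs_of_nonneg h0, mul_comm]
  exact mul_le_mul_of_nonneg_right (hC _) h0

lemma rap_bd {s T : ℝ} {x : ℕ → ℝ → ℝ} (hs : 1 < s) (hx : RapT s T x) (k : ℕ) {T' : ℝ}
    (hT' : T' < T) : ∃ M, 0 ≤ M ∧ ∀ t ∈ Icc 0 T', ∀ n, |x n t| * s ^ (k * n) ≤ M * (s⁻¹) ^ n := by
  obtain ⟨M, hM⟩ := hx (k + 1) T' hT'
  refine ⟨max M 0, le_max_right _ _, fun t ht n => ?_⟩
  have h := hM t ht n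
  have hs0 : (0 : ℝ) < s := by linarith
  have h2 : s ^ ((k + 1) * n) = s ^ (k * n) * s ^ n := by rw [← pow_add]; congr 1; ring
  rw [h2] at h
  have h3 : (0 : ℝ) < s ^ n := by positivity
  rw [inv_pow, ← div_eq_mul_inv, le_div_iff₀ h3]
  calc |x n t| * s ^ (k * n) * s ^ n = s ^ (k * n) * s ^ n * |x n t| := by ring
    _ ≤ M := h
    _ ≤ _ := le_max_left _ _

/-- The extension to negative times. -/
noncomputable def xe (x x' : ℕ → ℝ → ℝ) (n : ℕ) (t : ℝ) : ℝ := x n (max t 0) + min t 0 * x' n 0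

lemma xe_of_nonneg (x x' : ℕ → ℝ → ℝ) (n : ℕ) {t : ℝ} (ht : 0 ≤ t) : xe x x' n t = x n t := by
  simp [xe, max_eq_left ht, min_eq_right ht]

lemma hasDerivAt_xe {T : ℝ} {x x' : ℕ → ℝ → ℝ}
    (hx : ∀ n, ∀ t ∈ Ico 0 T, HasDerivWithinAt (x n) (x' n t) (Ico 0 T) t) (hT : 0 < T)
    (n : ℕ) {t : ℝ} (ht : t < T) : HasDerivAt (xe x x' n) (x' n (max t 0)) t := by
  rcases lt_trichotomy t 0 with h | h | h
  · have h1 : xe x x' n =ᶠ[𝓝 t] fun τ => x n 0 + τ * x' n 0 := by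
      filter_upwards [Iio_mem_nhds h] with τ hτ
      have hτ' : τ ≤ 0 := le_of_lt (Set.mem_Iio.1 hτ)
      simp [xe, max_eq_right hτ', min_eq_left hτ']
    have h2 : HasDerivAt (fun τ => x n 0 + τ * x' n 0) (x' n 0) t := by
      simpa using ((hasDerivAt_id t).mul_const (x' n 0)).const_add (x n 0)
    rw [max_eq_right (le_of_lt h)]
    exact h2.congr_of_eventuallyEq h1
  · subst h
    have hr : HasDerivWithinAt (xe x x' n) (x' n 0) (Ici 0) 0 := by
      have h1 : HasDerivWithinAt (x n) (x' n 0) (Ici 0) 0 := by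
        refine (hx n 0 ⟨le_rfl, hT⟩).mono_of_mem_nhdsWithin ?_
        exact Ico_mem_nhdsGE hT
      refine h1.congr (fun τ hτ => xe_of_nonneg x x' n hτ) (xe_of_nonneg x x' n le_rfl)
    have hl : HasDerivWithinAt (xe x x' n) (x' n 0) (Iic 0) 0 := by
      have h2 : HasDerivAt (fun τ => x n 0 + τ * x' n 0) (x' n 0) 0 := by
        simpa using ((hasDerivAt_id (0 : ℝ)).mul_const (x' n 0)).const_add (x n 0)
      refine h2.hasDerivWithinAt.congr (fun τ hτ => ?_) ?_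
      · have hτ' : τ ≤ 0 := Set.mem_Iic.1 hτ
        simp [xe, max_eq_right hτ', min_eq_left hτ']
      · simp [xe]
    have := hl.union hr
    rw [Iic_union_Ici] at this
    rw [max_self]
    exact hasDerivWithinAt_univ.1 this
  · have h1 : HasDerivAt (x n) (x' n t) t := (hx n t ⟨h.le, ht⟩).hasDerivAt (Ico_mem_nhds h ht)
    have h2 : xe x x' n =ᶠ[𝓝 t] x n := by
      filter_upwards [Ioi_mem_nhds h] with τ hτ
      exact xe_of_nonneg x x' n (le_of_lt hτ)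
    rw [max_eq_left h.le]
    exact h1.congr_of_eventuallyEq h2

/-- The derivative of the `n`-th term. -/
noncomputable def Fd (s : ℝ) (P : E3 → E3) (x x' : ℕ → ℝ → ℝ) (n : ℕ) (z : ℝ × E3) :
    ℝ × E3 →L[ℝ] E3 :=
  xe x x' n z.1 • (s ^ (5 * n) • fderiv ℝ P (s ^ (2 * n) • z.2)).comp
      (ContinuousLinearMap.snd ℝ ℝ E3) +
    (x' n (max z.1 0) • ContinuousLinearMap.fst ℝ ℝ E3).smulRight (pk s P n z.2)

lemma hasFDerivAt_term {s T : ℝ} {P : E3 → E3} (hP : ContDiff ℝ ∞ P) {x x' : ℕ → ℝ → ℝ}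
    (hx : ∀ n, ∀ t ∈ Ico 0 T, HasDerivWithinAt (x n) (x' n t) (Ico 0 T) t) (hT : 0 < T)
    (n : ℕ) (z : ℝ × E3) (hz : z.1 < T) :
    HasFDerivAt (fun z : ℝ × E3 => xe x x' n z.1 • pk s P n z.2) (Fd s P x x' n z) z := by
  have h1 : HasFDerivAt (fun z : ℝ × E3 => xe x x' n z.1)
      (x' n (max z.1 0) • ContinuousLinearMap.fst ℝ ℝ E3) z :=
    (hasDerivAt_xe hx hT n hz).comp_hasFDerivAt z hasFDerivAt_fst
  have h2 : HasFDerivAt (fun z : ℝ × E3 => pk s P n z.2)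
      ((s ^ (5 * n) • fderiv ℝ P (s ^ (2 * n) • z.2)).comp (ContinuousLinearMap.snd ℝ ℝ E3)) z :=
    (hasFDerivAt_pk hP n z.2).comp z hasFDerivAt_snd
  exact h1.smul h2

lemma Fd_bd {s T : ℝ} {P : E3 → E3} (hs : 1 < s) (hP : ContDiff ℝ ∞ P)
    (ho : ∀ y, 1 / 2 ≤ ‖y‖ → P y = 0) {x x' : ℕ → ℝ → ℝ} (hrx : RapT s T x)
    (hrx' : RapT s T x') {T' : ℝ} (hT0 : 0 < T') (hT' : T' < T) :
    ∃ M, ∀ n, ∀ z ∈ Ioo (-1) T' ×ˢ (univ : Set E3), ‖Fd s P x x' n z‖ ≤ M * (s⁻¹) ^ n := by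
  obtain ⟨C, hC0, hC⟩ := bdd_of_out hP.continuous (fun y hy => ho y hy.le)
  obtain ⟨D, hD0, hD⟩ := bdd_of_out (hP.continuous_fderiv (by simp)) (fderiv_out ho)
  obtain ⟨M1, hM10, hM1⟩ := rap_bd hs hrx 5 hT'
  obtain ⟨M2, hM20, hM2⟩ := rap_bd hs hrx' 5 hT'
  have hs0 : (0 : ℝ) < s := by linarith
  refine ⟨(M1 + M2) * D + M2 * C, fun n z hz => ?_⟩
  have hz1 : z.1 ∈ Ioo (-1) T' := hz.1
  have hmax : max z.1 0 ∈ Icc 0 T' := ⟨le_max_right _ _, max_le hz1.2.le hT0.le⟩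
  have h5 : (0 : ℝ) < s ^ (5 * n) := by positivity
  have hxe : |xe x x' n z.1| * s ^ (5 * n) ≤ (M1 + M2) * (s⁻¹) ^ n := by
    have h1 := hM1 _ hmax n
    have h2 := hM2 0 ⟨le_rfl, hT0.le⟩ n
    have h3 : |min z.1 0| ≤ 1 := by
      rw [abs_le]
      constructor
      · exact le_min hz1.1.le (by norm_num)
      · exact (min_le_right _ _).trans (by norm_num)
    have h4 : |xe x x' n z.1| ≤ |x n (max z.1 0)| + |x' n 0| := by
      unfold xe
      refine (abs_add_le _ _).trans ?_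
      rw [abs_mul]
      have := mul_le_mul_of_nonneg_right h3 (abs_nonneg (x' n 0))
      linarith
    calc |xe x x' n z.1| * s ^ (5 * n) ≤ (|x n (max z.1 0)| + |x' n 0|) * s ^ (5 * n) :=
          mul_le_mul_of_nonneg_right h4 h5.le
      _ = |x n (max z.1 0)| * s ^ (5 * n) + |x' n 0| * s ^ (5 * n) := by ring
      _ ≤ M1 * (s⁻¹) ^ n + M2 * (s⁻¹) ^ n := add_le_add h1 h2
      _ = _ := by ring
  have hA : ‖xe x x' n z.1 • (s ^ (5 * n) • fderiv ℝ P (s ^ (2 * n) • z.2)).comp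
      (ContinuousLinearMap.snd ℝ ℝ E3)‖ ≤ (M1 + M2) * (s⁻¹) ^ n * D := by
    rw [norm_smul, Real.norm_eq_abs]
    have h6 : ‖(s ^ (5 * n) • fderiv ℝ P (s ^ (2 * n) • z.2)).comp
        (ContinuousLinearMap.snd ℝ ℝ E3)‖ ≤ s ^ (5 * n) * D := by
      refine (ContinuousLinearMap.opNorm_comp_le _ _).trans ?_
      have h7 : ‖ContinuousLinearMap.snd ℝ ℝ E3‖ ≤ 1 := ContinuousLinearMap.norm_snd_le ..
      have h8 : ‖s ^ (5 * n) • fderiv ℝ P (s ^ (2 * n) • z.2)‖ ≤ s ^ (5 * n) * D := by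
        rw [norm_smul, Real.norm_eq_abs, abs_of_pos h5]
        exact mul_le_mul_of_nonneg_left (hD _) h5.le
      calc _ ≤ (s ^ (5 * n) * D) * 1 := mul_le_mul h8 h7 (norm_nonneg _) (by positivity)
        _ = _ := mul_one _
    calc |xe x x' n z.1| * _ ≤ |xe x x' n z.1| * (s ^ (5 * n) * D) :=
          mul_le_mul_of_nonneg_left h6 (abs_nonneg _)
      _ = |xe x x' n z.1| * s ^ (5 * n) * D := by ring
      _ ≤ _ := mul_le_mul_of_nonneg_right hxe hD0
  have hB : ‖(x' n (max z.1 0) • ContinuousLinearMap.fst ℝ ℝ E3).smulRight (pk s P n z.2)‖ ≤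
      M2 * (s⁻¹) ^ n * C := by
    rw [ContinuousLinearMap.norm_smulRight_apply, norm_smul, Real.norm_eq_abs]
    have h7 : ‖ContinuousLinearMap.fst ℝ ℝ E3‖ ≤ 1 := ContinuousLinearMap.norm_fst_le ..
    have h8 := pk_bd hs hC n z.2
    have h9 := hM2 _ hmax n
    have h10 : s ^ (3 * n) ≤ s ^ (5 * n) := pow_le_pow_right₀ hs.le (by omega)
    calc |x' n (max z.1 0)| * ‖ContinuousLinearMap.fst ℝ ℝ E3‖ * ‖pk s P n z.2‖
        ≤ |x' n (max z.1 0)| * 1 * (C * s ^ (5 * n)) := by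
          refine mul_le_mul (mul_le_mul_of_nonneg_left h7 (abs_nonneg _))
            (h8.trans (mul_le_mul_of_nonneg_left h10 hC0)) (norm_nonneg _) (by positivity)
      _ = |x' n (max z.1 0)| * s ^ (5 * n) * C := by ring
      _ ≤ _ := mul_le_mul_of_nonneg_right h9 hC0
  calc ‖Fd s P x x' n z‖ ≤ (M1 + M2) * (s⁻¹) ^ n * D + M2 * (s⁻¹) ^ n * C :=
        (norm_add_le _ _).trans (add_le_add hA hB)
    _ = _ := by ring

lemma Fd_cont {s T : ℝ} {P : E3 → E3} (hP : ContDiff ℝ ∞ P) {x x' : ℕ → ℝ → ℝ}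
    (hx : ∀ n, ∀ t ∈ Ico 0 T, HasDerivWithinAt (x n) (x' n t) (Ico 0 T) t) (hT : 0 < T)
    (hc : ∀ n, ContinuousOn (x' n) (Ico 0 T)) (n : ℕ) :
    ContinuousOn (Fd s P x x' n) (Iio T ×ˢ (univ : Set E3)) := by
  have h1 : ContinuousOn (fun z : ℝ × E3 => xe x x' n z.1) (Iio T ×ˢ (univ : Set E3)) := by
    have h : ContinuousOn (xe x x' n) (Iio T) := fun t ht =>
      (hasDerivAt_xe hx hT n ht).continuousAt.continuousWithinAt
    exact h.comp continuous_fst.continuousOn (fun z hz => hz.1)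
  have h2 : ContinuousOn (fun z : ℝ × E3 => x' n (max z.1 0)) (Iio T ×ˢ (univ : Set E3)) := by
    refine (hc n).comp (continuous_fst.max continuous_const).continuousOn (fun z hz => ?_)
    exact ⟨le_max_right _ _, max_lt hz.1 hT⟩
  have h3 : Continuous (fun z : ℝ × E3 => pk s P n z.2) := by
    unfold pk
    exact (hP.continuous.comp (continuous_snd.const_smul (s ^ (2 * n)))).const_smul (s ^ (3 * n))
  have h4 : Continuous (fun z : ℝ × E3 =>
      (s ^ (5 * n) • fderiv ℝ P (s ^ (2 * n) • z.2)).comp (ContinuousLinearMap.snd ℝ ℝ E3)) := by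
    have h5 : Continuous (fun z : ℝ × E3 => s ^ (5 * n) • fderiv ℝ P (s ^ (2 * n) • z.2)) :=
      ((hP.continuous_fderiv (by simp)).comp
        (continuous_snd.const_smul (s ^ (2 * n)))).const_smul (s ^ (5 * n))
    exact h5.clm_comp continuous_const
  have h6 : ContinuousOn (fun z : ℝ × E3 =>
      (x' n (max z.1 0) • ContinuousLinearMap.fst ℝ ℝ E3).smulRight (pk s P n z.2))
      (Iio T ×ˢ (univ : Set E3)) := by
    have h7 : (fun z : ℝ × E3 =>
        (x' n (max z.1 0) • ContinuousLinearMap.fst ℝ ℝ E3).smulRight (pk s P n z.2)) =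
        fun z => ContinuousLinearMap.smulRightL ℝ (ℝ × E3) E3
          (x' n (max z.1 0) • ContinuousLinearMap.fst ℝ ℝ E3) (pk s P n z.2) := by
      ext z : 1
      rfl
    rw [h7]
    have h8 : ContinuousOn (fun z : ℝ × E3 => ContinuousLinearMap.smulRightL ℝ (ℝ × E3) E3
          (x' n (max z.1 0) • ContinuousLinearMap.fst ℝ ℝ E3)) (Iio T ×ˢ (univ : Set E3)) :=
      (ContinuousLinearMap.continuous _).comp_continuousOn (h2.smul continuousOn_const)
    exact h8.clm_apply h3.continuousOn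
  exact (h1.smul h4.continuousOn).add h6

end T5b

open T5b in
/-- (T5b) The series in space and time. -/
theorem t_SER2 : S_SER2 := by
  intro s P hs hP ho T x x' hx hc hrx hrx'
  have hs0 : (0 : ℝ) < s := by linarith
  have hsum : ∀ M : ℝ, Summable fun n : ℕ => M * (s⁻¹) ^ n := fun M =>
    (summable_geometric_of_lt_one (by positivity) (inv_lt_one_of_one_lt₀ hs)).mul_left M
  -- the main local statement
  have key : ∀ T', 0 < T' → T' < T → ∀ z ∈ Ioo (-1) T' ×ˢ (univ : Set E3),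
      HasFDerivAt (fun z : ℝ × E3 => ∑' n, xe x x' n z.1 • pk s P n z.2)
        (∑' n, Fd s P x x' n z) z := by
    intro T' hT0 hT' z hz
    obtain ⟨M, hM⟩ := Fd_bd hs hP ho hrx hrx' hT0 hT'
    have hT : 0 < T := hT0.trans hT'
    have ho' : IsOpen (Ioo (-1) T' ×ˢ (univ : Set E3)) := isOpen_Ioo.prod isOpen_univ
    have hpc : IsPreconnected (Ioo (-1) T' ×ˢ (univ : Set E3)) :=
      isPreconnected_Ioo.prod isPreconnected_univ
    have hz0 : ((0 : ℝ), (0 : E3)) ∈ Ioo (-1) T' ×ˢ (univ : Set E3) :=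
      ⟨⟨by norm_num, hT0⟩, mem_univ _⟩
    refine hasFDerivAt_tsum_of_isPreconnected (hsum M) ho' hpc
      (fun n w hw => hasFDerivAt_term hP hx hT n w (lt_trans hw.1.2 hT'))
      (fun n w hw => hM n w hw) hz0 ?_ hz
    obtain ⟨C, hC0, hC⟩ := bdd_of_out hP.continuous (fun y hy => ho y hy.le)
    obtain ⟨M1, hM10, hM1⟩ := rap_bd hs hrx 3 hT'
    refine Summable.of_norm_bounded (hsum (M1 * C)) (fun n => ?_)
    simp only [norm_smul, Real.norm_eq_abs]
    rw [xe_of_nonneg x x' n le_rfl]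
    calc |x n 0| * ‖pk s P n 0‖ ≤ |x n 0| * (C * s ^ (3 * n)) :=
          mul_le_mul_of_nonneg_left (pk_bd hs hC n 0) (abs_nonneg _)
      _ = |x n 0| * s ^ (3 * n) * C := by ring
      _ ≤ M1 * (s⁻¹) ^ n * C := mul_le_mul_of_nonneg_right (hM1 0 ⟨le_rfl, hT0.le⟩ n) hC0
      _ = _ := by ring
  constructor
  · intro z hz
    have hz1 : z.1 ∈ Ico 0 T := hz.1
    obtain ⟨T', hT1, hT'⟩ := exists_between hz1.2
    have hT0 : 0 < T' := lt_of_le_of_lt hz1.1 hT1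
    have hT : 0 < T := hT0.trans hT'
    set U : Set (ℝ × E3) := Ioo (-1) T' ×ˢ (univ : Set E3) with hU
    have hUo : IsOpen U := isOpen_Ioo.prod isOpen_univ
    have hzU : z ∈ U := ⟨⟨by linarith [hz1.1], hT1⟩, mem_univ _⟩
    obtain ⟨M, hM⟩ := Fd_bd hs hP ho hrx hrx' hT0 hT'
    have hcd : ContDiffOn ℝ 1 (fun z : ℝ × E3 => ∑' n, xe x x' n z.1 • pk s P n z.2) U := by
      have h01 : (1 : WithTop ℕ∞) = 0 + 1 := by norm_num
      rw [h01, contDiffOn_succ_iff_hasFDerivWithinAt_of_uniqueDiffOn hUo.uniqueDiffOn]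
      refine ⟨by simp, fun z => ∑' n, Fd s P x x' n z, ?_, fun w hw =>
        (key T' hT0 hT' w hw).hasFDerivWithinAt⟩
      rw [contDiffOn_zero]
      refine continuousOn_tsum (fun n => ?_) (hsum M) (fun n w hw => hM n w hw)
      exact (Fd_cont hP hx hT hc n).mono (fun w hw => ⟨lt_trans hw.1.2 hT', mem_univ _⟩)
    have h1 : ContDiffWithinAt ℝ 1 (fun z : ℝ × E3 => ∑' n, xe x x' n z.1 • pk s P n z.2)
        (Ico 0 T ×ˢ univ) z := (hcd.contDiffAt (hUo.mem_nhds hzU)).contDiffWithinAt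
    refine h1.congr (fun w hw => ?_) ?_
    · simp only [ser]
      congr 1
      ext1 n
      rw [xe_of_nonneg x x' n hw.1.1]
    · simp only [ser]
      congr 1
      ext1 n
      rw [xe_of_nonneg x x' n hz1.1]
  · intro t ht y
    obtain ⟨T', hT1, hT'⟩ := exists_between ht.2
    have hT0 : 0 < T' := lt_of_le_of_lt ht.1 hT1
    have hT : 0 < T := hT0.trans hT'
    obtain ⟨C, hC0, hC⟩ := bdd_of_out hP.continuous (fun y hy => ho y hy.le)
    obtain ⟨M1, hM10, hM1⟩ := rap_bd hs hrx 3 hT'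
    obtain ⟨M2, hM20, hM2⟩ := rap_bd hs hrx' 3 hT'
    have h1 : HasDerivAt (fun τ => ∑' n, xe x x' n τ • pk s P n y)
        (∑' n, x' n (max t 0) • pk s P n y) t := by
      refine hasDerivAt_tsum_of_isPreconnected (hsum (M2 * C)) (isOpen_Ioo (a := -1) (b := T'))
        isPreconnected_Ioo
        (fun n τ hτ => (hasDerivAt_xe hx hT n (lt_trans hτ.2 hT')).smul_const (pk s P n y))
        (fun n τ hτ => ?_) (y₀ := 0) ⟨by norm_num, hT0⟩ ?_ ⟨by linarith [ht.1], hT1⟩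
      · have hmax : max τ 0 ∈ Icc 0 T' := ⟨le_max_right _ _, max_le hτ.2.le hT0.le⟩
        rw [norm_smul, Real.norm_eq_abs]
        calc |x' n (max τ 0)| * ‖pk s P n y‖ ≤ |x' n (max τ 0)| * (C * s ^ (3 * n)) :=
              mul_le_mul_of_nonneg_left (pk_bd hs hC n y) (abs_nonneg _)
          _ = |x' n (max τ 0)| * s ^ (3 * n) * C := by ring
          _ ≤ M2 * (s⁻¹) ^ n * C := mul_le_mul_of_nonneg_right (hM2 _ hmax n) hC0
          _ = _ := by ring
      · refine Summable.of_norm_bounded (hsum (M1 * C)) (fun n => ?_)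
        rw [norm_smul, Real.norm_eq_abs, xe_of_nonneg x x' n le_rfl]
        calc |x n 0| * ‖pk s P n y‖ ≤ |x n 0| * (C * s ^ (3 * n)) :=
              mul_le_mul_of_nonneg_left (pk_bd hs hC n y) (abs_nonneg _)
          _ = |x n 0| * s ^ (3 * n) * C := by ring
          _ ≤ M1 * (s⁻¹) ^ n * C := mul_le_mul_of_nonneg_right (hM1 0 ⟨le_rfl, hT0.le⟩ n) hC0
          _ = _ := by ring
    rw [max_eq_left ht.1] at h1
    refine (h1.hasDerivWithinAt (s := Ico 0 T)).congr (fun τ hτ => ?_) ?_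
    · simp only [ser]
      congr 1
      ext1 n
      rw [xe_of_nonneg x x' n hτ.1]
    · simp only [ser]
      congr 1
      ext1 n
      rw [xe_of_nonneg x x' n ht.1]

end Pool.Agent.N976.SC
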