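import Pool.Agent.N976.SC.Def
import Pool.Agent.N976.SC.T5a
import Pool.Agent.N976.SC.T5b

/-!
# The series `∑ x n (t) P n` is `C^∞` in space and time jointly
-/

open Set Filter Topology MeasureTheory
open scoped ContDiff

set_option autoImplicit false

namespace Pool.Agent.N976.SC

/-- (T11) Joint smoothness of the series in space and time. -/
def S_SER3 : Prop := ∀ (s : ℝ) (P : E3 → E3), 1 < s → ContDiff ℝ ∞ P →
  (∀ y, 1 / 2 ≤ ‖y‖ → P y = 0) → ∀ (T : ℝ) (y : ℕ → ℕ → ℝ → ℝ), (∀ k, RapT s T (y k)) →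
  (∀ k n, ∀ t ∈ Ico 0 T, HasDerivWithinAt (y k n) (y (k + 1) n t) (Ico 0 T) t) →
  ContDiffOn ℝ ∞ (fun z : ℝ × E3 => ser s P (fun n => y 0 n z.1) z.2) (Ico 0 T ×ˢ univ)

namespace T11

open T5a (Gd)
open T5b (xe xe_of_nonneg hasDerivAt_xe rap_bd)

section

variable {F : Type} [NormedAddCommGroup F] [NormedSpace ℝ F]

/-- The series of dilates, in space and time. -/
noncomputable def SS (s : ℝ) (G : E3 → F) (b : ℕ → ℝ → ℝ) (z : ℝ × E3) : F :=
  ∑' n, b n z.1 • G (s ^ (2 * n) • z.2)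

/-- The derivative of the `n`-th term. -/
noncomputable def Fd (s : ℝ) (G : E3 → F) (b b' : ℕ → ℝ → ℝ) (n : ℕ) (z : ℝ × E3) :
    ℝ × E3 →L[ℝ] F :=
  xe b b' n z.1 • (s ^ (2 * n) • fderiv ℝ G (s ^ (2 * n) • z.2)).comp
      (ContinuousLinearMap.snd ℝ ℝ E3) +
    (b' n (max z.1 0) • ContinuousLinearMap.fst ℝ ℝ E3).smulRight (G (s ^ (2 * n) • z.2))

lemma hasFDerivAt_dil {s : ℝ} {G : E3 → F} (hG : Gd G) (n : ℕ) (y : E3) :
    HasFDerivAt (fun y => G (s ^ (2 * n) • y)) (s ^ (2 * n) • fderiv ℝ G (s ^ (2 * n) • y)) y := by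
  have h1 : HasFDerivAt G (fderiv ℝ G (s ^ (2 * n) • y)) (s ^ (2 * n) • y) :=
    (hG.sm.differentiable (by simp) _).hasFDerivAt
  have h2 : HasFDerivAt (fun z : E3 => s ^ (2 * n) • z)
      (s ^ (2 * n) • ContinuousLinearMap.id ℝ E3) y :=
    (hasFDerivAt_id y).const_smul (s ^ (2 * n))
  have h3 := h1.comp y h2
  rw [ContinuousLinearMap.comp_smul, ContinuousLinearMap.comp_id] at h3
  exact h3

lemma hasFDerivAt_term {s T : ℝ} {G : E3 → F} (hG : Gd G) {b b' : ℕ → ℝ → ℝ}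
    (hb : ∀ n, ∀ t ∈ Ico 0 T, HasDerivWithinAt (b n) (b' n t) (Ico 0 T) t) (hT : 0 < T)
    (n : ℕ) (z : ℝ × E3) (hz : z.1 < T) :
    HasFDerivAt (fun z : ℝ × E3 => xe b b' n z.1 • G (s ^ (2 * n) • z.2)) (Fd s G b b' n z) z := by
  have h1 : HasFDerivAt (fun z : ℝ × E3 => xe b b' n z.1)
      (b' n (max z.1 0) • ContinuousLinearMap.fst ℝ ℝ E3) z :=
    (hasDerivAt_xe hb hT n hz).comp_hasFDerivAt z hasFDerivAt_fst
  have h2 : HasFDerivAt (fun z : ℝ × E3 => G (s ^ (2 * n) • z.2))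
      ((s ^ (2 * n) • fderiv ℝ G (s ^ (2 * n) • z.2)).comp (ContinuousLinearMap.snd ℝ ℝ E3)) z :=
    (hasFDerivAt_dil hG n z.2).comp z hasFDerivAt_snd
  exact h1.smul h2

lemma Fd_bd {s T : ℝ} {G : E3 → F} (hs : 1 < s) (hG : Gd G) {b b' : ℕ → ℝ → ℝ}
    (hrb : RapT s T b) (hrb' : RapT s T b') {T' : ℝ} (hT0 : 0 < T') (hT' : T' < T) :
    ∃ M, ∀ n, ∀ z ∈ Ioo (-1) T' ×ˢ (univ : Set E3), ‖Fd s G b b' n z‖ ≤ M * (s⁻¹) ^ n := by
  obtain ⟨C, hC0, hC⟩ := hG.bd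
  obtain ⟨D, hD0, hD⟩ := hG.fd.bd
  obtain ⟨M1, hM10, hM1⟩ := rap_bd hs hrb 2 hT'
  obtain ⟨M2, hM20, hM2⟩ := rap_bd hs hrb' 2 hT'
  have hs0 : (0 : ℝ) < s := by linarith
  refine ⟨(M1 + M2) * D + M2 * C, fun n z hz => ?_⟩
  have hz1 : z.1 ∈ Ioo (-1) T' := hz.1
  have hmax : max z.1 0 ∈ Icc 0 T' := ⟨le_max_right _ _, max_le hz1.2.le hT0.le⟩
  have h5 : (0 : ℝ) < s ^ (2 * n) := by positivity
  have hxe : |xe b b' n z.1| * s ^ (2 * n) ≤ (M1 + M2) * (s⁻¹) ^ n := by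
    have h1 := hM1 _ hmax n
    have h2 := hM2 0 ⟨le_rfl, hT0.le⟩ n
    have h3 : |min z.1 0| ≤ 1 := by
      rw [abs_le]
      constructor
      · exact le_min hz1.1.le (by norm_num)
      · exact (min_le_right _ _).trans (by norm_num)
    have h4 : |xe b b' n z.1| ≤ |b n (max z.1 0)| + |b' n 0| := by
      unfold xe
      refine (abs_add_le _ _).trans ?_
      rw [abs_mul]
      have := mul_le_mul_of_nonneg_right h3 (abs_nonneg (b' n 0))
      linarith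
    calc |xe b b' n z.1| * s ^ (2 * n) ≤ (|b n (max z.1 0)| + |b' n 0|) * s ^ (2 * n) :=
          mul_le_mul_of_nonneg_right h4 h5.le
      _ = |b n (max z.1 0)| * s ^ (2 * n) + |b' n 0| * s ^ (2 * n) := by ring
      _ ≤ M1 * (s⁻¹) ^ n + M2 * (s⁻¹) ^ n := add_le_add h1 h2
      _ = _ := by ring
  have hA : ‖xe b b' n z.1 • (s ^ (2 * n) • fderiv ℝ G (s ^ (2 * n) • z.2)).comp
      (ContinuousLinearMap.snd ℝ ℝ E3)‖ ≤ (M1 + M2) * (s⁻¹) ^ n * D := by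
    rw [norm_smul, Real.norm_eq_abs]
    have h6 : ‖(s ^ (2 * n) • fderiv ℝ G (s ^ (2 * n) • z.2)).comp
        (ContinuousLinearMap.snd ℝ ℝ E3)‖ ≤ s ^ (2 * n) * D := by
      refine (ContinuousLinearMap.opNorm_comp_le _ _).trans ?_
      have h7 : ‖ContinuousLinearMap.snd ℝ ℝ E3‖ ≤ 1 := ContinuousLinearMap.norm_snd_le ..
      have h8 : ‖s ^ (2 * n) • fderiv ℝ G (s ^ (2 * n) • z.2)‖ ≤ s ^ (2 * n) * D := by
        rw [norm_smul, Real.norm_eq_abs, abs_of_pos h5]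
        exact mul_le_mul_of_nonneg_left (hD _) h5.le
      calc _ ≤ (s ^ (2 * n) * D) * 1 := mul_le_mul h8 h7 (norm_nonneg _) (by positivity)
        _ = _ := mul_one _
    calc |xe b b' n z.1| * _ ≤ |xe b b' n z.1| * (s ^ (2 * n) * D) :=
          mul_le_mul_of_nonneg_left h6 (abs_nonneg _)
      _ = |xe b b' n z.1| * s ^ (2 * n) * D := by ring
      _ ≤ _ := mul_le_mul_of_nonneg_right hxe hD0
  have hB : ‖(b' n (max z.1 0) • ContinuousLinearMap.fst ℝ ℝ E3).smulRight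
      (G (s ^ (2 * n) • z.2))‖ ≤ M2 * (s⁻¹) ^ n * C := by
    rw [ContinuousLinearMap.norm_smulRight_apply, norm_smul, Real.norm_eq_abs]
    have h7 : ‖ContinuousLinearMap.fst ℝ ℝ E3‖ ≤ 1 := ContinuousLinearMap.norm_fst_le ..
    have h9 := hM2 _ hmax n
    have h10 : 1 ≤ s ^ (2 * n) := one_le_pow₀ hs.le
    calc |b' n (max z.1 0)| * ‖ContinuousLinearMap.fst ℝ ℝ E3‖ * ‖G (s ^ (2 * n) • z.2)‖
        ≤ |b' n (max z.1 0)| * 1 * C := by
          refine mul_le_mul (mul_le_mul_of_nonneg_left h7 (abs_nonneg _))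
            (hC _) (norm_nonneg _) (by positivity)
      _ = |b' n (max z.1 0)| * 1 * C := rfl
      _ ≤ |b' n (max z.1 0)| * s ^ (2 * n) * C :=
          mul_le_mul_of_nonneg_right (mul_le_mul_of_nonneg_left h10 (abs_nonneg _)) hC0
      _ ≤ _ := mul_le_mul_of_nonneg_right h9 hC0
  calc ‖Fd s G b b' n z‖ ≤ (M1 + M2) * (s⁻¹) ^ n * D + M2 * (s⁻¹) ^ n * C :=
        (norm_add_le _ _).trans (add_le_add hA hB)
    _ = _ := by ring

lemma rapT_mul {s T : ℝ} (hs : 1 < s) {b : ℕ → ℝ → ℝ} (hb : RapT s T b) (j : ℕ) :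
    RapT s T (fun n t => s ^ (j * n) * b n t) := by
  intro k T' hT'
  obtain ⟨M, hM⟩ := hb (k + j) T' hT'
  refine ⟨M, fun t ht n => ?_⟩
  have hs0 : 0 ≤ s := by linarith
  rw [abs_mul, abs_of_nonneg (pow_nonneg hs0 _)]
  calc s ^ (k * n) * (s ^ (j * n) * |b n t|) = s ^ ((k + j) * n) * |b n t| := by
        rw [add_mul, pow_add]
        ring
    _ ≤ M := hM t ht n

lemma rapT_rap {s T : ℝ} {b : ℕ → ℝ → ℝ} (hb : RapT s T b) {t : ℝ} (ht : t ∈ Ico 0 T) :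
    Rap s (fun n => b n t) := by
  intro k
  obtain ⟨M, hM⟩ := hb k t ht.2
  exact ⟨M, fun n => hM t ⟨ht.1, le_rfl⟩ n⟩

lemma SS_summable [CompleteSpace F] {s T : ℝ} (hs : 1 < s) {G : E3 → F} (hG : Gd G)
    {b : ℕ → ℝ → ℝ} (hb : RapT s T b) {z : ℝ × E3} (hz : z.1 ∈ Ico 0 T) :
    Summable fun n => b n z.1 • G (s ^ (2 * n) • z.2) :=
  T5a.S_summable hs hG (rapT_rap hb hz) z.2

/-- The derivative of the series. -/
noncomputable def LL (s : ℝ) (G : E3 → F) (b b' : ℕ → ℝ → ℝ) (z : ℝ × E3) : ℝ × E3 →L[ℝ] F :=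
  (SS s (fderiv ℝ G) (fun n t => s ^ (2 * n) * b n t) z).comp (ContinuousLinearMap.snd ℝ ℝ E3) +
    (ContinuousLinearMap.fst ℝ ℝ E3).smulRight (SS s G b' z)

lemma tsum_Fd [CompleteSpace F] {s T : ℝ} (hs : 1 < s) {G : E3 → F} (hG : Gd G)
    {b b' : ℕ → ℝ → ℝ} (hrb : RapT s T b) (hrb' : RapT s T b') {z : ℝ × E3}
    (hz : z.1 ∈ Ico 0 T) : ∑' n, Fd s G b b' n z = LL s G b b' z := by
  have h1 := (SS_summable hs hG.fd (rapT_mul hs hrb 2) hz).hasSum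
  have h2 := (SS_summable hs hG hrb' hz).hasSum
  have h3 := ((ContinuousLinearMap.compL ℝ (ℝ × E3) E3 F).flip
    (ContinuousLinearMap.snd ℝ ℝ E3)).hasSum h1
  have h4 := (ContinuousLinearMap.smulRightL ℝ (ℝ × E3) F
    (ContinuousLinearMap.fst ℝ ℝ E3)).hasSum h2
  have h5 := h3.add h4
  have h6 : (fun n => Fd s G b b' n z) = fun n =>
      ((ContinuousLinearMap.compL ℝ (ℝ × E3) E3 F).flip (ContinuousLinearMap.snd ℝ ℝ E3))
        ((s ^ (2 * n) * b n z.1) • fderiv ℝ G (s ^ (2 * n) • z.2)) +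
      (ContinuousLinearMap.smulRightL ℝ (ℝ × E3) F (ContinuousLinearMap.fst ℝ ℝ E3))
        (b' n z.1 • G (s ^ (2 * n) • z.2)) := by
    funext n
    unfold Fd
    rw [xe_of_nonneg b b' n hz.1, max_eq_left hz.1]
    congr 1
    · show b n z.1 • (s ^ (2 * n) • fderiv ℝ G (s ^ (2 * n) • z.2)).comp
        (ContinuousLinearMap.snd ℝ ℝ E3) =
        ((s ^ (2 * n) * b n z.1) • fderiv ℝ G (s ^ (2 * n) • z.2)).comp
        (ContinuousLinearMap.snd ℝ ℝ E3)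
      rw [ContinuousLinearMap.smul_comp, ContinuousLinearMap.smul_comp, smul_smul, mul_comm]
    · refine ContinuousLinearMap.ext fun v => ?_
      show (b' n z.1 * v.1) • G (s ^ (2 * n) • z.2) = v.1 • (b' n z.1 • G (s ^ (2 * n) • z.2))
      rw [smul_smul, mul_comm]
  rw [h6]
  exact h5.tsum_eq

lemma SS_hasFDerivWithinAt [CompleteSpace F] {s T : ℝ} (hs : 1 < s) {G : E3 → F} (hG : Gd G)
    {b b' : ℕ → ℝ → ℝ} (hrb : RapT s T b) (hrb' : RapT s T b')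
    (hb : ∀ n, ∀ t ∈ Ico 0 T, HasDerivWithinAt (b n) (b' n t) (Ico 0 T) t) {z : ℝ × E3}
    (hz : z.1 ∈ Ico 0 T) :
    HasFDerivWithinAt (SS s G b) (LL s G b b' z) (Ico 0 T ×ˢ univ) z := by
  have hs0 : (0 : ℝ) < s := by linarith
  have hsum : ∀ M : ℝ, Summable fun n : ℕ => M * (s⁻¹) ^ n := fun M =>
    (summable_geometric_of_lt_one (by positivity) (inv_lt_one_of_one_lt₀ hs)).mul_left M
  obtain ⟨T', hT1, hT'⟩ := exists_between hz.2
  have hT0 : 0 < T' := lt_of_le_of_lt hz.1 hT1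
  have hT : 0 < T := hT0.trans hT'
  have key : HasFDerivAt (fun z : ℝ × E3 => ∑' n, xe b b' n z.1 • G (s ^ (2 * n) • z.2))
        (∑' n, Fd s G b b' n z) z := by
    obtain ⟨M, hM⟩ := Fd_bd hs hG hrb hrb' hT0 hT'
    have ho' : IsOpen (Ioo (-1) T' ×ˢ (univ : Set E3)) := isOpen_Ioo.prod isOpen_univ
    have hpc : IsPreconnected (Ioo (-1) T' ×ˢ (univ : Set E3)) :=
      isPreconnected_Ioo.prod isPreconnected_univ
    have hz0 : ((0 : ℝ), (0 : E3)) ∈ Ioo (-1) T' ×ˢ (univ : Set E3) :=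
      ⟨⟨by norm_num, hT0⟩, mem_univ _⟩
    refine hasFDerivAt_tsum_of_isPreconnected (hsum M) ho' hpc
      (fun n w hw => hasFDerivAt_term hG hb hT n w (lt_trans hw.1.2 hT'))
      (fun n w hw => hM n w hw) hz0 ?_ ⟨⟨by linarith [hz.1], hT1⟩, mem_univ _⟩
    have h1 : (fun n => xe b b' n ((0 : ℝ), (0 : E3)).1 • G (s ^ (2 * n) • ((0 : ℝ), (0 : E3)).2)) =
        fun n => b n ((0 : ℝ), (0 : E3)).1 • G (s ^ (2 * n) • ((0 : ℝ), (0 : E3)).2) := by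
      funext n
      rw [xe_of_nonneg b b' n le_rfl]
    rw [h1]
    exact SS_summable hs hG hrb ⟨le_rfl, hT⟩
  rw [tsum_Fd hs hG hrb hrb' hz] at key
  refine key.hasFDerivWithinAt.congr (fun w hw => ?_) ?_
  · unfold SS
    congr 1
    ext1 n
    rw [xe_of_nonneg b b' n hw.1.1]
  · unfold SS
    congr 1
    ext1 n
    rw [xe_of_nonneg b b' n hz.1]

end

theorem SS_contDiffOn {s T : ℝ} (hs : 1 < s) (N : ℕ) :
    ∀ (F : Type) [NormedAddCommGroup F] [NormedSpace ℝ F] [CompleteSpace F] (G : E3 → F)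
      (y : ℕ → ℕ → ℝ → ℝ), Gd G → (∀ k, RapT s T (y k)) →
      (∀ k n, ∀ t ∈ Ico 0 T, HasDerivWithinAt (y k n) (y (k + 1) n t) (Ico 0 T) t) →
      ContDiffOn ℝ N (SS s G (y 0)) (Ico 0 T ×ˢ univ) := by
  induction N with
  | zero =>
    intro F _ _ _ G y hG hr hd
    rw [Nat.cast_zero, contDiffOn_zero]
    intro z hz
    exact (SS_hasFDerivWithinAt hs hG (hr 0) (hr 1) (fun n => hd 0 n) hz.1).continuousWithinAt
  | succ N ih =>
    intro F _ _ _ G y hG hr hd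
    have hu : UniqueDiffOn ℝ (Ico (0 : ℝ) T ×ˢ (univ : Set E3)) :=
      (uniqueDiffOn_Ico 0 T).prod uniqueDiffOn_univ
    rw [Nat.cast_add, Nat.cast_one, contDiffOn_succ_iff_hasFDerivWithinAt_of_uniqueDiffOn hu]
    refine ⟨by simp, LL s G (y 0) (y 1), ?_, fun z hz =>
      SS_hasFDerivWithinAt hs hG (hr 0) (hr 1) (fun n => hd 0 n) hz.1⟩
    have h1 : ContDiffOn ℝ N (SS s (fderiv ℝ G) (fun n t => s ^ (2 * n) * y 0 n t))
        (Ico 0 T ×ˢ univ) := by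
      refine ih (E3 →L[ℝ] F) (fderiv ℝ G) (fun k n t => s ^ (2 * n) * y k n t) hG.fd
        (fun k => rapT_mul hs (hr k) 2) (fun k n t ht => ?_)
      exact (hd k n t ht).const_mul (s ^ (2 * n))
    have h2 : ContDiffOn ℝ N (SS s G (y 1)) (Ico 0 T ×ˢ univ) :=
      ih F G (fun k => y (k + 1)) hG (fun k => hr (k + 1)) (fun k => hd (k + 1))
    have h3 := ((ContinuousLinearMap.compL ℝ (ℝ × E3) E3 F).flip
      (ContinuousLinearMap.snd ℝ ℝ E3)).contDiff.comp_contDiffOn h1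
    have h4 := (ContinuousLinearMap.smulRightL ℝ (ℝ × E3) F
      (ContinuousLinearMap.fst ℝ ℝ E3)).contDiff.comp_contDiffOn h2
    exact h3.add h4

end T11

open T11 in
/-- (T11) Joint smoothness of the series in space and time. -/
theorem t_SER3 : S_SER3 := by
  intro s P hs hP ho T y hr hd
  have hG : T5a.Gd P := ⟨hP, fun y hy => ho y hy.le⟩
  rw [contDiffOn_infty]
  intro N
  have h := SS_contDiffOn (T := T) hs N E3 P (fun k n t => s ^ (3 * n) * y k n t) hG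
    (fun k => rapT_mul hs (hr k) 3) (fun k n t ht => (hd k n t ht).const_mul (s ^ (3 * n)))
  refine h.congr fun z _ => ?_
  unfold ser SS pk
  congr 1
  ext1 n
  rw [smul_smul, mul_comm]

end Pool.Agent.N976.SC
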