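import Pool.Agent.N976.SC.Def
import Pool.Agent.Y5.S2.Stm
import Pool.Agent.Y6.S.Main
import Pool.Agent.Y8.SK.Main
import Pool.Agent.Y954.S2.WPA
import Pool.Agent.Y614.S2.Est
import Pool.Agent.Y689.S2.WPC
import Pool.Agent.Y515.NS6.BlowA6

/-! The reduced system: blow-up from the library theorem `S_BLOW6` with no further modes. -/

open Set Filter Topology MeasureTheory

set_option autoImplicit false

namespace Pool.Agent.N976.SC.T2

open Pool.Agent.Y5.D Pool.Agent.Y5.E Pool.Agent.Y5.S2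
open Pool.Agent.Y6.N (lin)
open Pool.Agent.Y8.EP (Grow5)

/-- no other modes -/
def g0 : Empty → ℕ := fun e => e.elim

/-- the index of a mode -/
def ix : Ix Empty → ℕ
  | Sum.inl n => n
  | Sum.inr e => e.elim

/-- the rates -/
noncomputable def Ls (s : ℝ) (n : ℕ) : ℝ := s ^ (5 * n)

/-- the damping -/
noncomputable def ls (s : ℝ) (n : ℕ) : ℝ := 9 / 10 * s ^ (4 * n) / s ^ 4

/-- the table of the interactions -/
noncomputable def tb (s c : ℝ) (n i j : ℕ) : ℝ :=
  (if i = n ∧ j < n then Ls s j else 0)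
  + (if i = j ∧ n < i then -(Ls s n) else 0)
  + (if i = j ∧ n = i + 1 then Ls s i * c else 0)
  + (if i = n ∧ j = n + 1 then -(Ls s n * c) else 0)

/-- the kernel -/
noncomputable def c0 (s c : ℝ) (j a b : Ix Empty) : ℝ := tb s c (ix j) (ix a) (ix b)

/-- the matrix of the damping -/
noncomputable def D0 (s : ℝ) (i b : Ix Empty) : ℝ := if ix i = ix b then ls s (ix i) else 0

theorem gr_eq (a : Ix Empty) : gr g0 a = ix a := by
  rcases a with n | e
  · rfl
  · exact e.elim

theorem eq_inl (a : Ix Empty) : a = Sum.inl (ix a) := by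
  rcases a with n | e
  · rfl
  · exact e.elim

theorem gr_ne {a : Ix Empty} {n : ℕ} (h : a ≠ Sum.inl n) : gr g0 a ≠ n := by
  intro h'
  apply h
  rw [gr_eq] at h'
  rw [eq_inl a, h']

theorem Ls_pos {s : ℝ} (hs : 2 ≤ s) (n : ℕ) : 0 < Ls s n := by
  have : 0 < s := by linarith
  exact pow_pos this _

theorem tb_anti (s c : ℝ) (n i j : ℕ) : tb s c n i j = -tb s c j i n := by
  unfold tb
  by_cases hA : i = n ∧ j < n
  · obtain ⟨h1, h2⟩ := hA
    subst h1
    have e1 : ¬ (i = j ∧ i < i) := by omega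
    have e2 : ¬ (i = j ∧ i = i + 1) := by omega
    have e3 : ¬ (i = i ∧ j = i + 1) := by omega
    have e4 : ¬ (i = j ∧ i < j) := by omega
    have e5 : ¬ (i = i ∧ j = i + 1) := by omega
    have e6 : ¬ (i = j ∧ i = j + 1) := by omega
    rw [if_pos ⟨rfl, h2⟩, if_neg e1, if_neg e2, if_neg e3, if_neg e4, if_pos ⟨rfl, h2⟩, if_neg e5,
      if_neg e6]
    ring
  · by_cases hB : i = j ∧ n < i
    · obtain ⟨h1, h2⟩ := hB
      subst h1
      have e1 : ¬ (i = n ∧ i < n) := by omega
      have e2 : ¬ (i = i ∧ n = i + 1) := by omega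
      have e3 : ¬ (i = n ∧ i = n + 1) := by omega
      have e4 : ¬ (i = n ∧ i < i) := by omega
      have e5 : ¬ (i = n ∧ i = i + 1) := by omega
      have e6 : ¬ (i = i ∧ n = i + 1) := by omega
      rw [if_neg e1, if_pos ⟨rfl, h2⟩, if_neg e2, if_neg e3, if_pos ⟨rfl, h2⟩, if_neg e4,
        if_neg e5, if_neg e6]
      ring
    · by_cases hC : i = j ∧ n = i + 1
      · obtain ⟨h1, h2⟩ := hC
        subst h1
        subst h2
        have e1 : ¬ (i = i + 1 ∧ i < i + 1) := by omega
        have e2 : ¬ (i = i ∧ i + 1 < i) := by omega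
        have e3 : ¬ (i = i + 1 ∧ i = i + 1 + 1) := by omega
        have e4 : ¬ (i = i ∧ i + 1 < i) := by omega
        have e5 : ¬ (i = i + 1 ∧ i < i) := by omega
        have e6 : ¬ (i = i + 1 ∧ i = i + 1) := by omega
        rw [if_neg e1, if_neg e2, if_pos ⟨rfl, rfl⟩, if_neg e3, if_neg e4, if_neg e5,
          if_neg e6, if_pos ⟨rfl, rfl⟩]
        ring
      · by_cases hD : i = n ∧ j = n + 1
        · obtain ⟨h1, h2⟩ := hD
          subst h1
          subst h2
          have e1 : ¬ (i = i ∧ i + 1 < i) := by omega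
          have e2 : ¬ (i = i + 1 ∧ i < i) := by omega
          have e3 : ¬ (i = i + 1 ∧ i = i + 1) := by omega
          have e4 : ¬ (i = i + 1 ∧ i < i + 1) := by omega
          have e5 : ¬ (i = i ∧ i + 1 < i) := by omega
          have e6 : ¬ (i = i + 1 ∧ i = i + 1 + 1) := by omega
          rw [if_neg e1, if_neg e2, if_neg e3, if_pos ⟨rfl, rfl⟩, if_neg e4, if_neg e5,
            if_pos ⟨rfl, rfl⟩, if_neg e6]
          ring
        · have e1 : ¬ (i = j ∧ n < j) := by omega
          have e2 : ¬ (i = n ∧ j < i) := by omega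
          have e3 : ¬ (i = n ∧ j = i + 1) := by omega
          have e4 : ¬ (i = j ∧ n = j + 1) := by omega
          rw [if_neg hA, if_neg hB, if_neg hC, if_neg hD, if_neg e1, if_neg e2, if_neg e3,
            if_neg e4]
          ring

theorem tb_cases (s c : ℝ) (n i j : ℕ) (h : tb s c n i j ≠ 0) :
    (i = n ∧ j < n) ∨ (i = j ∧ n < i) ∨ (i = j ∧ n = i + 1) ∨ (i = n ∧ j = n + 1) := by
  by_contra hc
  push Not at hc
  apply h
  unfold tb
  rw [if_neg (fun h => by omega), if_neg (fun h => by omega), if_neg (fun h => by omega),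
    if_neg (fun h => by omega)]
  ring

theorem tb_le {s : ℝ} (hs : 2 ≤ s) {c : ℝ} (hc0 : 0 ≤ c) (hc1 : c ≤ 1) (m p q : ℕ) :
    |tb s c m p q| ≤ om (s ^ 2) 2 (Ls s) m p q := by
  have h0 : ∀ n, 0 < Ls s n := Ls_pos hs
  have hcL : ∀ n, |Ls s n * c| ≤ 2 * Ls s n := by
    intro n
    rw [abs_mul, abs_of_pos (h0 n), abs_of_nonneg hc0]
    nlinarith [h0 n, mul_le_mul_of_nonneg_left hc1 (h0 n).le]
  have hom : 0 ≤ om (s ^ 2) 2 (Ls s) m p q := by
    unfold om
    split_ifs
    · have := h0 p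
      positivity
    · have := h0 (min m q)
      positivity
  by_cases h : tb s c m p q = 0
  · rw [h, abs_zero]
    exact hom
  · rcases tb_cases s c m p q h with h1 | h1 | h1 | h1
    · obtain ⟨h1, h2⟩ := h1
      subst h1
      have : tb s c p p q = Ls s q := by
        unfold tb
        rw [if_pos ⟨rfl, h2⟩, if_neg (fun h => by omega), if_neg (fun h => by omega),
          if_neg (fun h => by omega)]
        ring
      rw [this]
      unfold om
      rw [if_neg (by omega), min_eq_right h2.le, abs_of_pos (h0 q)]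
      linarith [h0 q]
    · obtain ⟨h1, h2⟩ := h1
      subst h1
      have : tb s c m p p = -Ls s m := by
        unfold tb
        rw [if_neg (fun h => by omega), if_pos ⟨rfl, h2⟩, if_neg (fun h => by omega),
          if_neg (fun h => by omega)]
        ring
      rw [this]
      unfold om
      rw [if_neg (by omega), min_eq_left h2.le, abs_neg, abs_of_pos (h0 m)]
      linarith [h0 m]
    · obtain ⟨h1, h2⟩ := h1
      subst h1
      subst h2
      have : tb s c (p + 1) p p = Ls s p * c := by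
        unfold tb
        rw [if_neg (fun h => by omega), if_neg (fun h => by omega), if_pos ⟨rfl, rfl⟩,
          if_neg (fun h => by omega)]
        ring
      rw [this]
      unfold om
      rw [if_pos (by omega), min_eq_right (by omega), Nat.sub_self, pow_zero, mul_one]
      exact hcL p
    · obtain ⟨h1, h2⟩ := h1
      subst h1
      subst h2
      have : tb s c p p (p + 1) = -(Ls s p * c) := by
        unfold tb
        rw [if_neg (fun h => by omega), if_neg (fun h => by omega), if_neg (fun h => by omega),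
          if_pos ⟨rfl, rfl⟩]
        ring
      rw [this]
      unfold om
      rw [if_pos (by omega), min_eq_left (by omega), Nat.sub_self, pow_zero, mul_one, abs_neg]
      exact hcL p

theorem sum_sq (n : ℕ) (α : Ix Empty → ℝ) (h : ∀ i, gr g0 i ≠ n → α i = 0) :
    ∑' i, α i ^ 2 = α (Sum.inl n) ^ 2 := by
  apply tsum_eq_single
  intro b hb
  rw [h b (gr_ne hb)]
  ring

theorem tl_eq (s c : ℝ) (m p q : ℕ) (α β γ : Ix Empty → ℝ) (hα : ∀ i, gr g0 i ≠ m → α i = 0)
    (hβ : ∀ i, gr g0 i ≠ p → β i = 0) (hγ : ∀ i, gr g0 i ≠ q → γ i = 0) :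
    tl (c0 s c) α β γ = tb s c m p q * α (Sum.inl m) * β (Sum.inl p) * γ (Sum.inl q) := by
  unfold tl
  rw [tsum_eq_single (Sum.inl m, Sum.inl p, Sum.inl q)]
  · rfl
  · rintro ⟨a, b, d⟩ hne
    by_cases h1 : a = Sum.inl m
    · by_cases h2 : b = Sum.inl p
      · have h3 : d ≠ Sum.inl q := by
          intro h3
          apply hne
          rw [h1, h2, h3]
        simp only
        rw [hγ d (gr_ne h3)]
        ring
      · simp only
        rw [hβ b (gr_ne h2)]
        ring
    · simp only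
      rw [hα a (gr_ne h1)]
      ring

theorem ker {s : ℝ} (hs : 2 ≤ s) {c : ℝ} (hc0 : 0 ≤ c) (hc1 : c ≤ 1) :
    Ker g0 (s ^ 2) 2 (Ls s) (fun _ => c) (fun _ _ => 1) (c0 s c) where
  fin := fun m => Set.toFinite _
  card := ⟨0, fun m => by
    have : {j : Empty | g0 j = m} = ∅ := by
      ext x
      exact x.elim
    rw [this]
    simp⟩
  anti := fun j a b => tb_anti s c _ _ _
  near := by
    intro j a b h
    simp only [gr_eq]
    have := tb_cases s c _ _ _ h
    omega
  sep := by
    intro m a b h h1 h2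
    rw [gr_eq] at h1 h2
    rw [gr_eq, gr_eq]
    have := tb_cases s c m (ix a) (ix b) h
    omega
  tri := by
    intro m p q α β γ hα hβ hγ
    rw [tl_eq s c m p q α β γ hα hβ hγ, sum_sq m α hα, sum_sq p β hβ, sum_sq q γ hγ,
      Real.sqrt_sq_eq_abs, Real.sqrt_sq_eq_abs, Real.sqrt_sq_eq_abs, abs_mul, abs_mul, abs_mul]
    have := tb_le hs hc0 hc1 m p q
    gcongr
  tab := by
    intro i j n
    simp only [mul_one]
    rfl

theorem D_eq (s : ℝ) (n : ℕ) (α β : Ix Empty → ℝ) (hα : ∀ i, gr g0 i ≠ n → α i = 0)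
    (hβ : ∀ i, gr g0 i ≠ n → β i = 0) :
    ∑' p : Ix Empty × Ix Empty, D0 s p.1 p.2 * α p.1 * β p.2 =
      ls s n * α (Sum.inl n) * β (Sum.inl n) := by
  rw [tsum_eq_single (Sum.inl n, Sum.inl n)]
  · simp [D0, ix]
  · rintro ⟨a, b⟩ hne
    by_cases h1 : a = Sum.inl n
    · have h2 : b ≠ Sum.inl n := by
        intro h2
        apply hne
        rw [h1, h2]
      simp only
      rw [hβ b (gr_ne h2)]
      ring
    · simp only
      rw [hα a (gr_ne h1)]
      ring

theorem kL {s : ℝ} (hs : 2 ≤ s) (n : ℕ) : s⁻¹ ^ n * Ls s n = s ^ (4 * n) := by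
  have h : s ≠ 0 := by
    intro h
    linarith
  unfold Ls
  rw [inv_pow, show 5 * n = n + 4 * n by ring, pow_add]
  field_simp

theorem dis {s : ℝ} (hs : 2 ≤ s) :
    Dis2 g0 (9 / 10 / s ^ 4) 1 s⁻¹ (Ls s) (ls s) (D0 s) := by
  have h0 : 0 < s := by linarith
  have h4 : 1 ≤ s ^ 4 := one_le_pow₀ (by linarith)
  constructor
  · intro i b
    unfold D0
    by_cases h : ix i = ix b
    · rw [if_pos h, if_pos h.symm, h]
    · rw [if_neg h, if_neg (fun h' => h h'.symm)]
  · intro i b h
    unfold D0 at h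
    rw [gr_eq, gr_eq]
    by_contra hne
    exact h (if_neg hne)
  · intro n
    simp [D0, ix]
  · intro n α β hα hβ
    rw [D_eq s n α β hα hβ, sum_sq n α hα, sum_sq n β hβ, Real.sqrt_sq_eq_abs,
      Real.sqrt_sq_eq_abs, abs_mul, abs_mul, kL hs]
    have : |ls s n| ≤ 1 * s ^ (4 * n) := by
      unfold ls
      rw [abs_of_nonneg (by positivity), div_le_iff₀ (by positivity)]
      have : 0 < s ^ (4 * n) := by positivity
      nlinarith
    gcongr
  · intro n α hα
    rw [D_eq s n α α hα hα, sum_sq n α hα, kL hs]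
    apply le_of_eq
    unfold ls
    ring
  · intro n α hα
    rw [D_eq s (n + 1) α α hα hα, sum_sq (n + 1) α hα, kL hs]
    have : 1 / 1000 * s ^ (4 * n) ≤ ls s (n + 1) := by
      unfold ls
      rw [le_div_iff₀ (by positivity), show 4 * (n + 1) = 4 * n + 4 by ring, pow_add]
      have : 0 < s ^ (4 * n) := by positivity
      nlinarith [mul_pos this (show 0 < s ^ 4 by positivity)]
    have h2 := mul_le_mul_of_nonneg_right this (sq_nonneg (α (Sum.inl (n + 1))))
    calc _ ≤ _ := h2
      _ = _ := by ring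
  · norm_num

theorem rot : Rot2 g0 (fun e => e) (fun e : Empty => (e.elim : ℝ)) :=
  ⟨fun j => j.elim, fun j => j.elim, fun j => j.elim, fun j => j.elim⟩

theorem sq6 {s : ℝ} (hs : (10 : ℝ) ^ 40 ≤ s) :
    Sq6 s⁻¹ (s ^ 4) (s ^ 5) (s ^ 2) 2 (Ls s) (fun _ => cc s) (ls s) (fun _ _ => 1) := by
  have h0 : 0 < s := lt_of_lt_of_le (by norm_num) hs
  have h1 : (1 : ℝ) ≤ s := le_trans (by norm_num) hs
  have h1000 : (1000 : ℝ) ≤ s := le_trans (by norm_num) hs
  have h2 : (2 : ℝ) ≤ s := by linarith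
  refine ⟨by positivity, ?_, ?_, ?_, ?_, ?_, ?_, ?_, ?_, by norm_num, ?_, ?_, ?_, ?_, ?_, ?_, ?_⟩
  · exact inv_le_one_of_one_le₀ h1
  · rw [inv_le_comm₀ h0 (by norm_num)]
    simpa using h1000
  · field_simp
  · calc (10 : ℝ) ^ 30 ≤ 10 ^ 40 := by norm_num
      _ ≤ s := hs
      _ ≤ s ^ 4 := le_self_pow₀ h1 (by norm_num)
  · simp [Ls]
  · intro n
    unfold Ls
    rw [← pow_add]
    congr 1
    ring
  · nlinarith
  · ring
  · -- `exp_big`
    have key := Real.pow_div_factorial_le_exp (s ^ 4 / 10 ^ 6) (by positivity) 40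
    refine le_trans ?_ key
    rw [le_div_iff₀ (by positivity)]
    have hf : ((Nat.factorial 40 : ℕ) : ℝ) ≤ 10 ^ 48 := by
      have : Nat.factorial 40 ≤ 10 ^ 48 := by decide +kernel
      exact_mod_cast this
    have h10 : ((10 : ℝ) ^ 40) ^ 10 ≤ s ^ 10 := pow_le_pow_left₀ (by norm_num) hs 10
    have h150 : 0 < s ^ 150 := by positivity
    calc (10 ^ 6 * (2 : ℝ) ^ 4 * (s ^ 5) ^ 3) ^ 10 * ((Nat.factorial 40 : ℕ) : ℝ)
        ≤ (10 ^ 6 * (2 : ℝ) ^ 4 * (s ^ 5) ^ 3) ^ 10 * 10 ^ 48 := by gcongr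
      _ = ((10 ^ 6 * 2 ^ 4) ^ 10 * 10 ^ 48) * s ^ 150 := by ring
      _ ≤ (((10 : ℝ) ^ 40) ^ 10 / 10 ^ 240) * s ^ 150 := by
          apply mul_le_mul_of_nonneg_right _ h150.le
          norm_num
      _ ≤ (s ^ 10 / 10 ^ 240) * s ^ 150 := by gcongr
      _ = (s ^ 4 / 10 ^ 6) ^ 40 := by ring
  · intro n
    have h3 : 0 < s ^ 4 := by positivity
    have h4 : Real.exp (-(601 / 10000 * s ^ 4)) ≤ Real.exp (-(6 / 100 * s ^ 4)) :=
      Real.exp_le_exp.2 (by linarith)
    calc s⁻¹ * Real.exp (-(601 / 10000 * s ^ 4)) ≤ s⁻¹ * Real.exp (-(6 / 100 * s ^ 4)) :=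
          mul_le_mul_of_nonneg_left h4 (by positivity)
      _ = cc s := by
          unfold cc
          ring
  · intro n
    have h3 : 0 < s ^ 4 := by positivity
    have h4 : Real.exp (-(6 / 100 * s ^ 4)) ≤ Real.exp (-(599 / 10000 * s ^ 4)) :=
      Real.exp_le_exp.2 (by linarith)
    calc cc s = s⁻¹ * Real.exp (-(6 / 100 * s ^ 4)) := by
          unfold cc
          ring
      _ ≤ s⁻¹ * Real.exp (-(599 / 10000 * s ^ 4)) :=
          mul_le_mul_of_nonneg_left h4 (by positivity)
  · intro i n _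
    norm_num
  · intro i n _
    norm_num
  · have : ls s 0 * s ^ 4 - 9 / 10 * Ls s 0 = 0 := by
      unfold ls Ls
      field_simp
      simp
    rw [this, abs_zero]
    have := Ls_pos h2 0
    positivity
  · intro n
    have : ls s (n + 1) - 9 / 10 * (s⁻¹ ^ n * Ls s n) = 0 := by
      rw [kL h2]
      unfold ls
      rw [show 4 * (n + 1) = 4 * n + 4 by ring, pow_add]
      field_simp
      ring
    rw [this, abs_zero, kL h2]
    positivity

/-! ### The quadratic term -/

theorem bl_eq (s c : ℝ) (z : Ix Empty → ℝ) (n : ℕ)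
    (hz : Summable fun m : ℕ => z (Sum.inl m) ^ 2) :
    bl (c0 s c) z z (Sum.inl n) = vq s c (fun m => z (Sum.inl m)) n := by
  set x : ℕ → ℝ := fun m => z (Sum.inl m) with hx
  have hzx : Summable fun m : ℕ => x m ^ 2 := hz
  have hA : HasSum (fun p : ℕ × ℕ => (if p.1 = n ∧ p.2 < n then Ls s p.2 else 0) * x p.1 * x p.2)
      (x n * ∑ i ∈ Finset.range n, s ^ (5 * i) * x i) := by
    have h2 : ∑ p ∈ ({n} : Finset ℕ) ×ˢ Finset.range n,
        (if p.1 = n ∧ p.2 < n then Ls s p.2 else 0) * x p.1 * x p.2 =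
        x n * ∑ i ∈ Finset.range n, s ^ (5 * i) * x i := by
      rw [Finset.sum_product, Finset.sum_singleton, Finset.mul_sum]
      apply Finset.sum_congr rfl
      intro i hi
      rw [if_pos ⟨rfl, Finset.mem_range.1 hi⟩]
      unfold Ls
      ring
    rw [← h2]
    apply hasSum_sum_of_ne_finset_zero
    rintro ⟨a, b⟩ hab
    have : ¬ (a = n ∧ b < n) := by
      rintro ⟨h3, h4⟩
      apply hab
      rw [Finset.mem_product, Finset.mem_singleton, Finset.mem_range]
      exact ⟨h3, h4⟩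
    simp only
    rw [if_neg this]
    ring
  have hB : HasSum
      (fun p : ℕ × ℕ => (if p.1 = p.2 ∧ n < p.1 then -(Ls s n) else 0) * x p.1 * x p.2)
      (-(s ^ (5 * n) * ∑' m : ℕ, x (n + 1 + m) ^ 2)) := by
    have hinj : Function.Injective (fun m : ℕ => ((n + 1 + m, n + 1 + m) : ℕ × ℕ)) := by
      intro a b hab
      have := congrArg Prod.fst hab
      simp only at this
      omega
    rw [← hinj.hasSum_iff]
    · have hs1 : Summable fun m : ℕ => x (n + 1 + m) ^ 2 := by
        have := (summable_nat_add_iff (f := fun m => x m ^ 2) (n + 1)).2 hzx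
        refine this.congr fun m => ?_
        rw [add_comm]
      have h3 := (hs1.hasSum.mul_left (s ^ (5 * n))).neg
      have h4 : (fun p : ℕ × ℕ => (if p.1 = p.2 ∧ n < p.1 then -(Ls s n) else 0) * x p.1 * x p.2) ∘
          (fun m : ℕ => ((n + 1 + m, n + 1 + m) : ℕ × ℕ)) =
          fun m => -(s ^ (5 * n) * x (n + 1 + m) ^ 2) := by
        funext m
        simp only [Function.comp]
        rw [if_pos ⟨trivial, by omega⟩]
        unfold Ls
        ring
      rw [h4]
      exact h3
    · rintro ⟨a, b⟩ hab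
      have : ¬ (a = b ∧ n < a) := by
        rintro ⟨h1, h2⟩
        apply hab
        refine ⟨a - (n + 1), ?_⟩
        simp only [Prod.mk.injEq]
        omega
      simp only
      rw [if_neg this]
      ring
  have hC : HasSum
      (fun p : ℕ × ℕ => (if p.1 = p.2 ∧ n = p.1 + 1 then Ls s p.1 * c else 0) * x p.1 * x p.2)
      (if n = 0 then 0 else s ^ (5 * (n - 1)) * c * x (n - 1) ^ 2) := by
    by_cases hn : n = 0
    · rw [if_pos hn]
      convert (hasSum_zero : HasSum (fun _ : ℕ × ℕ => (0 : ℝ)) 0) using 1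
      funext p
      rw [if_neg (by omega)]
      ring
    · rw [if_neg hn]
      have h1 := hasSum_single (f := fun p : ℕ × ℕ =>
        (if p.1 = p.2 ∧ n = p.1 + 1 then Ls s p.1 * c else 0) * x p.1 * x p.2) (n - 1, n - 1) (by
          rintro ⟨a, b⟩ hab
          have : ¬ (a = b ∧ n = a + 1) := by
            rintro ⟨h1, h2⟩
            apply hab
            simp only [Prod.mk.injEq]
            omega
          simp only
          rw [if_neg this]
          ring)
      simp only at h1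
      rw [if_pos ⟨trivial, by omega⟩] at h1
      convert h1 using 1
      unfold Ls
      ring
  have hD : HasSum
      (fun p : ℕ × ℕ => (if p.1 = n ∧ p.2 = n + 1 then -(Ls s n * c) else 0) * x p.1 * x p.2)
      (-(s ^ (5 * n) * c * x n * x (n + 1))) := by
    have h1 := hasSum_single (f := fun p : ℕ × ℕ =>
      (if p.1 = n ∧ p.2 = n + 1 then -(Ls s n * c) else 0) * x p.1 * x p.2) (n, n + 1) (by
        rintro ⟨a, b⟩ hab
        have : ¬ (a = n ∧ b = n + 1) := by
          rintro ⟨h1, h2⟩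
          apply hab
          rw [h1, h2]
        simp only
        rw [if_neg this]
        ring)
    simp only at h1
    rw [if_pos ⟨trivial, trivial⟩] at h1
    convert h1 using 1
    unfold Ls
    ring
  have hsum := ((hA.add hB).add hC).add hD
  have hinj : Function.Injective
      (fun p : ℕ × ℕ => ((Sum.inl p.1, Sum.inl p.2) : Ix Empty × Ix Empty)) := by
    rintro ⟨a, b⟩ ⟨a', b'⟩ hab
    simp only [Prod.mk.injEq, Sum.inl.injEq] at hab
    rw [hab.1, hab.2]
  have hfull : HasSum (fun p : Ix Empty × Ix Empty => c0 s c (Sum.inl n) p.1 p.2 * z p.1 * z p.2)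
      (vq s c x n) := by
    rw [← hinj.hasSum_iff]
    · convert hsum using 1
      · funext p
        simp only [Function.comp]
        change tb s c n p.1 p.2 * x p.1 * x p.2 = _
        unfold tb
        ring
      · unfold vq
        ring
    · rintro ⟨a, b⟩ hab
      exfalso
      apply hab
      refine ⟨(ix a, ix b), ?_⟩
      simp only
      rw [← eq_inl, ← eq_inl]
  exact hfull.tsum_eq

theorem lin_eq (s : ℝ) (z : Ix Empty → ℝ) (n : ℕ) :
    lin (D0 s) z (Sum.inl n) = ls s n * z (Sum.inl n) := by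
  unfold lin
  rw [tsum_eq_single (Sum.inl n)]
  · simp [D0, ix]
  · intro b hb
    have : ¬ (ix (Sum.inl n) = ix b) := by
      intro h
      apply hb
      rw [eq_inl b, ← h]
      rfl
    unfold D0
    rw [if_neg this]
    ring

theorem wz_eq (z : Ix Empty → ℝ → ℝ) (n : ℕ) (t : ℝ) : wz g0 z n t = 0 := by
  unfold wz
  rw [tsum_empty, Real.sqrt_zero]

/-- The reduced system from the library theorem. -/
theorem ode_of (hB : S_BLOW6) : S_ODE := by
  refine ⟨10 ^ 40, fun s hs => ?_⟩
  have h0 : 0 < s := lt_of_lt_of_le (by norm_num) hs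
  have h1 : (1 : ℝ) ≤ s := le_trans (by norm_num) hs
  have h2 : (2 : ℝ) ≤ s := le_trans (by norm_num) hs
  have hc0 : 0 ≤ cc s := by
    unfold cc
    positivity
  have hc1 : cc s ≤ 1 := by
    unfold cc
    rw [div_le_one h0]
    refine le_trans (Real.exp_le_one_iff.2 ?_) h1
    have : 0 < s ^ 4 := by positivity
    linarith
  obtain ⟨Q, T, z, _, hT, hsol, hinit, _, hgrow, hTI⟩ :=
    hB Empty g0 (fun e => e) (fun e : Empty => (e.elim : ℝ)) s⁻¹ (s ^ 4) (s ^ 5) (s ^ 2) 2
      (9 / 10 / s ^ 4) 1 (Ls s) (fun _ => cc s) (ls s) (fun _ _ => 1) (D0 s) (c0 s (cc s))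
      (ker h2 hc0 hc1) (sq6 hs) rot (dis h2) (by positivity)
  have hsq : ∀ t ∈ Ico 0 T, Summable fun m : ℕ => z (Sum.inl m) t ^ 2 := by
    intro t ht
    obtain ⟨M, hM⟩ := hsol.rapid 0 t ht.2
    have h3 := (hM t ⟨ht.1, le_rfl⟩).1
    unfold Sk at h3
    have h4 := h3.comp_injective (i := fun m : ℕ => (Sum.inl m : Ix Empty)) Sum.inl_injective
    refine h4.congr fun m => ?_
    simp [Function.comp]
  refine ⟨T, fun n t => z (Sum.inl n) t, hT, hinit.1, hinit.2.1, ?_, ?_, ?_, ?_⟩
  · intro n t ht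
    have h3 := hsol.deriv (Sum.inl n) t ht
    have e1 := bl_eq s (cc s) (fun a => z a t) n (hsq t ht)
    have e2 := lin_eq s (fun a => z a t) n
    have e3 : Az Q s⁻¹ (Ls s) g0 (fun e => e) (fun e : Empty => (e.elim : ℝ)) (fun a => z a t)
        (Sum.inl n) = 0 := rfl
    rw [e1, e2, e3] at h3
    have e4 : (0 : ℝ) - ls s n * z (Sum.inl n) t + vq s (cc s) (fun m => z (Sum.inl m) t) n =
        vf s (cc s) (fun m => z (Sum.inl m) t) n := by
      unfold vf ls
      ring
    rw [e4] at h3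
    exact h3
  · intro k T' hT'
    obtain ⟨M, hM⟩ := hsol.rapid k T' hT'
    refine ⟨√M, fun t ht n => ?_⟩
    obtain ⟨hs1, hs2⟩ := hM t ht
    have h3 : (Ls s n ^ k * z (Sum.inl n) t) ^ 2 ≤ M := by
      refine le_trans ?_ hs2
      exact hs1.le_tsum (Sum.inl n) (fun j _ => sq_nonneg _)
    have h4 := Real.abs_le_sqrt h3
    rw [abs_mul, abs_of_nonneg (pow_nonneg (Ls_pos h2 n).le k)] at h4
    refine le_trans (mul_le_mul_of_nonneg_right ?_ (abs_nonneg _)) h4
    unfold Ls
    rw [← pow_mul]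
    apply pow_le_pow_right₀ h1
    calc k * n = n * k := mul_comm _ _
      _ ≤ 5 * n * k := by nlinarith [Nat.zero_le (n * k)]
  · intro n
    obtain ⟨t, ht, a, ha, hax, _⟩ := hgrow n
    refine ⟨t, ht, ?_⟩
    have h5 : (9 / 1000 / s) ^ n = (9 / 1000 * s⁻¹) ^ n := by
      rw [div_eq_mul_inv]
    have h6 : 0 ≤ (9 / 1000 * s⁻¹) ^ n := by positivity
    rw [h5]
    simp only at hax
    linarith
  · obtain ⟨C₀, hC⟩ := hTI
    refine ⟨C₀, fun t ht n => ?_⟩
    have h3 := hC t ht n
    rw [kL h2] at h3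
    have h4 : z (Sum.inl n) t ^ 2 ≤ Yt (fun n => z (Sum.inl n)) (wz g0 z) n t := by
      unfold Yt
      have hs1 : Summable fun k : ℕ => z (Sum.inl (n + k)) t ^ 2 + wz g0 z (n + k) t ^ 2 := by
        have := (summable_nat_add_iff (f := fun m => z (Sum.inl m) t ^ 2) n).2 (hsq t ht)
        refine this.congr fun m => ?_
        rw [wz_eq, add_comm n m]
        ring
      have := hs1.le_tsum 0 (fun j _ => by positivity)
      refine le_trans ?_ this
      rw [wz_eq]
      simp
    have h5 := Real.abs_le_sqrt h4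
    have h6 : 0 ≤ 1 + s ^ (4 * n) * (T - t) := by
      have : 0 ≤ T - t := by linarith [ht.2]
      positivity
    have h7 : |z (Sum.inl n) t| * (1 + s ^ (4 * n) * (T - t)) ≤ C₀ * s⁻¹ ^ n :=
      le_trans (mul_le_mul_of_nonneg_right h5 h6) h3
    calc s ^ n * (1 + s ^ (4 * n) * (T - t)) * |z (Sum.inl n) t|
        = s ^ n * (|z (Sum.inl n) t| * (1 + s ^ (4 * n) * (T - t))) := by ring
      _ ≤ s ^ n * (C₀ * s⁻¹ ^ n) := by gcongr
      _ = C₀ := by
          rw [inv_pow]
          field_simp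

/-- The library theorem (`Pool.Agent.Y5.S2.t_BLOW6`, repeated here to keep the imports small). -/
theorem blow6 : S_BLOW6 :=
  Pool.Agent.Y515.NS6.t_BLOWA6
    (Pool.Agent.Y689.S2.t_WPC Pool.Agent.Y954.S2.t_WPA Pool.Agent.Y614.S2.t_EST6)
    (Pool.Agent.Y6.S.t_DYN6_of Pool.Agent.Y8.SK.s_ODERT)

end Pool.Agent.N976.SC.T2

namespace Pool.Agent.N976.SC

/-- (T2) Blow-up for the reduced system. -/
theorem t_ODE : S_ODE := T2.ode_of T2.blow6

end Pool.Agent.N976.SC
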