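import Pool.Agent.N976.SC.Def

/-!
# Steps T7 and T8: regularity of the right-hand side of the reduced system in time, the pointwise
upper bound and the lower bound for the series of packets.
-/

open Set Filter Topology MeasureTheory
open scoped ContDiff

set_option autoImplicit false

namespace Pool.Agent.N976.SC

namespace T78

/-! ### Elementary estimates -/

/-- From a weighted bound with exponent `k` to one with a smaller exponent. -/
theorem weak {s : ℝ} (hs : 1 < s) {k l : ℕ} (hkl : l ≤ k) {n : ℕ} {a M : ℝ}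
    (h : s ^ (k * n) * |a| ≤ M) : s ^ (l * n) * |a| ≤ M :=
  (mul_le_mul_of_nonneg_right
    (pow_le_pow_right₀ hs.le (Nat.mul_le_mul_right n hkl)) (abs_nonneg a)).trans h

theorem weak0 {s : ℝ} (hs : 1 < s) {k : ℕ} {n : ℕ} {a M : ℝ}
    (h : s ^ (k * n) * |a| ≤ M) : |a| ≤ M := by
  have := weak hs (Nat.zero_le k) h
  simpa using this

/-- One power of `s` of room gives a factor `s⁻¹ ^ n`. -/
theorem room {s : ℝ} (hs : 1 < s) {k : ℕ} {n : ℕ} {a M : ℝ}
    (h : s ^ ((k + 1) * n) * |a| ≤ M) : s ^ (k * n) * |a| ≤ M * s⁻¹ ^ n := by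
  have hs0 : 0 < s := by linarith
  have hp : 0 < s ^ n := pow_pos hs0 n
  have e : s ^ (k * n) * |a| = (s ^ ((k + 1) * n) * |a|) * s⁻¹ ^ n := by
    rw [add_mul, one_mul, pow_add, inv_pow]
    field_simp
  rw [e]
  exact mul_le_mul_of_nonneg_right h (by positivity)

theorem sum_geo {s : ℝ} (hs : 1 < s) (n : ℕ) :
    ∑ i ∈ Finset.range n, s⁻¹ ^ i ≤ (1 - s⁻¹)⁻¹ := by
  have h0 : (0 : ℝ) ≤ s⁻¹ := inv_nonneg.2 (by linarith)
  have h1 : s⁻¹ < 1 := inv_lt_one_of_one_lt₀ hs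
  rw [← tsum_geometric_of_lt_one h0 h1]
  exact (summable_geometric_of_lt_one h0 h1).sum_le_tsum _ (fun i _ => by positivity)

/-- The bound for the quadratic part. -/
theorem vf_bd {s c : ℝ} (hs : 1 < s) {k : ℕ} {a : ℕ → ℝ} {M : ℝ} (hM : 0 ≤ M)
    (h : ∀ n, s ^ ((k + 6) * n) * |a n| ≤ M) (n : ℕ) :
    s ^ (k * n) * |vf s c a n| ≤
      9 / 10 * M + s ^ k * |c| * (M * M) + |c| * (M * M) + M * (M * (1 - s⁻¹)⁻¹)
        + M * M * (1 - s⁻¹)⁻¹ := by
  have hs0 : 0 < s := by linarith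
  have h0 : (0 : ℝ) ≤ s⁻¹ := inv_nonneg.2 hs0.le
  have h1 : s⁻¹ < 1 := inv_lt_one_of_one_lt₀ hs
  have hpk : ∀ m : ℕ, 0 < s ^ m := fun m => pow_pos hs0 m
  -- first term
  have t1 : s ^ (k * n) * |-(9 / 10 * s ^ (4 * n) / s ^ 4 * a n)| ≤ 9 / 10 * M := by
    have e : s ^ (k * n) * |-(9 / 10 * s ^ (4 * n) / s ^ 4 * a n)| =
        9 / 10 * (s ^ ((k + 4) * n) * |a n| / s ^ 4) := by
      rw [abs_neg, abs_mul, abs_div, abs_mul, abs_of_pos (hpk _), abs_of_pos (hpk _),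
        abs_of_pos (by norm_num : (0 : ℝ) < 9 / 10), add_mul, pow_add]
      ring
    rw [e]
    have h4 : s ^ ((k + 4) * n) * |a n| ≤ M := weak hs (by omega) (h n)
    have h5 : s ^ ((k + 4) * n) * |a n| / s ^ 4 ≤ M := by
      refine (div_le_self (by positivity) ?_).trans h4
      exact one_le_pow₀ hs.le
    linarith
  -- second term
  have t2 : s ^ (k * n) * |if n = 0 then 0 else s ^ (5 * (n - 1)) * c * a (n - 1) ^ 2| ≤
      s ^ k * |c| * (M * M) := by
    rcases n with _ | m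
    · simp; positivity
    · rw [if_neg (Nat.succ_ne_zero m), Nat.add_sub_cancel]
      have e : s ^ (k * (m + 1)) * |s ^ (5 * m) * c * a m ^ 2| =
          s ^ k * |c| * ((s ^ ((k + 5) * m) * |a m|) * |a m|) := by
        rw [abs_mul, abs_mul, abs_of_pos (hpk (5 * m)), abs_pow (a m)]
        rw [show k * (m + 1) = k + k * m by ring, pow_add, show (k + 5) * m = k * m + 5 * m by ring,
          pow_add]
        ring
      rw [e]
      have h4 : s ^ ((k + 5) * m) * |a m| ≤ M := weak hs (by omega) (h m)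
      have h5 : |a m| ≤ M := weak0 hs (h m)
      exact mul_le_mul_of_nonneg_left (mul_le_mul h4 h5 (abs_nonneg _) hM) (by positivity)
  -- third term
  have t3 : s ^ (k * n) * |s ^ (5 * n) * c * a n * a (n + 1)| ≤ |c| * (M * M) := by
    have e : s ^ (k * n) * |s ^ (5 * n) * c * a n * a (n + 1)| =
        |c| * ((s ^ ((k + 5) * n) * |a n|) * |a (n + 1)|) := by
      rw [abs_mul, abs_mul, abs_mul, abs_of_pos (hpk _), add_mul, pow_add]
      ring
    rw [e]
    have h4 : s ^ ((k + 5) * n) * |a n| ≤ M := weak hs (by omega) (h n)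
    have h5 : |a (n + 1)| ≤ M := weak0 hs (h (n + 1))
    exact mul_le_mul_of_nonneg_left (mul_le_mul h4 h5 (abs_nonneg _) hM) (by positivity)
  -- fourth term
  have t4 : s ^ (k * n) * |a n * ∑ i ∈ Finset.range n, s ^ (5 * i) * a i| ≤
      M * (M * (1 - s⁻¹)⁻¹) := by
    rw [abs_mul, ← mul_assoc]
    have h4 : s ^ (k * n) * |a n| ≤ M := weak hs (by omega) (h n)
    have h5 : |∑ i ∈ Finset.range n, s ^ (5 * i) * a i| ≤ M * (1 - s⁻¹)⁻¹ := by
      calc |∑ i ∈ Finset.range n, s ^ (5 * i) * a i|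
          ≤ ∑ i ∈ Finset.range n, |s ^ (5 * i) * a i| := Finset.abs_sum_le_sum_abs _ _
        _ ≤ ∑ i ∈ Finset.range n, M * s⁻¹ ^ i := by
            refine Finset.sum_le_sum fun i _ => ?_
            rw [abs_mul, abs_of_pos (hpk _)]
            exact room hs (weak hs (by omega) (h i))
        _ = M * ∑ i ∈ Finset.range n, s⁻¹ ^ i := by rw [Finset.mul_sum]
        _ ≤ M * (1 - s⁻¹)⁻¹ := mul_le_mul_of_nonneg_left (sum_geo hs n) hM
    exact mul_le_mul h4 h5 (abs_nonneg _) hM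
  -- fifth term
  have t5 : s ^ (k * n) * |s ^ (5 * n) * ∑' m : ℕ, a (n + 1 + m) ^ 2| ≤
      M * M * (1 - s⁻¹)⁻¹ := by
    have e : s ^ (k * n) * |s ^ (5 * n) * ∑' m : ℕ, a (n + 1 + m) ^ 2| =
        ∑' m : ℕ, s ^ ((k + 5) * n) * a (n + 1 + m) ^ 2 := by
      rw [abs_mul, abs_of_pos (hpk _), abs_of_nonneg (tsum_nonneg fun m => sq_nonneg _), ← mul_assoc,
        ← pow_add, ← add_mul, tsum_mul_left]
    rw [e]
    have hb : ∀ m : ℕ, s ^ ((k + 5) * n) * a (n + 1 + m) ^ 2 ≤ M * M * s⁻¹ ^ m := by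
      intro m
      have h4 : s ^ ((k + 5) * (n + 1 + m)) * |a (n + 1 + m)| ≤ M * s⁻¹ ^ (n + 1 + m) :=
        room hs (h (n + 1 + m))
      have h5 : |a (n + 1 + m)| ≤ M := weak0 hs (h (n + 1 + m))
      have h6 : s ^ ((k + 5) * n) ≤ s ^ ((k + 5) * (n + 1 + m)) :=
        pow_le_pow_right₀ hs.le (Nat.mul_le_mul_left _ (by omega))
      have h7 : s⁻¹ ^ (n + 1 + m) ≤ s⁻¹ ^ m := pow_le_pow_of_le_one h0 h1.le (by omega)
      calc s ^ ((k + 5) * n) * a (n + 1 + m) ^ 2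
          = s ^ ((k + 5) * n) * |a (n + 1 + m)| * |a (n + 1 + m)| := by
            rw [← sq_abs (a (n + 1 + m))]; ring
        _ ≤ s ^ ((k + 5) * (n + 1 + m)) * |a (n + 1 + m)| * |a (n + 1 + m)| := by gcongr
        _ ≤ M * s⁻¹ ^ (n + 1 + m) * M := mul_le_mul h4 h5 (abs_nonneg _) (by positivity)
        _ ≤ M * s⁻¹ ^ m * M := by gcongr
        _ = M * M * s⁻¹ ^ m := by ring
    have hg : HasSum (fun m : ℕ => M * M * s⁻¹ ^ m) (M * M * (1 - s⁻¹)⁻¹) :=
      (hasSum_geometric_of_lt_one h0 h1).mul_left _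
    have hsm : Summable (fun m : ℕ => s ^ ((k + 5) * n) * a (n + 1 + m) ^ 2) :=
      Summable.of_nonneg_of_le (fun m => by positivity) hb hg.summable
    exact hasSum_le hb hsm.hasSum hg
  -- conclusion
  have htri : |vf s c a n| ≤ |-(9 / 10 * s ^ (4 * n) / s ^ 4 * a n)| +
      |if n = 0 then 0 else s ^ (5 * (n - 1)) * c * a (n - 1) ^ 2| +
      |s ^ (5 * n) * c * a n * a (n + 1)| + |a n * ∑ i ∈ Finset.range n, s ^ (5 * i) * a i| +
      |s ^ (5 * n) * ∑' m : ℕ, a (n + 1 + m) ^ 2| := by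
    unfold vf vq
    set A := -(9 / 10 * s ^ (4 * n) / s ^ 4 * a n)
    set B := (if n = 0 then 0 else s ^ (5 * (n - 1)) * c * a (n - 1) ^ 2)
    set C := s ^ (5 * n) * c * a n * a (n + 1)
    set D := a n * ∑ i ∈ Finset.range n, s ^ (5 * i) * a i
    set E := s ^ (5 * n) * ∑' m : ℕ, a (n + 1 + m) ^ 2
    rw [abs_le]
    have hA := abs_le.1 (le_refl |A|)
    have hB := abs_le.1 (le_refl |B|)
    have hC := abs_le.1 (le_refl |C|)
    have hD := abs_le.1 (le_refl |D|)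
    have hE := abs_le.1 (le_refl |E|)
    constructor <;> linarith [hA.1, hA.2, hB.1, hB.2, hC.1, hC.2, hD.1, hD.2, hE.1, hE.2]
  have := mul_le_mul_of_nonneg_left htri (hpk (k * n)).le
  rw [mul_add, mul_add, mul_add, mul_add] at this
  linarith

/-- Continuity of the tail sums. -/
theorem tail_cont {s T : ℝ} {x : ℕ → ℝ → ℝ} (hs : 1 < s)
    (hc : ∀ n, ContinuousOn (x n) (Ico 0 T)) (hx : RapT s T x) (n : ℕ) :
    ContinuousOn (fun t => ∑' m : ℕ, x (n + 1 + m) t ^ 2) (Ico 0 T) := by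
  have hs0 : 0 < s := by linarith
  have h0 : (0 : ℝ) ≤ s⁻¹ := inv_nonneg.2 hs0.le
  have h1 : s⁻¹ < 1 := inv_lt_one_of_one_lt₀ hs
  intro t₀ ht₀
  obtain ⟨T', hT1, hT2⟩ := exists_between ht₀.2
  obtain ⟨M, hM⟩ := hx 1 T' hT2
  have hT0 : 0 ≤ T' := ht₀.1.trans hT1.le
  have hsub : Icc 0 T' ⊆ Ico 0 T := fun t ht => ⟨ht.1, ht.2.trans_lt hT2⟩
  have hM0 : 0 ≤ M := by
    have := hM 0 ⟨le_rfl, hT0⟩ 0
    refine le_trans ?_ this
    positivity
  have hcont : ContinuousOn (fun t => ∑' m : ℕ, x (n + 1 + m) t ^ 2) (Icc 0 T') := by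
    refine continuousOn_tsum (u := fun m : ℕ => M * M * s⁻¹ ^ m)
      (fun m => ((hc (n + 1 + m)).mono hsub).pow 2)
      ((summable_geometric_of_lt_one h0 h1).mul_left _) ?_
    intro m t ht
    have h4 : |x (n + 1 + m) t| ≤ M * s⁻¹ ^ (n + 1 + m) := by
      have h5 := hM t ht (n + 1 + m)
      have h6 : s ^ ((0 + 1) * (n + 1 + m)) * |x (n + 1 + m) t| ≤ M := by simpa using h5
      simpa using room hs h6
    have h5 : |x (n + 1 + m) t| ≤ M := weak0 hs (hM t ht (n + 1 + m))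
    have h7 : s⁻¹ ^ (n + 1 + m) ≤ s⁻¹ ^ m := pow_le_pow_of_le_one h0 h1.le (by omega)
    rw [Real.norm_eq_abs, abs_pow, sq]
    calc |x (n + 1 + m) t| * |x (n + 1 + m) t| ≤ M * s⁻¹ ^ (n + 1 + m) * M :=
          mul_le_mul h4 h5 (abs_nonneg _) (by positivity)
      _ ≤ M * s⁻¹ ^ m * M := by gcongr
      _ = M * M * s⁻¹ ^ m := by ring
  have hmem : Icc 0 T' ∈ 𝓝[Ico 0 T] t₀ := by
    rw [mem_nhdsWithin]
    exact ⟨Iio T', isOpen_Iio, hT1, fun t ht => ⟨ht.2.1, le_of_lt ht.1⟩⟩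
  exact (hcont t₀ ⟨ht₀.1, hT1.le⟩).mono_of_mem_nhdsWithin hmem

end T78

open T78

theorem t_VFC : S_VFC := by
  intro s c T x hs hc hx
  refine ⟨fun n => ?_, fun k T' hT' => ?_⟩
  · have htail := tail_cont hs hc hx n
    have hn := hc n
    have hn1 := hc (n + 1)
    have hsum : ContinuousOn (fun t => ∑ i ∈ Finset.range n, s ^ (5 * i) * x i t) (Ico 0 T) :=
      continuousOn_finsetSum _ fun i _ => continuousOn_const.mul (hc i)
    have hfirst : ContinuousOn (fun t => if n = 0 then (0 : ℝ) else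
        s ^ (5 * (n - 1)) * c * x (n - 1) t ^ 2) (Ico 0 T) := by
      by_cases h : n = 0
      · simp only [h, if_true]; exact continuousOn_const
      · simp only [if_neg h]; exact continuousOn_const.mul ((hc (n - 1)).pow 2)
    unfold vf vq
    exact (continuousOn_const.mul hn).neg.add
      (((hfirst.sub ((continuousOn_const.mul hn).mul hn1)).add (hn.mul hsum)).sub
        (continuousOn_const.mul htail))
  · obtain ⟨M, hM⟩ := hx (k + 6) T' hT'
    refine ⟨9 / 10 * |M| + s ^ k * |c| * (|M| * |M|) + |c| * (|M| * |M|) +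
      |M| * (|M| * (1 - s⁻¹)⁻¹) + |M| * |M| * (1 - s⁻¹)⁻¹, fun t ht n => ?_⟩
    exact vf_bd hs (abs_nonneg M) (fun m => (hM t ht m).trans (le_abs_self M)) n

namespace T78

/-! ### The packets -/

theorem pk_cont {s : ℝ} {P : E3 → E3} (hP : Continuous P) (n : ℕ) : Continuous (pk s P n) := by
  have h : Continuous fun y : E3 => s ^ (3 * n) • P (s ^ (2 * n) • y) := by fun_prop
  exact h

theorem P_bdd {P : E3 → E3} (hP : Continuous P) (hout : ∀ y, 1 / 2 ≤ ‖y‖ → P y = 0) :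
    ∃ C : ℝ, 0 ≤ C ∧ ∀ y, ‖P y‖ ≤ C := by
  have hcs : HasCompactSupport P := by
    refine HasCompactSupport.of_support_subset_isCompact
      (isCompact_closedBall (0 : E3) (1 / 2)) ?_
    intro y hy
    rw [mem_closedBall_zero_iff]
    by_contra h
    exact hy (hout y (not_le.1 h).le)
  obtain ⟨C, hC⟩ := hP.bounded_above_of_compact_support hcs
  exact ⟨C, (norm_nonneg _).trans (hC 0), hC⟩

theorem pk_norm {s : ℝ} (hs : 1 < s) {P : E3 → E3} {C : ℝ} (hC : ∀ y, ‖P y‖ ≤ C) (n : ℕ) (y : E3) :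
    ‖pk s P n y‖ ≤ s ^ (3 * n) * C := by
  have hs0 : 0 < s := by linarith
  unfold pk
  rw [norm_smul, Real.norm_eq_abs, abs_of_pos (pow_pos hs0 _)]
  exact mul_le_mul_of_nonneg_left (hC _) (pow_pos hs0 _).le

theorem pk_zero {s : ℝ} (hs : 1 < s) {P : E3 → E3} (hout : ∀ y, 1 / 2 ≤ ‖y‖ → P y = 0) {n : ℕ}
    {y : E3} (hy : 1 / 2 ≤ s ^ (2 * n) * ‖y‖) : pk s P n y = 0 := by
  have hs0 : 0 < s := by linarith
  unfold pk
  rw [hout, smul_zero]
  rw [norm_smul, Real.norm_eq_abs, abs_of_pos (pow_pos hs0 _)]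
  exact hy

theorem ser_summable {s : ℝ} (hs : 1 < s) {P : E3 → E3} {C : ℝ} (hC0 : 0 ≤ C)
    (hC : ∀ y, ‖P y‖ ≤ C) {a : ℕ → ℝ} (ha : Rap s a) (y : E3) :
    Summable (fun n => a n • pk s P n y) := by
  have hs0 : 0 < s := by linarith
  have h0 : (0 : ℝ) ≤ s⁻¹ := inv_nonneg.2 hs0.le
  have h1 : s⁻¹ < 1 := inv_lt_one_of_one_lt₀ hs
  obtain ⟨M, hM⟩ := ha (3 + 1)
  refine Summable.of_norm_bounded (g := fun n => M * s⁻¹ ^ n * C)
    (((summable_geometric_of_lt_one h0 h1).mul_left M).mul_right C) fun n => ?_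
  rw [norm_smul, Real.norm_eq_abs]
  calc |a n| * ‖pk s P n y‖ ≤ |a n| * (s ^ (3 * n) * C) :=
        mul_le_mul_of_nonneg_left (pk_norm hs hC n y) (abs_nonneg _)
    _ = s ^ (3 * n) * |a n| * C := by ring
    _ ≤ M * s⁻¹ ^ n * C := mul_le_mul_of_nonneg_right (room hs (hM n)) hC0

/-- `∑ min(qⁿ δ, (qⁿ δ)⁻¹)` is bounded. -/
theorem two_sided {N : ℕ} : HasSum (fun n : ℕ => if n < N then ((1 : ℝ) / 4) ^ (N - 1 - n)
    else (1 / 4) ^ (n - N)) (∑ j ∈ Finset.range N, ((1 : ℝ) / 4) ^ j + 4 / 3) := by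
  have hg : HasSum (fun n : ℕ => ((1 : ℝ) / 4) ^ n) (4 / 3) := by
    have := hasSum_geometric_of_lt_one (r := (1 : ℝ) / 4) (by norm_num) (by norm_num)
    convert this using 1; norm_num
  rw [← hasSum_nat_add_iff' N]
  have e1 : ∑ i ∈ Finset.range N, (if i < N then ((1 : ℝ) / 4) ^ (N - 1 - i)
      else (1 / 4) ^ (i - N)) = ∑ j ∈ Finset.range N, ((1 : ℝ) / 4) ^ j := by
    rw [← Finset.sum_range_reflect (fun j => ((1 : ℝ) / 4) ^ j)]
    refine Finset.sum_congr rfl fun i hi => ?_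
    rw [if_pos (Finset.mem_range.1 hi)]
  rw [e1, add_sub_cancel_left]
  have e2 : (fun n : ℕ => if n + N < N then ((1 : ℝ) / 4) ^ (N - 1 - (n + N))
      else (1 / 4) ^ (n + N - N)) = fun n : ℕ => ((1 : ℝ) / 4) ^ n := by
    funext n
    rw [if_neg (by omega), Nat.add_sub_cancel]
  rw [e2]
  exact hg

theorem two_sided_le {N : ℕ} : ∑ j ∈ Finset.range N, ((1 : ℝ) / 4) ^ j + 4 / 3 ≤ 3 := by
  have h : ∑ j ∈ Finset.range N, ((1 : ℝ) / 4) ^ j ≤ ∑' j : ℕ, ((1 : ℝ) / 4) ^ j :=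
    (summable_geometric_of_lt_one (by norm_num) (by norm_num)).sum_le_tsum _
      (fun i _ => by positivity)
  rw [tsum_geometric_of_lt_one (by norm_num) (by norm_num)] at h
  norm_num at h ⊢
  linarith

end T78

theorem t_UP : S_UP := by
  intro s P hs2 hP hout
  have hs : 1 < s := by linarith
  have hs0 : 0 < s := by linarith
  obtain ⟨C1, hC10, hC1⟩ := P_bdd hP hout
  refine ⟨6 * C1, fun a τ C₀ hτ ha hb y => ?_⟩
  have hC0 : 0 ≤ C₀ := by
    refine le_trans ?_ (hb 0)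
    positivity
  set δ : ℝ := ‖y‖ + √τ with hδ
  have hy0 : 0 ≤ ‖y‖ := norm_nonneg y
  have hτ0 : 0 ≤ √τ := Real.sqrt_nonneg τ
  have hδ0 : 0 ≤ δ := by positivity
  rcases hδ0.eq_or_lt with h | hδp
  · rw [← h]; simp only [zero_mul]; positivity
  have hq4 : (4 : ℝ) ≤ s ^ 2 := by nlinarith
  have hqpos : ∀ n : ℕ, 0 < s ^ (2 * n) := fun n => pow_pos hs0 _
  -- the least index with `q^N δ > 1`
  have hex : ∃ N : ℕ, 1 < s ^ (2 * N) * δ := by
    obtain ⟨N, hN⟩ := pow_unbounded_of_one_lt (1 / δ) (by linarith : (1 : ℝ) < s ^ 2)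
    refine ⟨N, ?_⟩
    rw [pow_mul]
    rw [div_lt_iff₀ hδp] at hN
    exact hN
  classical
  obtain ⟨N, hN, hmin⟩ : ∃ N : ℕ, 1 < s ^ (2 * N) * δ ∧ ∀ m < N, s ^ (2 * m) * δ ≤ 1 :=
    ⟨Nat.find hex, Nat.find_spec hex, fun m hm => not_lt.1 (Nat.find_min hex hm)⟩
  -- termwise estimate
  have key : ∀ n : ℕ, ‖a n • pk s P n y‖ ≤ (2 * C₀ * C1 / δ) *
      (if n < N then ((1 : ℝ) / 4) ^ (N - 1 - n) else (1 / 4) ^ (n - N)) := by
    intro n
    by_cases hout' : 1 / 2 ≤ s ^ (2 * n) * ‖y‖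
    · rw [pk_zero hs hout hout', smul_zero, norm_zero]
      split_ifs <;> positivity
    · have hlt : s ^ (2 * n) * ‖y‖ < 1 / 2 := not_le.1 hout'
      set Q : ℝ := s ^ (2 * n) with hQ
      have hQp : 0 < Q := hqpos n
      have hden : 0 < 1 + Q ^ 2 * τ := by positivity
      -- `|a n| s^(3n) ≤ C₀ Q / (1 + Q² τ)`
      have hA : s ^ (3 * n) * |a n| * (1 + Q ^ 2 * τ) ≤ C₀ * Q := by
        have := hb n
        have e : s ^ (3 * n) * |a n| * (1 + Q ^ 2 * τ) =
            (s ^ n * (1 + s ^ (4 * n) * τ) * |a n|) * Q := by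
          rw [hQ, ← pow_mul, show 2 * n * 2 = 4 * n by ring, show 3 * n = n + 2 * n by ring,
            pow_add]
          ring
        rw [e]
        exact mul_le_mul_of_nonneg_right this hQp.le
      have hsq : Q ^ 2 * δ ^ 2 ≤ 2 * (1 + Q ^ 2 * τ) := by
        have h1 : δ ^ 2 ≤ 2 * (‖y‖ ^ 2 + τ) := by
          have : √τ ^ 2 = τ := Real.sq_sqrt hτ
          nlinarith [sq_nonneg (‖y‖ - √τ)]
        have h2 : (Q * ‖y‖) ^ 2 ≤ 1 := by
          have : 0 ≤ Q * ‖y‖ := by positivity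
          nlinarith
        have h3 : Q ^ 2 * δ ^ 2 ≤ Q ^ 2 * (2 * (‖y‖ ^ 2 + τ)) :=
          mul_le_mul_of_nonneg_left h1 (by positivity)
        nlinarith
      have hanorm : ‖a n • pk s P n y‖ ≤ s ^ (3 * n) * |a n| * C1 := by
        rw [norm_smul, Real.norm_eq_abs]
        calc |a n| * ‖pk s P n y‖ ≤ |a n| * (s ^ (3 * n) * C1) :=
              mul_le_mul_of_nonneg_left (pk_norm hs hC1 n y) (abs_nonneg _)
          _ = s ^ (3 * n) * |a n| * C1 := by ring
      have hz : 0 ≤ s ^ (3 * n) * |a n| := by positivity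
      -- two bounds
      have hb1 : s ^ (3 * n) * |a n| * δ ≤ 2 * C₀ * (Q * δ) := by
        have : s ^ (3 * n) * |a n| ≤ C₀ * Q := by
          refine le_trans ?_ hA
          refine le_mul_of_one_le_right hz ?_
          have : 0 ≤ Q ^ 2 * τ := by positivity
          linarith
        have h2 : s ^ (3 * n) * |a n| * δ ≤ C₀ * Q * δ := mul_le_mul_of_nonneg_right this hδ0
        have h3 : 0 ≤ C₀ * Q * δ := by positivity
        nlinarith
      have hb2 : s ^ (3 * n) * |a n| * δ * (Q * δ) ≤ 2 * C₀ := by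
        have h4 : s ^ (3 * n) * |a n| * (Q ^ 2 * δ ^ 2) ≤ 2 * (C₀ * Q) := by
          calc s ^ (3 * n) * |a n| * (Q ^ 2 * δ ^ 2)
              ≤ s ^ (3 * n) * |a n| * (2 * (1 + Q ^ 2 * τ)) := mul_le_mul_of_nonneg_left hsq hz
            _ = 2 * (s ^ (3 * n) * |a n| * (1 + Q ^ 2 * τ)) := by ring
            _ ≤ 2 * (C₀ * Q) := by linarith
        have h5 : (s ^ (3 * n) * |a n| * δ * (Q * δ)) * Q ≤ (2 * C₀) * Q := by nlinarith
        exact le_of_mul_le_mul_right h5 hQp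
      have goal1 : s ^ (3 * n) * |a n| * δ ≤ 2 * C₀ *
          (if n < N then ((1 : ℝ) / 4) ^ (N - 1 - n) else (1 / 4) ^ (n - N)) := by
        split_ifs with hn
        · refine hb1.trans (mul_le_mul_of_nonneg_left ?_ (by positivity))
          -- `Q δ ≤ 4^{-(N-1-n)}`
          have h6 := hmin (N - 1) (by omega)
          have h7 : s ^ (2 * (N - 1)) = Q * (s ^ 2) ^ (N - 1 - n) := by
            rw [hQ, ← pow_mul, ← pow_add]; congr 1; omega
          rw [h7] at h6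
          have h8 : (4 : ℝ) ^ (N - 1 - n) ≤ (s ^ 2) ^ (N - 1 - n) :=
            pow_le_pow_left₀ (by norm_num) hq4 _
          rw [one_div, inv_pow, ← one_div, le_div_iff₀ (by positivity)]
          calc Q * δ * 4 ^ (N - 1 - n) ≤ Q * δ * (s ^ 2) ^ (N - 1 - n) :=
                mul_le_mul_of_nonneg_left h8 (by positivity)
            _ = Q * (s ^ 2) ^ (N - 1 - n) * δ := by ring
            _ ≤ 1 := h6
        · -- `(Q δ)⁻¹ ≤ 4^{-(n-N)}`
          have hn' : N ≤ n := not_lt.1 hn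
          have h7 : Q = s ^ (2 * N) * (s ^ 2) ^ (n - N) := by
            rw [hQ, ← pow_mul, ← pow_add]; congr 1; omega
          have h8 : (4 : ℝ) ^ (n - N) ≤ (s ^ 2) ^ (n - N) := pow_le_pow_left₀ (by norm_num) hq4 _
          have h9 : (4 : ℝ) ^ (n - N) ≤ Q * δ := by
            calc (4 : ℝ) ^ (n - N) ≤ (s ^ 2) ^ (n - N) := h8
              _ ≤ (s ^ (2 * N) * δ) * (s ^ 2) ^ (n - N) :=
                  le_mul_of_one_le_left (by positivity) hN.le
              _ = Q * δ := by rw [h7]; ring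
          rw [one_div, inv_pow, ← div_eq_mul_inv, le_div_iff₀ (by positivity)]
          exact (mul_le_mul_of_nonneg_left h9 (by positivity)).trans hb2
      calc ‖a n • pk s P n y‖ ≤ s ^ (3 * n) * |a n| * C1 := hanorm
        _ = (s ^ (3 * n) * |a n| * δ) * (C1 / δ) := by field_simp
        _ ≤ (2 * C₀ * (if n < N then ((1 : ℝ) / 4) ^ (N - 1 - n) else (1 / 4) ^ (n - N))) *
            (C1 / δ) := mul_le_mul_of_nonneg_right goal1 (by positivity)
        _ = _ := by ring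
  have hsum := (two_sided (N := N)).mul_left (2 * C₀ * C1 / δ)
  have hfin : ‖ser s P a y‖ ≤ (2 * C₀ * C1 / δ) *
      (∑ j ∈ Finset.range N, ((1 : ℝ) / 4) ^ j + 4 / 3) := by
    unfold ser
    exact tsum_of_norm_bounded hsum key
  have hK : 0 ≤ 2 * C₀ * C1 / δ := by positivity
  calc δ * ‖ser s P a y‖ ≤ δ * ((2 * C₀ * C1 / δ) *
        (∑ j ∈ Finset.range N, ((1 : ℝ) / 4) ^ j + 4 / 3)) :=
        mul_le_mul_of_nonneg_left hfin hδ0
    _ ≤ δ * ((2 * C₀ * C1 / δ) * 3) :=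
        mul_le_mul_of_nonneg_left (mul_le_mul_of_nonneg_left two_sided_le hK) hδ0
    _ = 6 * C1 * C₀ := by field_simp; ring

namespace T78

theorem pk_cs {s : ℝ} (hs : 1 < s) {P : E3 → E3} (hout : ∀ y, 1 / 2 ≤ ‖y‖ → P y = 0) (n : ℕ) :
    HasCompactSupport (pk s P n) := by
  refine HasCompactSupport.of_support_subset_isCompact
    (isCompact_closedBall (0 : E3) (1 / 2)) ?_
  intro y hy
  rw [mem_closedBall_zero_iff]
  by_contra h
  refine hy (pk_zero hs hout ?_)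
  have h1 : 1 ≤ s ^ (2 * n) := one_le_pow₀ hs.le
  have h2 : 1 / 2 ≤ ‖y‖ := (not_le.1 h).le
  nlinarith [norm_nonneg y]

theorem pk_int {s : ℝ} (hs : 1 < s) {P : E3 → E3} (hP : Continuous P)
    (hout : ∀ y, 1 / 2 ≤ ‖y‖ → P y = 0) (n : ℕ) : Integrable (pk s P n) :=
  (pk_cont hP n).integrable_of_hasCompactSupport (pk_cs hs hout n)

/-- `∫ |pk n| = s^(-3n) ∫ |P|`. -/
theorem pk_l1 {s : ℝ} (hs : 1 < s) {P : E3 → E3} (n : ℕ) :
    s ^ (3 * n) * ∫ y, ‖pk s P n y‖ = ∫ y, ‖P y‖ := by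
  have hs0 : 0 < s := by linarith
  have e1 : ∀ y : E3, ‖pk s P n y‖ = s ^ (3 * n) * ‖P (s ^ (2 * n) • y)‖ := by
    intro y
    unfold pk
    rw [norm_smul, Real.norm_eq_abs, abs_of_pos (pow_pos hs0 _)]
  simp_rw [e1]
  rw [integral_const_mul, Measure.integral_comp_smul volume (fun y : E3 => ‖P y‖) (s ^ (2 * n))]
  have hf : Module.finrank ℝ E3 = 3 := by simp [E3]
  rw [hf, abs_of_pos (by positivity), smul_eq_mul]
  have : s ^ (2 * n) ^ 1 ≠ 0 := by positivity
  have e2 : (s ^ (2 * n)) ^ 3 = s ^ (3 * n) * s ^ (3 * n) := by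
    rw [← pow_mul, ← pow_add]; congr 1; ring
  rw [e2]
  have : s ^ (3 * n) ≠ 0 := by positivity
  field_simp

end T78

theorem t_LOW : S_LOW := by
  intro s N P hs hP hout hN horth
  have hs0 : 0 < s := by linarith
  have h0 : (0 : ℝ) ≤ s⁻¹ := inv_nonneg.2 hs0.le
  have h1 : s⁻¹ < 1 := inv_lt_one_of_one_lt₀ hs
  obtain ⟨C1, hC10, hC1⟩ := P_bdd hP hout
  set I : ℝ := ∫ y, ‖P y‖ with hI
  have hI0 : 0 ≤ I := integral_nonneg fun y => norm_nonneg _
  refine ⟨I / N + 1, by positivity, fun a M ha hb n => ?_⟩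
  have hM0 : 0 ≤ M := (norm_nonneg _).trans (hb 0)
  -- the inner product with a packet
  have hint : ∀ m, Integrable (fun y => inner ℝ (a m • pk s P m y) (pk s P n y)) := by
    intro m
    have hcm : Continuous fun y => a m • pk s P m y := by
      have := pk_cont (s := s) hP m
      fun_prop
    refine Continuous.integrable_of_hasCompactSupport (hcm.inner (pk_cont hP n)) ?_
    refine (pk_cs hs hout n).mono ?_
    intro y hy h
    exact hy (by simp only [h, inner_zero_right])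
  have hL1 : 0 ≤ ∫ y, ‖pk s P n y‖ := integral_nonneg fun y => norm_nonneg _
  obtain ⟨M4, hM4⟩ := ha (3 + 1)
  have hsumm : Summable (fun m => ∫ y, ‖inner ℝ (a m • pk s P m y) (pk s P n y)‖) := by
    refine Summable.of_nonneg_of_le (fun m => integral_nonneg fun y => norm_nonneg _)
      (fun m => ?_) (((summable_geometric_of_lt_one h0 h1).mul_left M4).mul_right
        (C1 * ∫ y, ‖pk s P n y‖))
    have hpt : ∀ y, ‖inner ℝ (a m • pk s P m y) (pk s P n y)‖ ≤
        (M4 * s⁻¹ ^ m * C1) * ‖pk s P n y‖ := by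
      intro y
      refine (norm_inner_le_norm _ _).trans (mul_le_mul_of_nonneg_right ?_ (norm_nonneg _))
      rw [norm_smul, Real.norm_eq_abs]
      calc |a m| * ‖pk s P m y‖ ≤ |a m| * (s ^ (3 * m) * C1) :=
            mul_le_mul_of_nonneg_left (pk_norm hs hC1 m y) (abs_nonneg _)
        _ = s ^ (3 * m) * |a m| * C1 := by ring
        _ ≤ M4 * s⁻¹ ^ m * C1 := mul_le_mul_of_nonneg_right (room hs (hM4 m)) hC10
    calc ∫ y, ‖inner ℝ (a m • pk s P m y) (pk s P n y)‖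
        ≤ ∫ y, (M4 * s⁻¹ ^ m * C1) * ‖pk s P n y‖ :=
          integral_mono (hint m).norm ((pk_int hs hP hout n).norm.const_mul _) hpt
      _ = M4 * s⁻¹ ^ m * (C1 * ∫ y, ‖pk s P n y‖) := by rw [integral_const_mul]; ring
  have hex := hasSum_integral_of_summable_integral_norm hint hsumm
  have e1 : ∀ m, ∫ y, inner ℝ (a m • pk s P m y) (pk s P n y) = a m * (if m = n then N else 0) := by
    intro m
    simp_rw [real_inner_smul_left]
    rw [integral_const_mul]
    exact congrArg (a m * ·) (horth m n)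
  have e2 : ∀ y, ∑' m, inner ℝ (a m • pk s P m y) (pk s P n y) =
      inner ℝ (ser s P a y) (pk s P n y) := by
    intro y
    have hs1 := (ser_summable hs hC10 hC1 ha y).hasSum
    have hs2 := (innerSL ℝ (pk s P n y)).hasSum hs1
    have e3 : (fun m => inner ℝ (a m • pk s P m y) (pk s P n y)) =
        fun m => (innerSL ℝ) (pk s P n y) (a m • pk s P m y) := by
      funext m
      rw [real_inner_comm]
      rfl
    rw [e3, real_inner_comm]
    exact hs2.tsum_eq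
  simp_rw [e1, e2] at hex
  have hval : ∫ y, inner ℝ (ser s P a y) (pk s P n y) = a n * N := by
    have e4 : (fun m => a m * if m = n then N else 0) = fun m => if m = n then a n * N else 0 := by
      funext m
      split_ifs with h
      · rw [h]
      · ring
    rw [e4] at hex
    exact hex.unique (hasSum_ite_eq n (a n * N))
  have hle : |a n| * N ≤ M * ∫ y, ‖pk s P n y‖ := by
    calc |a n| * N = ‖∫ y, inner ℝ (ser s P a y) (pk s P n y)‖ := by
          rw [hval, Real.norm_eq_abs, abs_mul, abs_of_pos hN]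
      _ ≤ ∫ y, M * ‖pk s P n y‖ := by
          refine norm_integral_le_of_norm_le ((pk_int hs hP hout n).norm.const_mul _)
            (Eventually.of_forall fun y => ?_)
          exact (norm_inner_le_norm _ _).trans
            (mul_le_mul_of_nonneg_right (hb y) (norm_nonneg _))
      _ = M * ∫ y, ‖pk s P n y‖ := integral_const_mul _ _
  have hfin : s ^ (3 * n) * |a n| * N ≤ M * I := by
    calc s ^ (3 * n) * |a n| * N = s ^ (3 * n) * (|a n| * N) := by ring
      _ ≤ s ^ (3 * n) * (M * ∫ y, ‖pk s P n y‖) :=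
          mul_le_mul_of_nonneg_left hle (pow_pos hs0 _).le
      _ = M * (s ^ (3 * n) * ∫ y, ‖pk s P n y‖) := by ring
      _ = M * I := by rw [pk_l1 hs n]
  have : s ^ (3 * n) * |a n| ≤ M * I / N := by rwa [le_div_iff₀ hN]
  calc s ^ (3 * n) * |a n| ≤ M * I / N := this
    _ ≤ M * I / N + M := by linarith
    _ = (I / N + 1) * M := by ring

end Pool.Agent.N976.SC
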