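import Pool.Agent.N976.SC.T1
import Pool.Agent.N976.SC.T2
import Pool.Agent.N976.SC.T3
import Pool.Agent.N976.SC.T4d
import Pool.Agent.N976.SC.T5a
import Pool.Agent.N976.SC.T5b
import Pool.Agent.N976.SC.T6
import Pool.Agent.N976.SC.T78
import Pool.Agent.N976.SC.T10
import Pool.Agent.N976.SC.T11

/-! Assembly. -/

open Set Filter Topology MeasureTheory
open scoped ContDiff

set_option autoImplicit false

namespace Pool.Agent.N976.SC

open T4

lemma Sol.mono {ι : Type} {ν T T' : ℝ} {r : ι → E3 → E3} {u : ℝ → E3 → E3} (h : Sol ν r T u)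
    (hT : T' ≤ T) : Sol ν r T' u := by
  have hsub : Ico 0 T' ⊆ Ico 0 T := Ico_subset_Ico_right hT
  have hdt : ∀ t ∈ Ico 0 T', ∀ y, dt T' u t y = dt T u t y := by
    intro t ht y
    unfold dt
    have e : Ico 0 T' = Ico 0 T ∩ Iio T' := by
      ext τ
      simp only [mem_Ico, mem_inter_iff, mem_Iio]
      constructor
      · intro hτ
        exact ⟨⟨hτ.1, hτ.2.trans_le hT⟩, hτ.2⟩
      · intro hτ
        exact ⟨hτ.1.1, hτ.2⟩
    rw [e]
    exact derivWithin_inter (Iio_mem_nhds ht.2)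
  refine ⟨h.c1.mono (prod_mono hsub subset_rfl), fun t ht => h.smooth t (hsub ht),
    fun t ht => h.div t (hsub ht), ?_, fun t ht => h.con t (hsub ht), ?_⟩
  · intro T'' hT''
    obtain ⟨M, hM⟩ := h.dec T'' (hT''.trans_le hT)
    refine ⟨M, fun t ht => ⟨(hM t ht).1, fun y => ?_⟩⟩
    rw [hdt t ⟨ht.1, ht.2.trans_lt hT''⟩ y]
    exact (hM t ht).2 y
  · intro t ht w hw hc
    have := h.eqn t (hsub ht) w hw hc
    have e : (fun y => dt T' u t y + adv (u t) (u t) y - ν • lap (u t) y) =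
        fun y => dt T u t y + adv (u t) (u t) y - ν • lap (u t) y := by
      ext1 y
      rw [hdt t ht y]
    rw [e]
    exact this

lemma vq_smul (s c A : ℝ) (a : ℕ → ℝ) (n : ℕ) :
    vq s c (fun m => A * a m) n = A ^ 2 * vq s c a n := by
  unfold vq
  have h1 : ∑ i ∈ Finset.range n, s ^ (5 * i) * (A * a i) =
      A * ∑ i ∈ Finset.range n, s ^ (5 * i) * a i := by
    rw [Finset.mul_sum]
    exact Finset.sum_congr rfl fun i _ => by ring
  have h2 : ∑' m : ℕ, (A * a (n + 1 + m)) ^ 2 = A ^ 2 * ∑' m : ℕ, a (n + 1 + m) ^ 2 := by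
    rw [← tsum_mul_left]
    exact tsum_congr fun m => by ring
  rw [h1, h2]
  split_ifs <;> ring

lemma divg_ser {s : ℝ} {P : E3 → E3} {a : ℕ → ℝ} {y : E3}
    (hP : Differentiable ℝ P) (hd : ∀ y, divg P y = 0)
    (h : HasSum (fun n => a n • fderiv ℝ (pk s P n) y) (fderiv ℝ (ser s P a) y)) :
    divg (ser s P a) y = 0 := by
  have h1 : ∀ i : Fin 3, HasSum (fun n => a n * (fderiv ℝ (pk s P n) y (bv i)) i)
      ((fderiv ℝ (ser s P a) y (bv i)) i) := by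
    intro i
    have h2 := ((EuclideanSpace.proj (𝕜 := ℝ) (ι := Fin 3) i).comp
      (ContinuousLinearMap.apply ℝ E3 (bv i))).hasSum h
    exact h2
  have h3 := hasSum_sum (s := (Finset.univ : Finset (Fin 3))) fun i _ => h1 i
  have h4 : ∀ n, ∑ i : Fin 3, a n * (fderiv ℝ (pk s P n) y (bv i)) i = 0 := by
    intro n
    rw [← Finset.mul_sum]
    have := divg_pk (s := s) hP hd n y
    unfold divg at this
    rw [this, mul_zero]
  simp only [h4] at h3
  exact h3.unique hasSum_zero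

/-- The dilates `r k (R^n y)`, `n ≥ 0`, of four fields, and one further field. -/
noncomputable def fld (R : ℝ) (r0 : E3 → E3) (r : Fin 4 → E3 → E3) :
    Option (Fin 4 × ℕ) → E3 → E3
  | none => r0
  | some p => fun y => r p.1 (R ^ p.2 • y)

lemma fam_eq (s : ℝ) (r0 : E3 → E3) (r : Fin 4 → E3 → E3) : fam s r0 r = fld (s ^ 2) r0 r := by
  ext1 i
  rcases i with _ | ⟨k, n⟩
  · rfl
  · simp only [fam, fld, pow_mul]

theorem assembly (hODE : S_ODE) (hUNI : S_UNI) (hEN : S_EN) (hTBL : S_TBL)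
    (hSER1 : S_SER1) (hSER2 : S_SER2) (hIPS : S_IPS) (hQUAD : S_QUAD) (hVFC : S_VFC)
    (hUP : S_UP) (hLOW : S_LOW) (hSMT : S_SMT) (hSER3 : S_SER3) (R₀ : ℝ) :
    ∃ (R : ℝ) (P r0 : E3 → E3) (r : Fin 4 → E3 → E3), R₀ ≤ R ∧ 1 < R ∧
      ContDiff ℝ ∞ P ∧ (∀ y, divg P y = 0) ∧ (∀ y, 1 ≤ ‖y‖ → P y = 0) ∧
      ContDiff ℝ ∞ r0 ∧ (∀ y, 1 ≤ ‖y‖ → r0 y = 0) ∧
      (∀ k, ContDiff ℝ ∞ (r k) ∧ ∀ y, 1 ≤ ‖y‖ → r k y = 0) ∧
      ∀ ν : ℝ, 0 < ν → ∃ (T : ℝ) (u : ℝ → E3 → E3), 0 < T ∧ Sol ν (fld R r0 r) T u ∧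
        ContDiffOn ℝ ∞ (fun z : ℝ × E3 => u z.1 z.2) (Ico 0 T ×ˢ univ) ∧
        (∀ y, u 0 y = ν • P y) ∧ (∀ t ∈ Ico 0 T, ∀ y, 1 ≤ ‖y‖ → u t y = 0) ∧
        (∀ t ∈ Ico 0 T, ∀ w, Continuous w → (∀ i, ip w (fld R r0 r i) = 0) →
          ip (fun y => dt T u t y + adv (u t) (u t) y - ν • lap (u t) y) w = 0) ∧
        (∀ (T' : ℝ) (v : ℝ → E3 → E3), 0 < T' → Sol ν (fld R r0 r) T' v → v 0 = u 0 →
          T' ≤ T ∧ ∀ t ∈ Ico 0 T', v t = u t) ∧
        (ContinuousOn (fun t => ip (u t) (u t)) (Ico 0 T) ∧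
          ∀ t ∈ Ioo 0 T, HasDerivAt (fun τ => ip (u τ) (u τ)) (-(2 * (ν * dir (u t)))) t) ∧
        (∀ M : ℝ, ∃ t ∈ Ico 0 T, ∃ y, M < ‖u t y‖) ∧
        ∃ X : ℝ, ∀ t ∈ Ico 0 T, ∀ y, (‖y‖ + √(T - t)) * ‖u t y‖ ≤ X := by
  obtain ⟨s₁, h1⟩ := hODE
  obtain ⟨s₂, h2⟩ := hTBL
  obtain ⟨s, hs⟩ : ∃ s, s = max (max s₁ s₂) (max 12 R₀) := ⟨_, rfl⟩
  have hss1 : s₁ ≤ s := by rw [hs]; exact (le_max_left _ _).trans (le_max_left _ _)
  have hss2 : s₂ ≤ s := by rw [hs]; exact (le_max_right _ _).trans (le_max_left _ _)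
  have hs12 : 12 ≤ s := by rw [hs]; exact (le_max_left _ _).trans (le_max_right _ _)
  have hsR : R₀ ≤ s := by rw [hs]; exact (le_max_right _ _).trans (le_max_right _ _)
  have hs1 : 1 < s := by linarith
  have hs0 : 0 < s := by linarith
  obtain ⟨T₁, x, hT₁, hx0, hxs, hdx, hRx, hgr, C₀, hti⟩ := h1 s hss1
  obtain ⟨β, lam, Q, r0, r, hT, hr0, hrk⟩ := h2 s hss2
  have hβ := hT.β0
  have hlam := hT.lam0
  have hQd : Differentiable ℝ Q := hT.sm.differentiable (by simp)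
  obtain ⟨hS1, kk, CC, hS2⟩ := hSER1 s Q hs1 hT.sm hT.out
  obtain ⟨N, hN0, hNo⟩ := hT.norm
  refine ⟨s ^ 2, fun y => (5 / 3 * lam * s ^ 4 / β) • Q y, r0, r, by nlinarith, by nlinarith,
    cd_sm hT.sm _, ?_, ?_, ?_, hr0, ?_, ?_⟩
  · intro y
    have h3 := hT.div y
    unfold divg at h3 ⊢
    rw [fderiv_fun_const_smul (hQd y)]
    simp only [smul_apply, PiLp.smul_apply, smul_eq_mul, ← Finset.mul_sum, h3, mul_zero]
  · intro y hy
    simp only [hT.out y (by linarith), smul_zero]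
  · exact hT.rsm none
  · intro k
    have h3 := hT.rsm (some (k, 0))
    have e : fam s r0 r (some (k, 0)) = r k := by
      ext1 y
      simp [fam]
    rw [e] at h3
    exact ⟨h3, hrk k⟩
  intro ν hν
  rw [← fam_eq]
  -- scaling
  obtain ⟨c, hc⟩ : ∃ c, c = 10 / 9 * ν * lam * s ^ 4 := ⟨_, rfl⟩
  have hc0 : 0 < c := by rw [hc]; positivity
  obtain ⟨A, hA⟩ : ∃ A, A = c / β := ⟨_, rfl⟩
  have hA0 : 0 < A := by rw [hA]; positivity
  have hAβ : β * A = c := by rw [hA]; field_simp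
  have hcν : c * (9 / 10) / s ^ 4 = ν * lam := by
    rw [hc]
    field_simp
  obtain ⟨T, hTT⟩ : ∃ T, T = T₁ / c := ⟨_, rfl⟩
  have hT0 : 0 < T := by rw [hTT]; positivity
  have hcT : c * T = T₁ := by rw [hTT]; field_simp
  have hmap : ∀ t ∈ Ico 0 T, c * t ∈ Ico 0 T₁ := by
    intro t ht
    refine ⟨mul_nonneg hc0.le ht.1, ?_⟩
    rw [← hcT]
    exact mul_lt_mul_of_pos_left ht.2 hc0
  obtain ⟨X, hX⟩ : ∃ X : ℕ → ℝ → ℝ, X = fun n t => A * x n (c * t) := ⟨_, rfl⟩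
  obtain ⟨X', hX'⟩ : ∃ X' : ℕ → ℝ → ℝ,
      X' = fun n t => A * c * vf s (cc s) (fun m => x m (c * t)) n := ⟨_, rfl⟩
  have hxc : ∀ n, ContinuousOn (x n) (Ico 0 T₁) := fun n t ht => (hdx n t ht).continuousWithinAt
  obtain ⟨hv1, hv2⟩ := hVFC s (cc s) T₁ x hs1 hxc hRx
  have hcm : ContinuousOn (fun t : ℝ => c * t) (Ico 0 T) := by fun_prop
  have hdX : ∀ n, ∀ t ∈ Ico 0 T, HasDerivWithinAt (X n) (X' n t) (Ico 0 T) t := by
    intro n t ht
    have h3 := hdx n (c * t) (hmap t ht)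
    have h4 : HasDerivWithinAt (fun t : ℝ => c * t) c (Ico 0 T) t := by
      simpa using ((hasDerivAt_id t).const_mul c).hasDerivWithinAt
    have h5 := (h3.comp t h4 hmap).const_mul A
    rw [hX, hX']
    refine h5.congr_deriv ?_
    ring
  have hcX' : ∀ n, ContinuousOn (X' n) (Ico 0 T) := by
    intro n
    rw [hX']
    exact continuousOn_const.mul ((hv1 n).comp hcm hmap)
  have hresc : ∀ (z : ℕ → ℝ → ℝ) (B : ℝ), RapT s T₁ z → RapT s T (fun n t => B * z n (c * t)) := by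
    intro z B hz k T' hT'
    obtain ⟨M, hM⟩ := hz k (c * T') (by rw [← hcT]; exact mul_lt_mul_of_pos_left hT' hc0)
    refine ⟨|B| * M, fun t ht n => ?_⟩
    have h3 := hM (c * t) ⟨mul_nonneg hc0.le ht.1, mul_le_mul_of_nonneg_left ht.2 hc0.le⟩ n
    rw [abs_mul]
    calc s ^ (k * n) * (|B| * |z n (c * t)|) = |B| * (s ^ (k * n) * |z n (c * t)|) := by ring
      _ ≤ |B| * M := mul_le_mul_of_nonneg_left h3 (abs_nonneg _)
  have hRX : RapT s T X := by rw [hX]; exact hresc x A hRx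
  have hRX' : RapT s T X' := by
    rw [hX']
    exact hresc (fun n t => vf s (cc s) (fun m => x m t) n) (A * c) hv2
  have hrap : ∀ (z : ℕ → ℝ → ℝ), RapT s T z → ∀ t ∈ Ico 0 T, Rap s (fun n => z n t) := by
    intro z hz t ht k
    obtain ⟨M, hM⟩ := hz k t ht.2
    exact ⟨M, fun n => hM t ⟨ht.1, le_rfl⟩ n⟩
  obtain ⟨hc1, hder⟩ := hSER2 s Q hs1 hT.sm hT.out T X X' hdX hcX' hRX hRX'
  obtain ⟨u, hu⟩ : ∃ u : ℝ → E3 → E3, u = fun t => ser s Q (fun n => X n t) := ⟨_, rfl⟩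
  have hdt : ∀ t ∈ Ico 0 T, dt T u t = ser s Q (fun n => X' n t) := by
    intro t ht
    ext1 y
    unfold dt
    rw [hu]
    exact (hder t ht y).derivWithin (uniqueDiffOn_Ico 0 T t ht)
  have hSu : ∀ t ∈ Ico 0 T, Sm (u t) := by
    intro t ht
    obtain ⟨a1, -, -, -, a5⟩ := hS1 _ (hrap X hRX t ht)
    rw [hu]
    exact Sm.of_out a1 a5
  have hSd : ∀ t ∈ Ico 0 T, Sm (dt T u t) := by
    intro t ht
    obtain ⟨a1, -, -, -, a5⟩ := hS1 _ (hrap X' hRX' t ht)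
    rw [hdt t ht]
    exact Sm.of_out a1 a5
  have hres : ∀ t ∈ Ico 0 T, ∀ w, Continuous w → (∀ i, ip w (fam s r0 r i) = 0) →
      ip (fun y => dt T u t y + adv (u t) (u t) y - ν • lap (u t) y) w = 0 := by
    intro t ht w hwc hcon
    have hut := hSu t ht
    have hrX := hrap X hRX t ht
    have q1 := hIPS s Q hs1 hT.sm hT.out w hwc _ (hrap X' hRX' t ht)
    obtain ⟨q2, q3⟩ := hQUAD _ s (cc s) β lam Q _ hs1 hT w hwc hcon _ hrX
    rw [ip_comm, ip_sub hwc ((hSd t ht).add (hut.adv hut.sm)) (hut.lap.smul ν),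
      ip_add hwc (hSd t ht) (hut.adv hut.sm), ip_smul, hdt t ht, hu]
    have q4 := (q1.add q3).sub (q2.mul_left ν)
    have q5 : ∀ n, X' n t * ip w (pk s Q n) + -(β * vq s (cc s) (fun n => X n t) n *
        ip w (pk s Q n)) - ν * -(lam * s ^ (4 * n) * X n t * ip w (pk s Q n)) = 0 := by
      intro n
      rw [hX', hX]
      simp only
      rw [vq_smul]
      unfold vf
      have e1 : A * c * (-(9 / 10 * s ^ (4 * n) / s ^ 4 * x n (c * t)) +
          vq s (cc s) (fun m => x m (c * t)) n) * ip w (pk s Q n) =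
          -(A * (c * (9 / 10) / s ^ 4) * s ^ (4 * n) * x n (c * t)) * ip w (pk s Q n) +
          A * c * vq s (cc s) (fun m => x m (c * t)) n * ip w (pk s Q n) := by
        field_simp
      rw [e1, hcν, ← hAβ]
      ring
    simp only [q5] at q4
    exact q4.unique hasSum_zero
  have hSol : Sol ν (fam s r0 r) T u := by
    refine ⟨?_, fun t ht => (hSu t ht).sm, ?_, ?_, ?_,
      fun t ht w hw => hres t ht w hw.smooth.continuous⟩
    · rw [hu]
      exact hc1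
    · intro t ht y
      rw [hu]
      exact divg_ser hQd hT.div ((hS1 _ (hrap X hRX t ht)).2.2.1 y)
    · intro T' hT'
      obtain ⟨M, hM⟩ := hRX kk T' hT'
      obtain ⟨M', hM'⟩ := hRX' kk T' hT'
      refine ⟨max (CC * M) (CC * M'), fun t ht => ?_⟩
      have ht' : t ∈ Ico 0 T := ⟨ht.1, ht.2.trans_lt hT'⟩
      have d1 := hS2 _ M (hrap X hRX t ht') (fun n => hM t ht n)
      have d2 := hS2 _ M' (hrap X' hRX' t ht') (fun n => hM' t ht n)
      refine ⟨?_, fun y => ?_⟩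
      · rw [hu]
        exact ⟨fun y => (d1.d0 y).trans (le_max_left _ _),
          fun y => (d1.d1 y).trans (le_max_left _ _),
          fun y i j => (d1.d2 y i j).trans (le_max_left _ _)⟩
      · rw [hdt t ht']
        exact (d2.d0 y).trans (le_max_right _ _)
    · intro t ht i
      have h3 := hIPS s Q hs1 hT.sm hT.out (fam s r0 r i) (hT.rsm i).continuous _
        (hrap X hRX t ht)
      have h4 : ∀ n, X n t * ip (fam s r0 r i) (pk s Q n) = 0 := by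
        intro n
        rw [ip_comm, hT.orth, mul_zero]
      simp only [h4] at h3
      rw [hu, ip_comm]
      exact h3.unique hasSum_zero
  have hblow : ∀ M : ℝ, ∃ t ∈ Ico 0 T, ∃ y, M < ‖u t y‖ := by
    intro M
    by_contra hcon
    push Not at hcon
    obtain ⟨C, hC0, hC⟩ := hLOW s N Q hs1 hT.sm.continuous hT.out hN0 hNo
    have hM0 : 0 ≤ M := (norm_nonneg _).trans (hcon 0 ⟨le_rfl, hT0⟩ 0)
    have h3 : ∀ n : ℕ, (9 * s ^ 2 / 1000) ^ n ≤ 2 * C * M / A := by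
      intro n
      obtain ⟨τ, hτ, hxn⟩ := hgr n
      obtain ⟨t, ht⟩ : ∃ t, t = τ / c := ⟨_, rfl⟩
      have hct : c * t = τ := by rw [ht]; field_simp
      have htm : t ∈ Ico 0 T := by
        refine ⟨by rw [ht]; exact div_nonneg hτ.1 hc0.le, ?_⟩
        rw [ht, hTT]
        exact div_lt_div_of_pos_right hτ.2 hc0
      have h4 := hC (fun n => X n t) M (hrap X hRX t htm) (fun y => by
        have := hcon t htm y
        rw [hu] at this
        exact this) n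
      have h5 : A * ((9 / 1000 / s) ^ n / 2) ≤ |X n t| := by
        rw [hX]
        simp only
        rw [hct]
        refine le_trans ?_ (le_abs_self _)
        exact mul_le_mul_of_nonneg_left hxn hA0.le
      have h6 : s ^ (3 * n) * (A * ((9 / 1000 / s) ^ n / 2)) ≤ C * M :=
        (mul_le_mul_of_nonneg_left h5 (by positivity)).trans h4
      have h7 : s ^ (3 * n) * (A * ((9 / 1000 / s) ^ n / 2)) =
          A / 2 * (9 * s ^ 2 / 1000) ^ n := by
        have e : (9 * s ^ 2 / 1000) ^ n = s ^ (3 * n) * (9 / 1000 / s) ^ n := by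
          rw [pow_mul, ← mul_pow]
          congr 1
          field_simp
        rw [e]
        ring
      rw [h7] at h6
      rw [le_div_iff₀ hA0]
      nlinarith
    have h4 : 1 < 9 * s ^ 2 / 1000 := by
      rw [lt_div_iff₀ (by norm_num)]
      nlinarith
    obtain ⟨n, hn⟩ := pow_unbounded_of_one_lt (2 * C * M / A) h4
    exact absurd (h3 n) (not_le.2 hn)
  have hsm : ContDiffOn ℝ ∞ (fun z : ℝ × E3 => u z.1 z.2) (Ico 0 T ×ˢ univ) := by
    obtain ⟨Y, hY0, hYR, hYd⟩ := hSMT s (cc s) T₁ x hs1 hRx hdx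
    have h3 := hSER3 s Q hs1 hT.sm hT.out T (fun k n t => A * c ^ k * Y k n (c * t))
      (fun k => hresc (Y k) (A * c ^ k) (hYR k)) (fun k n t ht => by
        have h4 := hYd k n (c * t) (hmap t ht)
        have h5 : HasDerivWithinAt (fun t : ℝ => c * t) c (Ico 0 T) t := by
          simpa using ((hasDerivAt_id t).const_mul c).hasDerivWithinAt
        refine ((h4.comp t h5 hmap).const_mul (A * c ^ k)).congr_deriv ?_
        ring)
    have e : (fun z : ℝ × E3 => u z.1 z.2) = fun z : ℝ × E3 =>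
        ser s Q (fun n => A * c ^ 0 * Y 0 n (c * z.1)) z.2 := by
      rw [hu, hX, hY0]
      simp only [pow_zero, mul_one]
    rw [e]
    exact h3
  refine ⟨T, u, hT0, hSol, hsm, ?_, ?_, hres, ?_, hEN _ ν T _ u hν.le hSol, hblow, ?_⟩
  · intro y
    rw [hu]
    simp only [ser]
    rw [tsum_eq_single 0]
    · rw [hX]
      simp only [mul_zero, hx0]
      rw [pk_zero, smul_smul]
      congr 1
      rw [hA, hc]
      field_simp
      norm_num
    · intro n hn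
      obtain ⟨m, rfl⟩ := Nat.exists_eq_succ_of_ne_zero hn
      rw [hX]
      simp only [mul_zero]
      rw [hxs m, mul_zero, zero_smul]
  · intro t ht y hy
    rw [hu]
    exact (hS1 _ (hrap X hRX t ht)).2.2.2.2 y (by linarith)
  · intro T' v hT' hv hv0
    have hTT' : T' ≤ T := by
      by_contra hcon
      push Not at hcon
      have e := hUNI _ ν T (fam s r0 r) u v hν.le (fun i => (hT.rsm i).continuous) hT.rcs hSol
        (hv.mono hcon.le) hv0.symm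
      obtain ⟨M, hM⟩ := hv.dec T hcon
      obtain ⟨t, ht, y, hy⟩ := hblow M
      have h3 := (hM t ⟨ht.1, ht.2.le⟩).1.d0 y
      rw [← e t ht] at h3
      have h4 : ‖u t y‖ ≤ (1 + ‖y‖) ^ 2 * ‖u t y‖ := by
        have : 1 ≤ (1 + ‖y‖) ^ 2 := by
          have := norm_nonneg y
          nlinarith
        nlinarith [norm_nonneg (u t y)]
      linarith
    refine ⟨hTT', fun t ht => ?_⟩
    exact hUNI _ ν T' (fam s r0 r) v u hν.le (fun i => (hT.rsm i).continuous) hT.rcs hv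
      (hSol.mono hTT') hv0 t ht
  · obtain ⟨C, hC⟩ := hUP s Q (by linarith) hT.sm.continuous hT.out
    refine ⟨(1 + 1 / √c) * (|C * (A * C₀)|), fun t ht y => ?_⟩
    have hτ0 : 0 ≤ c * (T - t) := mul_nonneg hc0.le (by linarith [ht.2])
    have h3 := hC (fun n => X n t) (c * (T - t)) (A * C₀) hτ0 (hrap X hRX t ht) (fun n => by
      have h4 := hti (c * t) (hmap t ht) n
      have e : T₁ - c * t = c * (T - t) := by rw [← hcT]; ring
      rw [e] at h4
      rw [hX]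
      simp only
      rw [abs_mul, abs_of_pos hA0]
      calc s ^ n * (1 + s ^ (4 * n) * (c * (T - t))) * (A * |x n (c * t)|)
          = A * (s ^ n * (1 + s ^ (4 * n) * (c * (T - t))) * |x n (c * t)|) := by ring
        _ ≤ A * C₀ := mul_le_mul_of_nonneg_left h4 hA0.le) y
    have h5 : ‖y‖ + √(T - t) ≤ (1 + 1 / √c) * (‖y‖ + √(c * (T - t))) := by
      rw [Real.sqrt_mul hc0.le]
      have hsc : 0 < √c := Real.sqrt_pos.2 hc0
      have e : (1 + 1 / √c) * (‖y‖ + √c * √(T - t)) =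
          ‖y‖ + √(T - t) + (1 / √c * ‖y‖ + √c * √(T - t)) := by
        field_simp
        ring
      rw [e]
      have : 0 ≤ 1 / √c * ‖y‖ + √c * √(T - t) := by positivity
      linarith
    have h6 : u t y = ser s Q (fun n => X n t) y := by rw [hu]
    rw [h6]
    calc (‖y‖ + √(T - t)) * ‖ser s Q (fun n => X n t) y‖
        ≤ ((1 + 1 / √c) * (‖y‖ + √(c * (T - t)))) * ‖ser s Q (fun n => X n t) y‖ :=
          mul_le_mul_of_nonneg_right h5 (norm_nonneg _)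
      _ = (1 + 1 / √c) * ((‖y‖ + √(c * (T - t))) * ‖ser s Q (fun n => X n t) y‖) := by ring
      _ ≤ (1 + 1 / √c) * (C * (A * C₀)) := mul_le_mul_of_nonneg_left h3 (by positivity)
      _ ≤ (1 + 1 / √c) * |C * (A * C₀)| :=
          mul_le_mul_of_nonneg_left (le_abs_self _) (by positivity)

theorem main (R₀ : ℝ) :
    ∃ (R : ℝ) (P r0 : E3 → E3) (r : Fin 4 → E3 → E3), R₀ ≤ R ∧ 1 < R ∧
      ContDiff ℝ ∞ P ∧ (∀ y, divg P y = 0) ∧ (∀ y, 1 ≤ ‖y‖ → P y = 0) ∧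
      ContDiff ℝ ∞ r0 ∧ (∀ y, 1 ≤ ‖y‖ → r0 y = 0) ∧
      (∀ k, ContDiff ℝ ∞ (r k) ∧ ∀ y, 1 ≤ ‖y‖ → r k y = 0) ∧
      ∀ ν : ℝ, 0 < ν → ∃ (T : ℝ) (u : ℝ → E3 → E3), 0 < T ∧ Sol ν (fld R r0 r) T u ∧
        ContDiffOn ℝ ∞ (fun z : ℝ × E3 => u z.1 z.2) (Ico 0 T ×ˢ univ) ∧
        (∀ y, u 0 y = ν • P y) ∧ (∀ t ∈ Ico 0 T, ∀ y, 1 ≤ ‖y‖ → u t y = 0) ∧
        (∀ t ∈ Ico 0 T, ∀ w, Continuous w → (∀ i, ip w (fld R r0 r i) = 0) →
          ip (fun y => dt T u t y + adv (u t) (u t) y - ν • lap (u t) y) w = 0) ∧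
        (∀ (T' : ℝ) (v : ℝ → E3 → E3), 0 < T' → Sol ν (fld R r0 r) T' v → v 0 = u 0 →
          T' ≤ T ∧ ∀ t ∈ Ico 0 T', v t = u t) ∧
        (ContinuousOn (fun t => ip (u t) (u t)) (Ico 0 T) ∧
          ∀ t ∈ Ioo 0 T, HasDerivAt (fun τ => ip (u τ) (u τ)) (-(2 * (ν * dir (u t)))) t) ∧
        (∀ M : ℝ, ∃ t ∈ Ico 0 T, ∃ y, M < ‖u t y‖) ∧
        ∃ X : ℝ, ∀ t ∈ Ico 0 T, ∀ y, (‖y‖ + √(T - t)) * ‖u t y‖ ≤ X :=
  assembly t_ODE t_UNI t_EN (t_TBL T1.t_PK) t_SER1 t_SER2 t_IPS (t_QUAD t_SER1) t_VFC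
    t_UP t_LOW t_SMT t_SER3 R₀

end Pool.Agent.N976.SC
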