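import Mathlib

/-!
# Navier-Stokes equations with sparse workless constraints: definitions and statements of the steps

Packets `P n (y) = s^(3n) P (s^(2n) y)` with compact support, exactly linear near the origin; the
residual of `u = ∑ x n (t) P n` is, modulo the constraint fields `r`, governed by one ODE per scale.
-/

open Set Filter Topology MeasureTheory
open scoped ContDiff

set_option autoImplicit false

namespace Pool.Agent.N976.SC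

/-- The space `ℝ³`. -/
abbrev E3 := EuclideanSpace ℝ (Fin 3)

/-- The standard basis. -/
noncomputable def bv (i : Fin 3) : E3 := EuclideanSpace.single i 1

/-- `div v`. -/
noncomputable def divg (v : E3 → E3) (y : E3) : ℝ := ∑ i : Fin 3, (fderiv ℝ v y (bv i)) i

/-- `(a · ∇) b`. -/
noncomputable def adv (a b : E3 → E3) (y : E3) : E3 := fderiv ℝ b y (a y)

/-- `Δ v`. -/
noncomputable def lap (v : E3 → E3) (y : E3) : E3 :=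
  ∑ i : Fin 3, fderiv ℝ (fun z => fderiv ℝ v z (bv i)) y (bv i)

/-- `∫ v · w`. -/
noncomputable def ip (v w : E3 → E3) : ℝ := ∫ y, inner ℝ (v y) (w y)

/-- `∫ |∇v|²`. -/
noncomputable def dir (v : E3 → E3) : ℝ := ∫ y, ∑ i : Fin 3, ‖fderiv ℝ v y (bv i)‖ ^ 2

/-- The time derivative `∂ₜ u` (one-sided at `t = 0`). -/
noncomputable def dt (T : ℝ) (u : ℝ → E3 → E3) (t : ℝ) (y : E3) : E3 :=
  derivWithin (fun τ => u τ y) (Ico 0 T) t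

/-- `|v|, |Dv|, |D²v| ≤ M (1 + |y|)⁻²`. -/
structure Dec (M : ℝ) (v : E3 → E3) : Prop where
  d0 : ∀ y, (1 + ‖y‖) ^ 2 * ‖v y‖ ≤ M
  d1 : ∀ y, (1 + ‖y‖) ^ 2 * ‖fderiv ℝ v y‖ ≤ M
  d2 : ∀ y i j, (1 + ‖y‖) ^ 2 * ‖fderiv ℝ (fun z => fderiv ℝ v z (bv i)) y (bv j)‖ ≤ M

/-- Smooth divergence-free fields, which decay together with two derivatives. -/
structure Fld (v : E3 → E3) : Prop where
  smooth : ContDiff ℝ ∞ v
  div : ∀ y, divg v y = 0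
  dec : ∃ M, Dec M v

/-- Classical solutions on `[0, T)` of the Navier-Stokes equations with viscosity `ν` under the
constraints `∫ u(t) · r i = 0`. -/
structure Sol {ι : Type} (ν : ℝ) (r : ι → E3 → E3) (T : ℝ) (u : ℝ → E3 → E3) : Prop where
  c1 : ContDiffOn ℝ 1 (fun z : ℝ × E3 => u z.1 z.2) (Ico 0 T ×ˢ univ)
  smooth : ∀ t ∈ Ico 0 T, ContDiff ℝ ∞ (u t)
  div : ∀ t ∈ Ico 0 T, ∀ y, divg (u t) y = 0
  dec : ∀ T' < T, ∃ M, ∀ t ∈ Icc 0 T', Dec M (u t) ∧ ∀ y, (1 + ‖y‖) ^ 2 * ‖dt T u t y‖ ≤ M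
  con : ∀ t ∈ Ico 0 T, ∀ i, ip (u t) (r i) = 0
  eqn : ∀ t ∈ Ico 0 T, ∀ w, Fld w → (∀ i, ip w (r i) = 0) →
    ip (fun y => dt T u t y + adv (u t) (u t) y - ν • lap (u t) y) w = 0

/-! ### Packets -/

/-- `y ↦ (y₀, -y₁, 0)`. -/
noncomputable def Am (y : E3) : E3 := WithLp.toLp 2 ![y 0, -y 1, 0]

/-- `s^(3n) v(s^(2n) y)`. -/
noncomputable def pk (s : ℝ) (v : E3 → E3) (n : ℕ) (y : E3) : E3 :=
  s ^ (3 * n) • v (s ^ (2 * n) • y)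

/-- The two building blocks of the packets: `φ` is odd and equal to `Am` near the origin, `ψ` is
even and supported in a shell in which `φ = Am`. -/
structure Pk (φ ψ : E3 → E3) (ρ ρ' : ℝ) : Prop where
  smφ : ContDiff ℝ ∞ φ
  smψ : ContDiff ℝ ∞ ψ
  divφ : ∀ y, divg φ y = 0
  divψ : ∀ y, divg ψ y = 0
  oddφ : ∀ y, φ (-y) = -φ y
  evψ : ∀ y, ψ (-y) = ψ y
  ρ0 : 0 < ρ'
  ρ1 : 2 * ρ' ≤ ρ
  ρ2 : ρ ≤ 1
  outφ : ∀ y, 1 / 2 ≤ ‖y‖ → φ y = 0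
  linφ : ∀ y, ‖y‖ < ρ → φ y = Am y
  inψ : ∀ y, ‖y‖ < ρ' → ψ y = 0
  outψ : ∀ y, ρ / 2 ≤ ‖y‖ → ψ y = 0
  bpos : 0 < -ip (fun y => Am (φ y)) φ
  κpos : 0 < ip (fun y => Am (ψ y)) ψ

/-- The dilates `r k (s^(2n) y)`, `n ≥ 0`, of four fields, and one further field. -/
noncomputable def fam (s : ℝ) (r0 : E3 → E3) (r : Fin 4 → E3 → E3) :
    Option (Fin 4 × ℕ) → E3 → E3
  | none => r0
  | some p => fun y => r p.1 (s ^ (2 * p.2) • y)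

/-- The coupling constant. -/
noncomputable def cc (s : ℝ) : ℝ := Real.exp (-(6 / 100 * s ^ 4)) / s

/-- The packets `pk s P n` and their interactions modulo the constraint fields `r`. -/
structure Tbl {ι : Type} (s c β lam : ℝ) (P : E3 → E3) (r : ι → E3 → E3) : Prop where
  β0 : 0 < β
  lam0 : 0 < lam
  sm : ContDiff ℝ ∞ P
  out : ∀ y, 1 / 2 ≤ ‖y‖ → P y = 0
  div : ∀ y, divg P y = 0
  rsm : ∀ i, ContDiff ℝ ∞ (r i)
  rcs : ∀ i, HasCompactSupport (r i)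
  norm : ∃ N, 0 < N ∧ ∀ m n, ip (pk s P m) (pk s P n) = if m = n then N else 0
  orth : ∀ m i, ip (pk s P m) (r i) = 0
  diag : ∀ w, Continuous w → (∀ i, ip w (r i) = 0) → ∀ n, ip w (adv (pk s P n) (pk s P n)) =
    β * (∑ j ∈ Finset.range n, s ^ (5 * j) * ip w (pk s P j)
      - s ^ (5 * n) * c * ip w (pk s P (n + 1)))
  cross : ∀ w, Continuous w → (∀ i, ip w (r i) = 0) → ∀ m n, m < n →
    ip w (adv (pk s P m) (pk s P n)) + ip w (adv (pk s P n) (pk s P m)) =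
    β * (-(s ^ (5 * m) * ip w (pk s P n))
      + if n = m + 1 then s ^ (5 * m) * c * ip w (pk s P m) else 0)
  lapl : ∀ w, Continuous w → (∀ i, ip w (r i) = 0) → ∀ n,
    ip w (lap (pk s P n)) = -(lam * s ^ (4 * n) * ip w (pk s P n))

/-! ### The reduced system -/

/-- The quadratic part of the reduced system. -/
noncomputable def vq (s c : ℝ) (a : ℕ → ℝ) (n : ℕ) : ℝ :=
  (if n = 0 then 0 else s ^ (5 * (n - 1)) * c * a (n - 1) ^ 2)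
  - s ^ (5 * n) * c * a n * a (n + 1)
  + a n * ∑ i ∈ Finset.range n, s ^ (5 * i) * a i
  - s ^ (5 * n) * ∑' m : ℕ, a (n + 1 + m) ^ 2

/-- The reduced system. -/
noncomputable def vf (s c : ℝ) (a : ℕ → ℝ) (n : ℕ) : ℝ :=
  -(9 / 10 * s ^ (4 * n) / s ^ 4 * a n) + vq s c a n

/-- Rapid decay. -/
def Rap (s : ℝ) (a : ℕ → ℝ) : Prop := ∀ k : ℕ, ∃ M, ∀ n, s ^ (k * n) * |a n| ≤ M

/-- Rapid decay, locally uniform in time. -/
def RapT (s T : ℝ) (x : ℕ → ℝ → ℝ) : Prop :=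
  ∀ k : ℕ, ∀ T' < T, ∃ M, ∀ t ∈ Icc 0 T', ∀ n, s ^ (k * n) * |x n t| ≤ M

/-- `∑ a n P n`. -/
noncomputable def ser (s : ℝ) (P : E3 → E3) (a : ℕ → ℝ) (y : E3) : E3 :=
  ∑' n, a n • pk s P n y

/-! ### Statements of the steps -/

/-- (T1) Existence of the building blocks. -/
def S_PK : Prop := ∃ (φ ψ : E3 → E3) (ρ ρ' : ℝ), Pk φ ψ ρ ρ'

/-- (T2) Blow-up for the reduced system. -/
def S_ODE : Prop := ∃ s₀ : ℝ, ∀ s ≥ s₀, ∃ (T : ℝ) (x : ℕ → ℝ → ℝ), 0 < T ∧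
  x 0 0 = 3 / 2 ∧ (∀ n, x (n + 1) 0 = 0) ∧
  (∀ n, ∀ t ∈ Ico 0 T, HasDerivWithinAt (x n) (vf s (cc s) (fun m => x m t) n) (Ico 0 T) t) ∧
  RapT s T x ∧
  (∀ n, ∃ t ∈ Ico 0 T, (9 / 1000 / s) ^ n / 2 ≤ x n t) ∧
  ∃ C₀ : ℝ, ∀ t ∈ Ico 0 T, ∀ n, s ^ n * (1 + s ^ (4 * n) * (T - t)) * |x n t| ≤ C₀

/-- (T3a) Uniqueness. -/
def S_UNI : Prop := ∀ (ι : Type) (ν T : ℝ) (r : ι → E3 → E3) (u v : ℝ → E3 → E3), 0 ≤ ν →
  (∀ i, Continuous (r i)) → (∀ i, HasCompactSupport (r i)) → Sol ν r T u → Sol ν r T v →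
  u 0 = v 0 → ∀ t ∈ Ico 0 T, u t = v t

/-- (T3b) Energy identity. -/
def S_EN : Prop := ∀ (ι : Type) (ν T : ℝ) (r : ι → E3 → E3) (u : ℝ → E3 → E3), 0 ≤ ν →
  Sol ν r T u → ContinuousOn (fun t => ip (u t) (u t)) (Ico 0 T) ∧
  ∀ t ∈ Ioo 0 T, HasDerivAt (fun τ => ip (u τ) (u τ)) (-(2 * (ν * dir (u t)))) t

/-- (T4) The interactions of the packets. -/
def S_TBL : Prop := ∃ s₀ : ℝ, ∀ s ≥ s₀, ∃ (β lam : ℝ) (P r0 : E3 → E3) (r : Fin 4 → E3 → E3),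
  Tbl s (cc s) β lam P (fam s r0 r) ∧ (∀ y, 1 ≤ ‖y‖ → r0 y = 0) ∧
  ∀ k y, 1 ≤ ‖y‖ → r k y = 0

/-- (T5a) The series. -/
def S_SER1 : Prop := ∀ (s : ℝ) (P : E3 → E3), 1 < s → ContDiff ℝ ∞ P →
  (∀ y, 1 / 2 ≤ ‖y‖ → P y = 0) →
  (∀ a, Rap s a → ContDiff ℝ ∞ (ser s P a) ∧
    (∀ y, HasSum (fun n => a n • pk s P n y) (ser s P a y)) ∧
    (∀ y, HasSum (fun n => a n • fderiv ℝ (pk s P n) y) (fderiv ℝ (ser s P a) y)) ∧
    (∀ y, HasSum (fun n => a n • lap (pk s P n) y) (lap (ser s P a) y)) ∧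
    ∀ y, 1 / 2 ≤ ‖y‖ → ser s P a y = 0) ∧
  ∃ (k : ℕ) (C : ℝ), ∀ (a : ℕ → ℝ) (M : ℝ), Rap s a → (∀ n, s ^ (k * n) * |a n| ≤ M) →
    Dec (C * M) (ser s P a)

/-- (T5b) The series in space and time. -/
def S_SER2 : Prop := ∀ (s : ℝ) (P : E3 → E3), 1 < s → ContDiff ℝ ∞ P →
  (∀ y, 1 / 2 ≤ ‖y‖ → P y = 0) →
  ∀ (T : ℝ) (x x' : ℕ → ℝ → ℝ),
    (∀ n, ∀ t ∈ Ico 0 T, HasDerivWithinAt (x n) (x' n t) (Ico 0 T) t) →
    (∀ n, ContinuousOn (x' n) (Ico 0 T)) → RapT s T x → RapT s T x' →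
    ContDiffOn ℝ 1 (fun z : ℝ × E3 => ser s P (fun n => x n z.1) z.2) (Ico 0 T ×ˢ univ) ∧
    ∀ t ∈ Ico 0 T, ∀ y, HasDerivWithinAt (fun τ => ser s P (fun n => x n τ) y)
      (ser s P (fun n => x' n t) y) (Ico 0 T) t

/-- (T6) Testing the series. -/
def S_IPS : Prop := ∀ (s : ℝ) (P : E3 → E3), 1 < s → ContDiff ℝ ∞ P →
  (∀ y, 1 / 2 ≤ ‖y‖ → P y = 0) → ∀ w : E3 → E3, Continuous w → ∀ a, Rap s a →
  HasSum (fun n => a n * ip w (pk s P n)) (ip w (ser s P a))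

/-- (T6) Testing the terms of the equation. -/
def S_QUAD : Prop := ∀ (ι : Type) (s c β lam : ℝ) (P : E3 → E3) (r : ι → E3 → E3), 1 < s →
  Tbl s c β lam P r → ∀ w, Continuous w → (∀ i, ip w (r i) = 0) → ∀ a, Rap s a →
  HasSum (fun n => -(lam * s ^ (4 * n) * a n * ip w (pk s P n))) (ip w (lap (ser s P a))) ∧
  HasSum (fun n => -(β * vq s c a n * ip w (pk s P n))) (ip w (adv (ser s P a) (ser s P a)))

/-- (T7) Regularity in time of the right-hand side of the reduced system. -/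
def S_VFC : Prop := ∀ (s c T : ℝ) (x : ℕ → ℝ → ℝ), 1 < s →
  (∀ n, ContinuousOn (x n) (Ico 0 T)) → RapT s T x →
  (∀ n, ContinuousOn (fun t => vf s c (fun m => x m t) n) (Ico 0 T)) ∧
  RapT s T (fun n t => vf s c (fun m => x m t) n)

/-- (T8) Pointwise upper bound. -/
def S_UP : Prop := ∀ (s : ℝ) (P : E3 → E3), 2 ≤ s → Continuous P →
  (∀ y, 1 / 2 ≤ ‖y‖ → P y = 0) → ∃ C : ℝ, ∀ (a : ℕ → ℝ) (τ C₀ : ℝ), 0 ≤ τ → Rap s a →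
    (∀ n, s ^ n * (1 + s ^ (4 * n) * τ) * |a n| ≤ C₀) →
    ∀ y, (‖y‖ + √τ) * ‖ser s P a y‖ ≤ C * C₀

/-- (T8) Lower bound. -/
def S_LOW : Prop := ∀ (s N : ℝ) (P : E3 → E3), 1 < s → Continuous P →
  (∀ y, 1 / 2 ≤ ‖y‖ → P y = 0) → 0 < N →
  (∀ m n, ip (pk s P m) (pk s P n) = if m = n then N else 0) →
  ∃ C : ℝ, 0 < C ∧ ∀ (a : ℕ → ℝ) (M : ℝ), Rap s a → (∀ y, ‖ser s P a y‖ ≤ M) →
    ∀ n, s ^ (3 * n) * |a n| ≤ C * M

end Pool.Agent.N976.SC
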