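import Pool.Agent.N976.SC.Def

/-!
# Explicit reaction forces: definitions and statements

The residual of `u = ∑ a n P n` is the sum of explicit multiples of the constraint fields.
-/

open Set Filter Topology MeasureTheory
open scoped ContDiff

set_option autoImplicit false

namespace Pool.Agent.N976.SC

/-- The pointwise form of the table of the interactions. -/
structure TP (s c β lam ζ : ℝ) (P : E3 → E3) (r : Option (Fin 4 × ℕ) → E3 → E3) : Prop where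
  pd : ∀ n y, adv (pk s P n) (pk s P n) y = r none y +
    ∑ k ∈ Finset.range n, s ^ (8 * k) • r (some (0, k)) y +
    β • (∑ j ∈ Finset.range n, s ^ (5 * j) • pk s P j y - (s ^ (5 * n) * c) • pk s P (n + 1) y)
  pc : ∀ m n y, m < n → adv (pk s P m) (pk s P n) y + adv (pk s P n) (pk s P m) y =
    s ^ (5 * m) • (s ^ (3 * n) • r (some (1, n)) y - β • pk s P n y) +
    if n = m + 1 then (ζ * s ^ (8 * m)) • r (some (2, m)) y + (β * c * s ^ (5 * m)) • pk s P m y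
      else 0
  pl : ∀ n y, lap (pk s P n) y = s ^ (7 * n) • r (some (3, n)) y -
    (lam * s ^ (4 * n)) • pk s P n y

/-- The reaction coefficients. -/
noncomputable def lamF (s ν ζ : ℝ) (a : ℕ → ℝ) : Option (Fin 4 × ℕ) → ℝ
  | none => ∑' n, a n ^ 2
  | some p => ![s ^ (8 * p.2) * ∑' m, a (p.2 + 1 + m) ^ 2,
      s ^ (3 * p.2) * a p.2 * ∑ m ∈ Finset.range p.2, s ^ (5 * m) * a m,
      ζ * s ^ (8 * p.2) * a p.2 * a (p.2 + 1),
      -(ν * s ^ (7 * p.2) * a p.2)] p.1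

/-- (V1) The table, also in pointwise form. -/
def S_TBP : Prop := ∃ s₀ : ℝ, ∀ s ≥ s₀, ∃ (β lam ζ : ℝ) (P r0 : E3 → E3) (r : Fin 4 → E3 → E3),
  Tbl s (cc s) β lam P (fam s r0 r) ∧ TP s (cc s) β lam ζ P (fam s r0 r) ∧
  (∀ y, 1 ≤ ‖y‖ → r0 y = 0) ∧ ∀ k y, 1 ≤ ‖y‖ → r k y = 0

/-- (V2) The residual is the sum of the reaction forces. -/
def S_REP : Prop := ∀ (s c β lam ζ ν : ℝ) (P r0 : E3 → E3) (r : Fin 4 → E3 → E3), 1 < s →
  Tbl s c β lam P (fam s r0 r) → TP s c β lam ζ P (fam s r0 r) →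
  (∀ y, 1 ≤ ‖y‖ → r0 y = 0) → (∀ k y, 1 ≤ ‖y‖ → r k y = 0) →
  ∀ a a' : ℕ → ℝ, Rap s a → Rap s a' →
    (∀ n, a' n = -(ν * lam * s ^ (4 * n) * a n) + β * vq s c a n) →
    ∀ y, HasSum (fun p => lamF s ν ζ a p • fam s r0 r p y)
      (ser s P a' y + adv (ser s P a) (ser s P a) y - ν • lap (ser s P a) y)

/-- (V3) The reaction coefficients are continuous in time and rapidly decreasing. -/
def S_LAM : Prop := ∀ (s ν ζ T : ℝ) (x : ℕ → ℝ → ℝ), 1 < s →
  (∀ n, ContinuousOn (x n) (Ico 0 T)) → RapT s T x →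
  (∀ p, ContinuousOn (fun t => lamF s ν ζ (fun n => x n t) p) (Ico 0 T)) ∧
  ∀ k : ℕ, ∀ T' < T, ∃ M, ∀ t ∈ Icc 0 T', ∀ i n,
    s ^ (k * n) * |lamF s ν ζ (fun n => x n t) (some (i, n))| ≤ M

/-- (V4) Lower bound for the Dirichlet integral. -/
def S_DIR : Prop := ∀ (ι : Type) (s c β lam : ℝ) (P : E3 → E3) (r : ι → E3 → E3), 1 < s →
  Tbl s c β lam P r → ∃ C : ℝ, 0 < C ∧ ∀ a, Rap s a → ∀ n,
    s ^ (4 * n) * a n ^ 2 ≤ C * dir (ser s P a)

end Pool.Agent.N976.SC
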