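import Pool.Agent.N976.SC.T6
import Pool.Agent.N976.SC.T5a
import Pool.Agent.N976.SC.Def2

/-!
# The residual is the sum of the reaction forces
-/

set_option autoImplicit false

open Set Filter Topology MeasureTheory
open scoped ContDiff

namespace Pool.Agent.N976.SC

namespace V2

open T6

/-- Exchange of summation: `∑ a n ^ 2 ∑_{j < n} q j = ∑ q n ∑_{m > n} a m ^ 2`. -/
lemma tri {s : ℝ} (hs : 1 < s) {a q : ℕ → ℝ} (ha : Rap s a) (hq : Pol s q) :
    ∃ S : ℝ, HasSum (fun n => a n ^ 2 * ∑ j ∈ Finset.range n, q j) S ∧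
      HasSum (fun n => q n * ∑' m : ℕ, a (n + 1 + m) ^ 2) S := by
  have s0 : 0 < s := by linarith
  obtain ⟨k, C, hC⟩ := hq
  set g : ℕ × ℕ → ℝ := fun p => q p.1 * a (p.1 + 1 + p.2) ^ 2 with hg
  have hgs : Summable g := by
    obtain ⟨M, hM⟩ := ha (k + 1)
    obtain ⟨M0, hM0⟩ := ha 0
    have hM00 : 0 ≤ M0 := (by simpa using hM0 0 : |a 0| ≤ M0) |> (abs_nonneg _).trans
    have hMM : 0 ≤ M := (by positivity : 0 ≤ s ^ ((k + 1) * 0) * |a 0|).trans (hM 0)
    have hC0 : 0 ≤ C := by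
      have := (abs_nonneg _).trans (hC 0)
      simpa using this
    have hgeo : Summable (fun n : ℕ => (s⁻¹) ^ n) :=
      summable_geometric_of_lt_one (by positivity) (inv_lt_one_of_one_lt₀ hs)
    have hgg : Summable fun p : ℕ × ℕ => C * M * M0 * ((s⁻¹) ^ p.1 * (s⁻¹) ^ p.2) :=
      (hgeo.mul_of_nonneg hgeo (fun _ => by positivity) (fun _ => by positivity)).mul_left _
    refine Summable.of_norm_bounded hgg fun p => ?_
    rw [Real.norm_eq_abs]
    simp only [hg]
    rw [abs_mul, abs_pow, sq]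
    have h1 := hC p.1
    have h2 := hM (p.1 + 1 + p.2)
    have h3 : |a (p.1 + 1 + p.2)| ≤ M0 := by simpa using hM0 (p.1 + 1 + p.2)
    have h4 : s ^ (k * p.1) * s ^ p.1 * s ^ p.2 * |a (p.1 + 1 + p.2)| ≤ M := by
      refine le_trans ?_ h2
      have h5 : s ^ (k * p.1) * s ^ p.1 * s ^ p.2 ≤ s ^ ((k + 1) * (p.1 + 1 + p.2)) := by
        rw [← pow_add, ← pow_add]
        refine pow_le_pow_right₀ hs.le ?_
        nlinarith [Nat.zero_le (k * p.2), Nat.zero_le k]
      gcongr
    have h6 : |a (p.1 + 1 + p.2)| ≤ M * ((s ^ (k * p.1))⁻¹ * (s⁻¹) ^ p.1 * (s⁻¹) ^ p.2) := by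
      rw [inv_pow, inv_pow, ← mul_inv, ← mul_inv, ← div_eq_mul_inv, le_div_iff₀ (by positivity)]
      rw [mul_comm]; exact h4
    calc |q p.1| * (|a (p.1 + 1 + p.2)| * |a (p.1 + 1 + p.2)|)
        ≤ (C * s ^ (k * p.1)) * ((M * ((s ^ (k * p.1))⁻¹ * (s⁻¹) ^ p.1 * (s⁻¹) ^ p.2)) * M0) := by
          gcongr
      _ = C * M * M0 * ((s⁻¹) ^ p.1 * (s⁻¹) ^ p.2) * (s ^ (k * p.1) * (s ^ (k * p.1))⁻¹) := by ring
      _ = C * M * M0 * ((s⁻¹) ^ p.1 * (s⁻¹) ^ p.2) := by
          rw [mul_inv_cancel₀ (by positivity), mul_one]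
  have hsq : Rap s (fun n => a n * a n) := Rap.mul_pol hs ha (Rap.pol ha)
  refine ⟨∑' p, g p, ?_, ?_⟩
  · refine hasSum_shift (by simp) ?_
    have h1 : HasSum (g ∘ Finset.HasAntidiagonal.sigmaAntidiagonalEquivProd) (∑' p, g p) :=
      (Finset.HasAntidiagonal.sigmaAntidiagonalEquivProd.hasSum_iff).2 hgs.hasSum
    have h2 := h1.sigma (fun n => hasSum_fintype _)
    have h3 : (fun n => a (n + 1) ^ 2 * ∑ j ∈ Finset.range (n + 1), q j) =
        fun n => ∑ c : Finset.HasAntidiagonal.antidiagonal n,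
        (g ∘ Finset.HasAntidiagonal.sigmaAntidiagonalEquivProd) ⟨n, c⟩ := by
      funext n
      have h4 : ∑ c : Finset.HasAntidiagonal.antidiagonal n,
          (g ∘ Finset.HasAntidiagonal.sigmaAntidiagonalEquivProd) ⟨n, c⟩ =
          ∑ p ∈ Finset.HasAntidiagonal.antidiagonal n, g p :=
        Finset.sum_coe_sort (Finset.HasAntidiagonal.antidiagonal n) g
      rw [h4, Finset.Nat.sum_antidiagonal_eq_sum_range_succ_mk]
      simp only [hg]
      rw [Finset.mul_sum]
      refine Finset.sum_congr rfl fun j hj => ?_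
      have h5 : j + 1 + (n - j) = n + 1 := by
        have := Finset.mem_range.1 hj
        omega
      rw [h5]; ring
    rw [h3]
    exact h2
  · refine hgs.hasSum.prod_fiberwise fun n => ?_
    have h1 : Summable fun m : ℕ => a (n + 1 + m) ^ 2 := by
      have := (summable_nat_add_iff (f := fun n => a n * a n) (n + 1)).2 (Rap.hsum hs hsq)
      refine this.congr fun m => ?_
      rw [add_comm m (n + 1)]; ring
    exact h1.hasSum.mul_left (q n)

/-- A series on the graph of a function. -/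
lemma graph {f : ℕ → ℕ} {q : ℕ → ℕ → ℝ} {S : ℝ} (h : HasSum (fun n => q n (f n)) S) :
    HasSum (fun p : ℕ × ℕ => if p.2 = f p.1 then q p.1 p.2 else 0) S := by
  have hinj : Function.Injective (fun n : ℕ => (n, f n)) := fun m n hmn => by
    simpa using congrArg Prod.fst hmn
  refine (hinj.hasSum_iff ?_).1 ?_
  · intro p hp
    rw [if_neg]
    intro h1
    exact hp ⟨p.1, Prod.ext rfl h1.symm⟩
  · refine h.congr_fun fun n => ?_
    simp

/-- The algebra of the double series with the multiples of the constraint fields. -/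
lemma alg2 {s : ℝ} (hs : 1 < s) {c β ζ : ℝ} {a om : ℕ → ℝ} (ha : Rap s a) (hom : Pol s om)
    {ρ0 : ℝ} {ρ : Fin 4 → ℕ → ℝ} (hρ : ∀ i, Pol s (ρ i))
    {t : ℕ → ℕ → ℝ} {I : ℝ} (hI : HasSum (fun p : ℕ × ℕ => a p.1 * a p.2 * t p.1 p.2) I)
    (hd : ∀ n, t n n = ρ0 + ∑ k ∈ Finset.range n, s ^ (8 * k) * ρ 0 k +
      β * (∑ j ∈ Finset.range n, s ^ (5 * j) * om j - s ^ (5 * n) * c * om (n + 1)))
    (hx : ∀ m n, m < n → t m n + t n m = s ^ (5 * m) * (s ^ (3 * n) * ρ 1 n - β * om n) +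
      if n = m + 1 then (ζ * s ^ (8 * m)) * ρ 2 m + (β * c * s ^ (5 * m)) * om m else 0) :
    ∃ S1 S2 S3 : ℝ,
      HasSum (fun n => -(β * vq s c a n * om n)) (I - ((∑' n, a n ^ 2) * ρ0 + S1 + S2 + S3)) ∧
      HasSum (fun n => s ^ (8 * n) * (∑' m : ℕ, a (n + 1 + m) ^ 2) * ρ 0 n) S1 ∧
      HasSum (fun n => s ^ (3 * n) * a n * (∑ m ∈ Finset.range n, s ^ (5 * m) * a m) * ρ 1 n) S2 ∧
      HasSum (fun n => ζ * s ^ (8 * n) * a n * a (n + 1) * ρ 2 n) S3 := by
  have s0 : 0 < s := by linarith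
  -- the multiples of `r none`
  have hsq : Rap s (fun n => a n * a n) := Rap.mul_pol hs ha (Rap.pol ha)
  have h0 : HasSum (fun n => a n * a n * ρ0) ((∑' n, a n ^ 2) * ρ0) := by
    have h1 := ((Rap.hsum hs hsq).hasSum).mul_right ρ0
    have h2 : (∑' n, a n * a n) = ∑' n, a n ^ 2 := tsum_congr fun n => by ring
    rwa [h2] at h1
  -- the multiples of `r (0, k)`
  obtain ⟨S1, h11, h12⟩ := tri hs ha ((Pol.pow hs 8).mul (hρ 0))
  -- the multiples of `r (1, n)`
  have hb1 : Summable fun n => |a n * s ^ (5 * n)| :=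
    Rap.summable hs (Rap.mul_pol hs ha (Pol.pow hs 5))
  have hb2 : Summable fun n => |a n * (s ^ (3 * n) * ρ 1 n)| :=
    Rap.summable hs (Rap.mul_pol hs ha ((Pol.pow hs 3).mul (hρ 1)))
  set f2 : ℕ × ℕ → ℝ := fun p => if p.1 < p.2 then
    a p.1 * a p.2 * (s ^ (5 * p.1) * (s ^ (3 * p.2) * ρ 1 p.2)) else 0 with hf2
  have hf2s : Summable f2 := by
    refine Summable.of_norm_bounded
      (hb1.mul_of_nonneg hb2 (fun _ => abs_nonneg _) (fun _ => abs_nonneg _)) fun p => ?_
    simp only [hf2]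
    split_ifs
    · rw [Real.norm_eq_abs, ← abs_mul]
      refine le_of_eq ?_
      congr 1; ring
    · rw [norm_zero]; positivity
  have h2 : HasSum (fun n => s ^ (3 * n) * a n * (∑ m ∈ Finset.range n, s ^ (5 * m) * a m) * ρ 1 n)
      (∑' p, f2 p) := by
    have h3 : HasSum (fun p : ℕ × ℕ => f2 p.swap) (∑' p, f2 p) :=
      ((Equiv.prodComm ℕ ℕ).hasSum_iff (f := f2)).2 hf2s.hasSum
    refine h3.prod_fiberwise fun n => ?_
    have h4 : s ^ (3 * n) * a n * (∑ m ∈ Finset.range n, s ^ (5 * m) * a m) * ρ 1 n =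
        ∑ m ∈ Finset.range n, f2 (m, n) := by
      rw [Finset.mul_sum, Finset.sum_mul]
      refine Finset.sum_congr rfl fun m hm => ?_
      simp only [hf2]
      rw [if_pos (Finset.mem_range.1 hm)]
      ring
    rw [h4]
    refine hasSum_sum_of_ne_finset_zero fun m hm => ?_
    simp only [hf2, Prod.swap]
    rw [if_neg]
    simpa using hm
  -- the multiples of `r (2, n)`
  have h3s : Summable fun n => ζ * s ^ (8 * n) * a n * a (n + 1) * ρ 2 n := by
    have : Rap s (fun n => a n * (ζ * s ^ (8 * n) * a (n + 1) * ρ 2 n)) :=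
      Rap.mul_pol hs ha ((((Pol.const ζ).mul (Pol.pow hs 8)).mul (Rap.pol ha).shift).mul (hρ 2))
    refine (Rap.hsum hs this).congr fun n => ?_
    ring
  refine ⟨S1, ∑' p, f2 p, ∑' n, ζ * s ^ (8 * n) * a n * a (n + 1) * ρ 2 n, ?_, ?_, h2, h3s.hasSum⟩
  · -- the graphs
    have g01 : HasSum (fun p : ℕ × ℕ => if p.2 = p.1 then
        a p.1 * a p.2 * (ρ0 + ∑ k ∈ Finset.range p.1, s ^ (8 * k) * ρ 0 k) else 0)
        ((∑' n, a n ^ 2) * ρ0 + S1) := by
      refine graph (f := fun n => n)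
        (q := fun m n => a m * a n * (ρ0 + ∑ k ∈ Finset.range m, s ^ (8 * k) * ρ 0 k)) ?_
      refine (h0.add h11).congr_fun fun n => ?_
      ring
    have g3 : HasSum (fun p : ℕ × ℕ => if p.2 = p.1 + 1 then
        a p.1 * a p.2 * (ζ * s ^ (8 * p.1) * ρ 2 p.1) else 0)
        (∑' n, ζ * s ^ (8 * n) * a n * a (n + 1) * ρ 2 n) := by
      refine graph (f := fun n => n + 1)
        (q := fun m n => a m * a n * (ζ * s ^ (8 * m) * ρ 2 m)) ?_
      refine h3s.hasSum.congr_fun fun n => ?_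
      ring
    refine alg hs ha hom (t := fun m n => t m n -
      (if n = m then (ρ0 + ∑ k ∈ Finset.range m, s ^ (8 * k) * ρ 0 k) else 0) -
      (if m < n then s ^ (5 * m) * (s ^ (3 * n) * ρ 1 n) else 0) -
      (if n = m + 1 then ζ * s ^ (8 * m) * ρ 2 m else 0)) ?_ ?_ ?_
    · have h4 := ((hI.sub g01).sub hf2s.hasSum).sub g3
      have e : I - ((∑' n, a n ^ 2) * ρ0 + S1) - (∑' p, f2 p) -
          (∑' n, ζ * s ^ (8 * n) * a n * a (n + 1) * ρ 2 n) =
          I - ((∑' n, a n ^ 2) * ρ0 + S1 + (∑' p, f2 p) +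
          (∑' n, ζ * s ^ (8 * n) * a n * a (n + 1) * ρ 2 n)) := by ring
      rw [e] at h4
      refine h4.congr_fun fun p => ?_
      simp only [hf2]
      split_ifs <;> ring
    · intro n
      simp only [lt_self_iff_false, if_false, if_true]
      rw [hd n, if_neg (by omega)]
      ring
    · intro m n hmn
      rw [if_neg (by omega : ¬ n = m), if_neg (by omega : ¬ m = n), if_pos hmn,
        if_neg (by omega : ¬ n < m), if_neg (by omega : ¬ m = n + 1)]
      have h5 := hx m n hmn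
      split_ifs at h5 ⊢ <;> linear_combination h5
  · refine h12.congr_fun fun n => ?_
    ring

/-- A series over `Option (Fin 4 × ℕ)`. -/
lemma opt {f : Option (Fin 4 × ℕ) → ℝ} {g : Fin 4 → ℝ} (h : ∀ i, HasSum (fun n => f (some (i, n))) (g i)) :
    HasSum f (f none + ∑ i, g i) := by
  have h1 : ∀ i : Fin 4, HasSum (fun p : Option (Fin 4 × ℕ) =>
      p.elim 0 fun q => if q.1 = i then f p else 0) (g i) := by
    intro i
    have hinj : Function.Injective (fun n : ℕ => (some (i, n) : Option (Fin 4 × ℕ))) := by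
      intro m n hmn
      simpa using hmn
    refine (hinj.hasSum_iff ?_).1 ?_
    · rintro (_ | ⟨j, n⟩) hp
      · rfl
      · simp only [Option.elim_some]
        rw [if_neg]
        intro h2
        exact hp ⟨n, by rw [h2]⟩
    · refine (h i).congr_fun fun n => ?_
      simp
  have h2 := hasSum_sum (s := (Finset.univ : Finset (Fin 4))) fun i _ => h1 i
  have h3 := (hasSum_ite_eq (none : Option (Fin 4 × ℕ)) (f none)).add h2
  refine h3.congr_fun fun p => ?_
  rcases p with _ | ⟨j, n⟩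
  · simp
  · simp

/-- The fields `r i (s^(2n) y)` are bounded. -/
lemma fam_pol {s : ℝ} {r0 : E3 → E3} {r : Fin 4 → E3 → E3}
    (hsm : ∀ p, ContDiff ℝ ∞ (fam s r0 r p)) (hcs : ∀ p, HasCompactSupport (fam s r0 r p))
    (v y : E3) (i : Fin 4) : Pol s (fun n => inner ℝ v (fam s r0 r (some (i, n)) y)) := by
  obtain ⟨C, hC⟩ := (hsm (some (i, 0))).continuous.bounded_above_of_compact_support
    (hcs (some (i, 0)))
  refine ⟨0, ‖v‖ * C, fun n => ?_⟩
  rw [zero_mul, pow_zero, mul_one]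
  refine (abs_real_inner_le_norm _ _).trans ?_
  have h1 := hC (s ^ (2 * n) • y)
  have h2 : fam s r0 r (some (i, 0)) (s ^ (2 * n) • y) = fam s r0 r (some (i, n)) y := by
    unfold fam
    simp
  rw [h2] at h1
  gcongr

/-- The quadratic term at a point, as a double series. -/
lemma quad_pt {s : ℝ} {P : E3 → E3} (hs : 1 < s) (hc : ContDiff ℝ ∞ P)
    (hP : ∀ y, 1 / 2 ≤ ‖y‖ → P y = 0) {a : ℕ → ℝ} (ha : Rap s a)
    (hsum : ∀ y, HasSum (fun n => a n • fderiv ℝ (pk s P n) y) (fderiv ℝ (ser s P a) y))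
    (v y : E3) :
    HasSum (fun p : ℕ × ℕ => a p.1 * a p.2 * inner ℝ v (adv (pk s P p.1) (pk s P p.2) y))
      (inner ℝ v (adv (ser s P a) (ser s P a) y)) := by
  obtain ⟨C, hC0, hC⟩ := pk_bd hs hc.continuous hP
  obtain ⟨D, hD0, hD⟩ := fderiv_bd hs hc hP
  have s0 : 0 < s := by linarith
  set b1 : ℕ → ℝ := fun m => |a m * (C * s ^ (3 * m))| with hb1
  set b2 : ℕ → ℝ := fun n => |a n * (‖v‖ * D * s ^ (5 * n))| with hb2
  have hs1 : Summable b1 := Rap.summable hs (Rap.mul_pol hs ha ((Pol.const C).mul (Pol.pow hs 3)))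
  have hs2 : Summable b2 :=
    Rap.summable hs (Rap.mul_pol hs ha ((Pol.const (‖v‖ * D)).mul (Pol.pow hs 5)))
  have hs12 : Summable fun p : ℕ × ℕ => b1 p.1 * b2 p.2 :=
    hs1.mul_of_nonneg hs2 (fun _ => abs_nonneg _) (fun _ => abs_nonneg _)
  set F : ℕ × ℕ → ℝ := fun p =>
    inner ℝ v ((a p.2 • fderiv ℝ (pk s P p.2) y) (a p.1 • pk s P p.1 y)) with hF
  have hFb : ∀ p, |F p| ≤ b1 p.1 * b2 p.2 := by
    intro p
    refine (abs_real_inner_le_norm _ _).trans ?_
    have h2 : ‖(a p.2 • fderiv ℝ (pk s P p.2) y) (a p.1 • pk s P p.1 y)‖ ≤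
        (|a p.2| * (D * s ^ (5 * p.2))) * (|a p.1| * (C * s ^ (3 * p.1))) := by
      refine (ContinuousLinearMap.le_opNorm _ _).trans ?_
      rw [norm_smul, norm_smul, Real.norm_eq_abs, Real.norm_eq_abs]
      gcongr
      · exact hD _ _
      · exact hC _ _
    calc ‖v‖ * ‖(a p.2 • fderiv ℝ (pk s P p.2) y) (a p.1 • pk s P p.1 y)‖
        ≤ ‖v‖ * ((|a p.2| * (D * s ^ (5 * p.2))) * (|a p.1| * (C * s ^ (3 * p.1)))) := by gcongr
      _ = (|a p.1| * (C * s ^ (3 * p.1))) * (|a p.2| * (‖v‖ * D * s ^ (5 * p.2))) := by ring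
      _ ≤ b1 p.1 * b2 p.2 := by
        simp only [hb1, hb2, abs_mul]
        gcongr <;> exact le_abs_self _
  have hsm : Summable F := by
    refine Summable.of_norm_bounded hs12 fun p => ?_
    rw [Real.norm_eq_abs]
    exact hFb p
  have h1 : ∀ m, HasSum (fun n => F (m, n))
      (inner ℝ v (fderiv ℝ (ser s P a) y (a m • pk s P m y))) := by
    intro m
    have h2 := (hsum y).mapL (ContinuousLinearMap.apply ℝ E3 (a m • pk s P m y))
    have h3 := h2.mapL (innerSL ℝ v)
    simpa only [hF, innerSL_apply_apply, ContinuousLinearMap.apply_apply] using h3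
  have h2 := hsm.hasSum.prod_fiberwise h1
  have h3 : HasSum (fun m => inner ℝ v (fderiv ℝ (ser s P a) y (a m • pk s P m y)))
      (inner ℝ v (fderiv ℝ (ser s P a) y (ser s P a y))) := by
    have h4 := ((hasSum_ser hs hc.continuous hP ha y).mapL (fderiv ℝ (ser s P a) y)).mapL
      (innerSL ℝ v)
    simpa only [innerSL_apply_apply] using h4
  have h5 : adv (ser s P a) (ser s P a) y = fderiv ℝ (ser s P a) y (ser s P a y) := rfl
  rw [h5, h3.unique h2]
  refine hsm.hasSum.congr_fun fun p => ?_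
  simp only [hF, smul_apply, map_smul, inner_smul_right, adv]
  ring

/-- The statement tested by a vector. -/
lemma tested {s c β lam ζ ν : ℝ} {P r0 : E3 → E3} {r : Fin 4 → E3 → E3} (hs : 1 < s)
    (hT : Tbl s c β lam P (fam s r0 r)) (hP : TP s c β lam ζ P (fam s r0 r))
    {a a' : ℕ → ℝ} (ha : Rap s a) (ha' : Rap s a')
    (haa : ∀ n, a' n = -(ν * lam * s ^ (4 * n) * a n) + β * vq s c a n) (v y : E3) :
    HasSum (fun p => inner ℝ v (lamF s ν ζ a p • fam s r0 r p y))
      (inner ℝ v (ser s P a' y + adv (ser s P a) (ser s P a) y - ν • lap (ser s P a) y)) := by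
  have s0 : 0 < s := by linarith
  obtain ⟨-, -, hfd, hlap, -⟩ := (t_SER1 s P hs hT.sm hT.out).1 a ha
  have hom : Pol s (fun n => inner ℝ v (pk s P n y)) := by
    obtain ⟨C, hC0, hC⟩ := pk_bd hs hT.sm.continuous hT.out
    refine ⟨3, ‖v‖ * C, fun n => ?_⟩
    refine (abs_real_inner_le_norm _ _).trans ?_
    have := hC n y
    calc ‖v‖ * ‖pk s P n y‖ ≤ ‖v‖ * (C * s ^ (3 * n)) := by gcongr
      _ = _ := by ring
  have hρ := fam_pol hT.rsm hT.rcs v y
  -- the quadratic term
  have hI := quad_pt hs hT.sm hT.out ha hfd v y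
  obtain ⟨S1, S2, S3, h0, h1, h2, h3⟩ := alg2 (c := c) (β := β) (ζ := ζ) hs ha hom
    (ρ0 := inner ℝ v (fam s r0 r none y))
    (ρ := fun i n => inner ℝ v (fam s r0 r (some (i, n)) y)) hρ
    (t := fun m n => inner ℝ v (adv (pk s P m) (pk s P n) y)) hI
    (by
      intro n
      rw [hP.pd n y]
      simp only [inner_add_right, inner_sub_right, inner_smul_right, inner_sum])
    (by
      intro m n hmn
      rw [← inner_add_right, hP.pc m n y hmn]
      split_ifs
      · simp only [inner_add_right, inner_sub_right, inner_smul_right]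
      · simp only [inner_add_right, inner_sub_right, inner_smul_right, inner_zero_right])
  -- the Laplacian
  have hL : HasSum (fun n => a n * (s ^ (7 * n) * inner ℝ v (fam s r0 r (some (3, n)) y) -
      lam * s ^ (4 * n) * inner ℝ v (pk s P n y))) (inner ℝ v (lap (ser s P a) y)) := by
    have h4 := (hlap y).mapL (innerSL ℝ v)
    simp only [innerSL_apply_apply] at h4
    refine h4.congr_fun fun n => ?_
    rw [hP.pl n y]
    simp only [inner_sub_right, inner_smul_right]
  -- the time derivative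
  have hD : HasSum (fun n => a' n * inner ℝ v (pk s P n y)) (inner ℝ v (ser s P a' y)) := by
    have h4 := (hasSum_ser hs hT.sm.continuous hT.out ha' y).mapL (innerSL ℝ v)
    simp only [innerSL_apply_apply] at h4
    refine h4.congr_fun fun n => ?_
    rw [inner_smul_right]
  -- the multiples of `r (3, n)`
  have h4s : Summable fun n => -(ν * s ^ (7 * n) * a n) * inner ℝ v (fam s r0 r (some (3, n)) y) := by
    have : Rap s (fun n => a n * (-ν * s ^ (7 * n) * inner ℝ v (fam s r0 r (some (3, n)) y))) :=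
      Rap.mul_pol hs ha (((Pol.const (-ν)).mul (Pol.pow hs 7)).mul (hρ 3))
    refine (Rap.hsum hs this).congr fun n => ?_
    ring
  obtain ⟨S4, h4⟩ := h4s
  -- the sum
  have h5 := (hD.add h0).sub (hL.mul_left ν)
  have h6 : HasSum (fun n => -(ν * s ^ (7 * n) * a n) * inner ℝ v (fam s r0 r (some (3, n)) y))
      (inner ℝ v (ser s P a' y) + (inner ℝ v (adv (ser s P a) (ser s P a) y) -
        ((∑' n, a n ^ 2) * inner ℝ v (fam s r0 r none y) + S1 + S2 + S3)) -
        ν * inner ℝ v (lap (ser s P a) y)) := by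
    refine h5.congr_fun fun n => ?_
    rw [haa n]
    ring
  have h7 := h6.unique h4
  have h8 : HasSum (fun p => inner ℝ v (lamF s ν ζ a p • fam s r0 r p y))
      (inner ℝ v (lamF s ν ζ a none • fam s r0 r none y) + ∑ i, ![S1, S2, S3, S4] i) := by
    refine opt (f := fun p => inner ℝ v (lamF s ν ζ a p • fam s r0 r p y)) fun i => ?_
    fin_cases i
    · refine h1.congr_fun fun n => ?_
      simp [lamF, inner_smul_right]
    · refine h2.congr_fun fun n => ?_
      simp [lamF, inner_smul_right]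
    · refine h3.congr_fun fun n => ?_
      simp [lamF, inner_smul_right]
    · refine h4.congr_fun fun n => ?_
      simp [lamF, inner_smul_right]
  have h9 : inner ℝ v (ser s P a' y + adv (ser s P a) (ser s P a) y - ν • lap (ser s P a) y) =
      inner ℝ v (lamF s ν ζ a none • fam s r0 r none y) + ∑ i, ![S1, S2, S3, S4] i := by
    rw [inner_sub_right, inner_add_right, inner_smul_right, inner_smul_right, Fin.sum_univ_four]
    simp only [lamF, Matrix.cons_val_zero, Matrix.cons_val_one, Matrix.cons_val]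
    linear_combination h7
  rw [h9]
  exact h8

end V2

/-- **The residual is the sum of the reaction forces.** -/
theorem t_REP : S_REP := by
  intro s c β lam ζ ν P r0 r hs hT hP _ _ a a' ha ha' haa y
  set b := EuclideanSpace.basisFun (Fin 3) ℝ with hb
  have h := hasSum_sum (s := (Finset.univ : Finset (Fin 3))) fun i _ =>
    (V2.tested hs hT hP ha ha' haa (b i) y).smul_const (b i)
  rw [b.sum_repr'] at h
  refine h.congr_fun fun p => ?_
  rw [b.sum_repr']

end Pool.Agent.N976.SC
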