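import Pool.Agent.N976.SC.T78
import Pool.Agent.N976.SC.T6
import Pool.Agent.N976.SC.Def2

/-!
# (V3) The reaction coefficients are continuous in time and rapidly decreasing
-/

open Set Filter Topology MeasureTheory
open scoped ContDiff

set_option autoImplicit false

namespace Pool.Agent.N976.SC

namespace V3

/-- The bound for the tail sums. -/
theorem b0 {s : ℝ} (hs : 1 < s) {k : ℕ} {a : ℕ → ℝ} {M : ℝ} (hM : 0 ≤ M)
    (h : ∀ n, s ^ ((k + 9) * n) * |a n| ≤ M) (n : ℕ) :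
    s ^ (k * n) * |s ^ (8 * n) * ∑' m : ℕ, a (n + 1 + m) ^ 2| ≤ M * M * (1 - s⁻¹)⁻¹ := by
  have hs0 : 0 < s := by linarith
  have h0 : (0 : ℝ) ≤ s⁻¹ := inv_nonneg.2 hs0.le
  have h1 : s⁻¹ < 1 := inv_lt_one_of_one_lt₀ hs
  have hpk : ∀ m : ℕ, 0 < s ^ m := fun m => pow_pos hs0 m
  have e : s ^ (k * n) * |s ^ (8 * n) * ∑' m : ℕ, a (n + 1 + m) ^ 2| =
      ∑' m : ℕ, s ^ ((k + 8) * n) * a (n + 1 + m) ^ 2 := by
    rw [abs_mul, abs_of_pos (hpk _), abs_of_nonneg (tsum_nonneg fun m => sq_nonneg _), ← mul_assoc,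
      ← pow_add, ← add_mul, tsum_mul_left]
  rw [e]
  have hb : ∀ m : ℕ, s ^ ((k + 8) * n) * a (n + 1 + m) ^ 2 ≤ M * M * s⁻¹ ^ m := by
    intro m
    have h4 : s ^ ((k + 8) * (n + 1 + m)) * |a (n + 1 + m)| ≤ M * s⁻¹ ^ (n + 1 + m) :=
      T78.room hs (h (n + 1 + m))
    have h5 : |a (n + 1 + m)| ≤ M := T78.weak0 hs (h (n + 1 + m))
    have h6 : s ^ ((k + 8) * n) ≤ s ^ ((k + 8) * (n + 1 + m)) :=
      pow_le_pow_right₀ hs.le (Nat.mul_le_mul_left _ (by omega))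
    have h7 : s⁻¹ ^ (n + 1 + m) ≤ s⁻¹ ^ m := pow_le_pow_of_le_one h0 h1.le (by omega)
    calc s ^ ((k + 8) * n) * a (n + 1 + m) ^ 2
        = s ^ ((k + 8) * n) * |a (n + 1 + m)| * |a (n + 1 + m)| := by
          rw [← sq_abs (a (n + 1 + m))]; ring
      _ ≤ s ^ ((k + 8) * (n + 1 + m)) * |a (n + 1 + m)| * |a (n + 1 + m)| := by gcongr
      _ ≤ M * s⁻¹ ^ (n + 1 + m) * M := mul_le_mul h4 h5 (abs_nonneg _) (by positivity)
      _ ≤ M * s⁻¹ ^ m * M := by gcongr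
      _ = M * M * s⁻¹ ^ m := by ring
  have hg : HasSum (fun m : ℕ => M * M * s⁻¹ ^ m) (M * M * (1 - s⁻¹)⁻¹) :=
    (hasSum_geometric_of_lt_one h0 h1).mul_left _
  have hsm : Summable (fun m : ℕ => s ^ ((k + 8) * n) * a (n + 1 + m) ^ 2) :=
    Summable.of_nonneg_of_le (fun m => by positivity) hb hg.summable
  exact hasSum_le hb hsm.hasSum hg

theorem b1 {s : ℝ} (hs : 1 < s) {k : ℕ} {a : ℕ → ℝ} {M : ℝ} (hM : 0 ≤ M)
    (h : ∀ n, s ^ ((k + 9) * n) * |a n| ≤ M) (n : ℕ) :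
    s ^ (k * n) * |s ^ (3 * n) * a n * ∑ m ∈ Finset.range n, s ^ (5 * m) * a m| ≤
      M * (M * (1 - s⁻¹)⁻¹) := by
  have hs0 : 0 < s := by linarith
  have hpk : ∀ m : ℕ, 0 < s ^ m := fun m => pow_pos hs0 m
  have e : s ^ (k * n) * |s ^ (3 * n) * a n * ∑ m ∈ Finset.range n, s ^ (5 * m) * a m| =
      (s ^ ((k + 3) * n) * |a n|) * |∑ m ∈ Finset.range n, s ^ (5 * m) * a m| := by
    rw [abs_mul, abs_mul, abs_of_pos (hpk _), add_mul, pow_add]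
    ring
  rw [e]
  have h4 : s ^ ((k + 3) * n) * |a n| ≤ M := T78.weak hs (by omega) (h n)
  have h5 : |∑ i ∈ Finset.range n, s ^ (5 * i) * a i| ≤ M * (1 - s⁻¹)⁻¹ := by
    calc |∑ i ∈ Finset.range n, s ^ (5 * i) * a i|
        ≤ ∑ i ∈ Finset.range n, |s ^ (5 * i) * a i| := Finset.abs_sum_le_sum_abs _ _
      _ ≤ ∑ i ∈ Finset.range n, M * s⁻¹ ^ i := by
          refine Finset.sum_le_sum fun i _ => ?_
          rw [abs_mul, abs_of_pos (hpk _)]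
          exact T78.room hs (T78.weak hs (by omega) (h i))
      _ = M * ∑ i ∈ Finset.range n, s⁻¹ ^ i := by rw [Finset.mul_sum]
      _ ≤ M * (1 - s⁻¹)⁻¹ := mul_le_mul_of_nonneg_left (T78.sum_geo hs n) hM
  exact mul_le_mul h4 h5 (abs_nonneg _) hM

theorem b2 {s ζ : ℝ} (hs : 1 < s) {k : ℕ} {a : ℕ → ℝ} {M : ℝ} (hM : 0 ≤ M)
    (h : ∀ n, s ^ ((k + 9) * n) * |a n| ≤ M) (n : ℕ) :
    s ^ (k * n) * |ζ * s ^ (8 * n) * a n * a (n + 1)| ≤ |ζ| * (M * M) := by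
  have hs0 : 0 < s := by linarith
  have hpk : ∀ m : ℕ, 0 < s ^ m := fun m => pow_pos hs0 m
  have e : s ^ (k * n) * |ζ * s ^ (8 * n) * a n * a (n + 1)| =
      |ζ| * ((s ^ ((k + 8) * n) * |a n|) * |a (n + 1)|) := by
    rw [abs_mul, abs_mul, abs_mul, abs_of_pos (hpk _), add_mul, pow_add]
    ring
  rw [e]
  have h4 : s ^ ((k + 8) * n) * |a n| ≤ M := T78.weak hs (by omega) (h n)
  have h5 : |a (n + 1)| ≤ M := T78.weak0 hs (h (n + 1))
  exact mul_le_mul_of_nonneg_left (mul_le_mul h4 h5 (abs_nonneg _) hM) (abs_nonneg _)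

theorem b3 {s ν : ℝ} (hs : 1 < s) {k : ℕ} {a : ℕ → ℝ} {M : ℝ}
    (h : ∀ n, s ^ ((k + 9) * n) * |a n| ≤ M) (n : ℕ) :
    s ^ (k * n) * |-(ν * s ^ (7 * n) * a n)| ≤ |ν| * M := by
  have hs0 : 0 < s := by linarith
  have hpk : ∀ m : ℕ, 0 < s ^ m := fun m => pow_pos hs0 m
  have e : s ^ (k * n) * |-(ν * s ^ (7 * n) * a n)| = |ν| * (s ^ ((k + 7) * n) * |a n|) := by
    rw [abs_neg, abs_mul, abs_mul, abs_of_pos (hpk _), add_mul, pow_add]
    ring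
  rw [e]
  exact mul_le_mul_of_nonneg_left (T78.weak hs (by omega) (h n)) (abs_nonneg _)

theorem rap_at {s T : ℝ} {x : ℕ → ℝ → ℝ} (hx : RapT s T x) {t : ℝ} (ht : t ∈ Ico 0 T) :
    Rap s (fun n => x n t) := by
  intro k
  obtain ⟨M, hM⟩ := hx k t ht.2
  exact ⟨M, fun n => hM t ⟨ht.1, le_rfl⟩ n⟩

theorem sq_sum {s : ℝ} (hs : 1 < s) {a : ℕ → ℝ} (ha : Rap s a) :
    Summable (fun n => a n ^ 2) := by
  have h := T6.Rap.hsum hs (T6.Rap.mul_pol hs ha (T6.Rap.pol ha))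
  refine h.congr fun n => ?_
  ring

end V3

theorem t_LAM : S_LAM := by
  intro s ν ζ T x hs hc hx
  refine ⟨?_, ?_⟩
  · have hps : ∀ n, ContinuousOn (fun t => ∑ m ∈ Finset.range n, s ^ (5 * m) * x m t) (Ico 0 T) :=
      fun n => continuousOn_finsetSum _ fun m _ => (hc m).const_mul _ |>.congr fun _ _ => rfl
    rintro (_ | ⟨i, n⟩)
    · have h1 := ((hc 0).pow 2).add (T78.tail_cont hs hc hx 0)
      refine h1.congr fun t ht => ?_
      have h2 := V3.sq_sum hs (V3.rap_at hx ht)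
      show ∑' n, x n t ^ 2 = x 0 t ^ 2 + ∑' m, x (0 + 1 + m) t ^ 2
      rw [h2.tsum_eq_zero_add]
      congr 1
      refine tsum_congr fun m => ?_
      rw [show m + 1 = 0 + 1 + m by ring]
    · fin_cases i
      · exact (continuousOn_const.mul (T78.tail_cont hs hc hx n))
      · exact ((continuousOn_const.mul (hc n)).mul (hps n))
      · exact ((continuousOn_const.mul (hc n)).mul (hc (n + 1)))
      · exact (continuousOn_const.mul (hc n)).neg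
  · intro k T' hT'
    obtain ⟨M0, hM0⟩ := hx (k + 9) T' hT'
    have hA : (0 : ℝ) ≤ |M0| := abs_nonneg _
    have hs0 : 0 < s := by linarith
    have hI : (0 : ℝ) ≤ (1 - s⁻¹)⁻¹ := by
      have := inv_lt_one_of_one_lt₀ hs
      exact inv_nonneg.2 (by linarith)
    refine ⟨|M0| * |M0| * (1 - s⁻¹)⁻¹ + |ζ| * (|M0| * |M0|) + |ν| * |M0|, fun t ht i n => ?_⟩
    have h : ∀ n, s ^ ((k + 9) * n) * |x n t| ≤ |M0| := fun n => (hM0 t ht n).trans (le_abs_self _)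
    have p1 : 0 ≤ |M0| * |M0| * (1 - s⁻¹)⁻¹ := by positivity
    have p2 : 0 ≤ |ζ| * (|M0| * |M0|) := by positivity
    have p3 : 0 ≤ |ν| * |M0| := by positivity
    fin_cases i
    · have := V3.b0 hs hA h n
      show s ^ (k * n) * |s ^ (8 * n) * ∑' m : ℕ, x (n + 1 + m) t ^ 2| ≤ _
      linarith
    · have := V3.b1 hs hA h n
      show s ^ (k * n) * |s ^ (3 * n) * x n t * ∑ m ∈ Finset.range n, s ^ (5 * m) * x m t| ≤ _
      linarith
    · have := V3.b2 (ζ := ζ) hs hA h n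
      show s ^ (k * n) * |ζ * s ^ (8 * n) * x n t * x (n + 1) t| ≤ _
      linarith
    · have := V3.b3 (ν := ν) hs h n
      show s ^ (k * n) * |-(ν * s ^ (7 * n) * x n t)| ≤ _
      linarith

end Pool.Agent.N976.SC
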