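import Pool.Agent.N976.SC.T6
import Pool.Agent.N976.SC.T5a
import Pool.Agent.N976.SC.T4a
import Pool.Agent.N976.SC.Def2

/-!
# (V4) Lower bound for the Dirichlet integral
-/

open Set Filter Topology MeasureTheory
open scoped ContDiff

set_option autoImplicit false

namespace Pool.Agent.N976.SC

theorem t_DIR : S_DIR := by
  intro ι s c β lam P r hs T
  obtain ⟨N, hN0, hN⟩ := T.norm
  have hl := T.lam0
  have hs0 : (0 : ℝ) < s := by linarith
  refine ⟨1 / (lam * N), by positivity, fun a ha n => ?_⟩
  obtain ⟨hsm, -, -, -, hout⟩ := (t_SER1 s P hs T.sm T.out).1 a ha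
  have hv : T4.Sm (ser s P a) := T4.Sm.of_out hsm hout
  have hcon : ∀ i, ip (ser s P a) (r i) = 0 := by
    intro i
    rw [T4.ip_comm]
    have h := t_IPS s P hs T.sm T.out (r i) (T.rsm i).continuous a ha
    have h0 : (fun n => a n * ip (r i) (pk s P n)) = fun _ => 0 := by
      funext n
      rw [T4.ip_comm, T.orth, mul_zero]
    rw [h0] at h
    exact h.unique hasSum_zero
  have hq := (t_QUAD t_SER1 ι s c β lam P r hs T (ser s P a) hsm.continuous hcon a ha).1
  have hip : ∀ n, ip (ser s P a) (pk s P n) = N * a n := by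
    intro n
    rw [T4.ip_comm]
    have h := t_IPS s P hs T.sm T.out (pk s P n) (T6.pk_cont T.sm.continuous n) a ha
    have h2 : HasSum (fun m => a m * ip (pk s P n) (pk s P m)) (a n * ip (pk s P n) (pk s P n)) := by
      refine hasSum_single n (fun m hm => ?_)
      rw [hN, if_neg (fun h => hm h.symm), mul_zero]
    rw [h.unique h2, hN, if_pos rfl, mul_comm]
  have h3 : ip (ser s P a) (lap (ser s P a)) = -dir (ser s P a) := by
    rw [T4.ip_comm]; exact T4.ip_lap_self hv
  rw [h3] at hq
  have h4 : HasSum (fun n => lam * N * (s ^ (4 * n) * a n ^ 2)) (dir (ser s P a)) := by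
    have h5 := hq.neg
    rw [neg_neg] at h5
    refine h5.congr_fun ?_ |> fun h => h
    intro n
    rw [hip n]
    ring
  have h6 : lam * N * (s ^ (4 * n) * a n ^ 2) ≤ dir (ser s P a) :=
    le_hasSum h4 n (fun m _ => by positivity)
  rw [one_div, inv_mul_eq_div, le_div_iff₀ (by positivity)]
  linarith

end Pool.Agent.N976.SC
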